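import Pool.Agent.H57C.Stm

/-!
# Project CG, piece ALG (helper69): invariant complements of countable subgroups, for finite group actions
-/

set_option autoImplicit false

namespace Pool.Agent.H57C

open Topology Cardinal Set

namespace AlgAux

variable {B : Type} [AddCommGroup B]

/-- the elements with a nonzero multiple in `S` -/
def T (S : AddSubgroup B) : Submodule ℤ B where
  carrier := {b | ∃ n : ℕ, n ≠ 0 ∧ n • b ∈ S}
  add_mem' := by
    rintro b c ⟨n, hn, hb⟩ ⟨m, hm, hc⟩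
    refine ⟨n * m, Nat.mul_ne_zero hn hm, ?_⟩
    have : (n * m) • (b + c) = m • (n • b) + n • (m • c) := by
      rw [smul_add, smul_smul, smul_smul, mul_comm m n]
    rw [this]
    exact S.add_mem (S.nsmul_mem hb m) (S.nsmul_mem hc n)
  zero_mem' := ⟨1, one_ne_zero, by rw [smul_zero]; exact S.zero_mem⟩
  smul_mem' := by
    rintro k b ⟨n, hn, hb⟩
    refine ⟨n, hn, ?_⟩
    rw [smul_comm]
    exact S.zsmul_mem hb k

theorem mem_T {S : AddSubgroup B} {b : B} : b ∈ T S ↔ ∃ n : ℕ, n ≠ 0 ∧ n • b ∈ S := Iff.rfl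

theorem T_countable (htf : ∀ (n : ℕ) (b : B), n ≠ 0 → n • b = 0 → b = 0) {S : AddSubgroup B}
    (hS : (S : Set B).Countable) : (T S : Set B).Countable := by
  have h1 : (T S : Set B) ⊆ ⋃ n : {n : ℕ // n ≠ 0}, (fun b : B => n.1 • b) ⁻¹' (S : Set B) := by
    rintro b ⟨n, hn, hb⟩
    exact Set.mem_iUnion.2 ⟨⟨n, hn⟩, hb⟩
  refine Set.Countable.mono h1 (Set.countable_iUnion fun n => ?_)
  refine Set.Countable.preimage_of_injOn hS fun a _ b _ hab => ?_
  have h2 : n.1 • (a - b) = 0 := by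
    rw [smul_sub, sub_eq_zero]
    exact hab
  exact sub_eq_zero.1 (htf n.1 _ n.2 h2)

end AlgAux

open AlgAux in
theorem s_alg : S_ALG := by
  classical
  intro B Γ _ _ _ _ htf hunc S hS hinv
  have : Fintype Γ := Fintype.ofFinite Γ
  -- `x` without multiples in `S`
  obtain ⟨x, hx⟩ : ∃ x, x ∉ T S := by
    by_contra h
    push Not at h
    have h1 : (Set.univ : Set B).Countable := (T_countable htf hS).mono fun b _ => h b
    exact not_countable_iff.2 hunc (Set.countable_univ_iff.1 h1)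
  let M : Submodule ℤ B := Submodule.span ℤ (Set.range fun γ : Γ => γ • x)
  have hxM : x ∈ M := Submodule.subset_span ⟨1, one_smul _ _⟩
  have hM : ∀ (γ : Γ), ∀ m ∈ M, γ • m ∈ M := by
    intro γ m hm
    induction hm using Submodule.span_induction with
    | mem y hy =>
      obtain ⟨δ, rfl⟩ := hy
      exact Submodule.subset_span ⟨γ * δ, mul_smul _ _ _⟩
    | zero => rw [smul_zero]; exact M.zero_mem
    | add y z _ _ hy hz => rw [smul_add]; exact M.add_mem hy hz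
    | smul k y _ hy => rw [smul_comm]; exact M.smul_mem k hy
  have hfin : Module.Finite ℤ M := Module.Finite.span_of_finite ℤ (Set.finite_range _)
  let N : Submodule ℤ M := (T S).comap M.subtype
  have hN : ∀ m : M, m ∈ N ↔ (m : B) ∈ T S := fun m => Iff.rfl
  have htfQ : Module.IsTorsionFree ℤ (M ⧸ N) := by
    refine Module.IsTorsionFree.of_smul_eq_zero fun k q hq => ?_
    by_cases hk : k = 0
    · exact Or.inl hk
    right
    obtain ⟨m, rfl⟩ := N.mkQ_surjective q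
    have h1 : N.mkQ (k • m) = 0 := by rw [map_smul]; exact hq
    have h2 : k • m ∈ N := (Submodule.Quotient.mk_eq_zero N).1 h1
    refine (Submodule.Quotient.mk_eq_zero N).2 ?_
    obtain ⟨n, hn, h3⟩ := h2
    have h4 : n • (k • (m : B)) ∈ S := h3
    refine ⟨n * k.natAbs, Nat.mul_ne_zero hn (Int.natAbs_ne_zero.2 hk), ?_⟩
    show (n * k.natAbs) • (m : B) ∈ S
    rw [mul_smul]
    rcases Int.natAbs_eq k with h | h
    · rw [h, natCast_zsmul] at h4
      exact h4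
    · rw [h, neg_smul, natCast_zsmul, smul_neg] at h4
      exact (S.neg_mem_iff).1 h4
  have hfree : Module.Free ℤ (M ⧸ N) := inferInstance
  obtain ⟨s, hs⟩ := Module.projective_lifting_property N.mkQ (LinearMap.id : (M ⧸ N) →ₗ[ℤ] (M ⧸ N))
    N.mkQ_surjective
  let P : M →ₗ[ℤ] M := LinearMap.id - s ∘ₗ N.mkQ
  have hP1 : ∀ m, P m ∈ N := by
    intro m
    rw [← Submodule.Quotient.mk_eq_zero]
    have h1 : N.mkQ (s (N.mkQ m)) = N.mkQ m := LinearMap.congr_fun hs (N.mkQ m)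
    show N.mkQ (m - s (N.mkQ m)) = 0
    rw [map_sub, h1, sub_self]
  have hP2 : ∀ m ∈ N, P m = m := by
    intro m hm
    have h1 : N.mkQ m = 0 := (Submodule.Quotient.mk_eq_zero N).2 hm
    show m - s (N.mkQ m) = m
    rw [h1, map_zero, sub_zero]
  let ρ : Γ → (M →ₗ[ℤ] M) := fun γ => (DistribSMul.toAddMonoidHom B γ).toIntLinearMap.restrict (hM γ)
  have hρ : ∀ γ (m : M), ((ρ γ m : M) : B) = γ • (m : B) := fun γ m => rfl
  have hρm : ∀ γ δ m, ρ γ (ρ δ m) = ρ (γ * δ) m := by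
    intro γ δ m
    apply Subtype.ext
    rw [hρ, hρ, hρ, mul_smul]
  have hρ1 : ∀ m, ρ 1 m = m := by
    intro m
    apply Subtype.ext
    rw [hρ, one_smul]
  have hρN : ∀ γ, ∀ m ∈ N, ρ γ m ∈ N := by
    rintro γ m ⟨n, hn, hm⟩
    refine ⟨n, hn, ?_⟩
    show n • (γ • (m : B)) ∈ S
    rw [smul_comm]
    exact hinv γ _ hm
  let Q : M →ₗ[ℤ] M := ∑ γ : Γ, ρ γ⁻¹ ∘ₗ P ∘ₗ ρ γ
  have hQ : ∀ m, Q m = ∑ γ : Γ, ρ γ⁻¹ (P (ρ γ m)) := by
    intro m
    simp [Q]
  have hQ1 : ∀ m, Q m ∈ N := by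
    intro m
    rw [hQ]
    exact N.sum_mem fun γ _ => hρN _ _ (hP1 _)
  have hQ2 : ∀ m ∈ N, Q m = Fintype.card Γ • m := by
    intro m hm
    rw [hQ]
    have : ∀ γ : Γ, ρ γ⁻¹ (P (ρ γ m)) = m := by
      intro γ
      rw [hP2 _ (hρN γ m hm), hρm, inv_mul_cancel, hρ1]
    rw [Finset.sum_congr rfl fun γ _ => this γ, Finset.sum_const, Finset.card_univ]
  have hQ3 : ∀ δ m, Q (ρ δ m) = ρ δ (Q m) := by
    intro δ m
    rw [hQ, hQ, map_sum]
    refine Fintype.sum_equiv (Equiv.mulRight δ) _ _ fun γ => ?_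
    rw [Equiv.coe_mulRight, hρm, hρm, mul_inv_rev, mul_inv_cancel_left]
  let y : M := Fintype.card Γ • ⟨x, hxM⟩ - Q ⟨x, hxM⟩
  have hcard : Fintype.card Γ ≠ 0 := Fintype.card_ne_zero
  have hy0 : Q y = 0 := by
    show Q (Fintype.card Γ • ⟨x, hxM⟩ - Q ⟨x, hxM⟩) = 0
    rw [map_sub, map_nsmul, hQ2 _ (hQ1 _), sub_self]
  have hy1 : (y : B) ≠ 0 := by
    intro h
    have h1 : Fintype.card Γ • (⟨x, hxM⟩ : M) = Q ⟨x, hxM⟩ := by
      have : y = 0 := Subtype.ext h
      exact sub_eq_zero.1 this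
    have h2 : Fintype.card Γ • (⟨x, hxM⟩ : M) ∈ N := by rw [h1]; exact hQ1 _
    obtain ⟨n, hn, h3⟩ := h2
    apply hx
    refine ⟨n * Fintype.card Γ, Nat.mul_ne_zero hn hcard, ?_⟩
    rw [mul_smul]
    exact h3
  -- the closure is in the kernel of `Q`
  have hker : ∀ c ∈ AddSubgroup.closure (Set.range fun γ : Γ => γ • (y : B)), ∃ m : M, (m : B) = c ∧ Q m = 0 := by
    intro c hc
    induction hc using AddSubgroup.closure_induction with
    | mem z hz =>
      obtain ⟨γ, rfl⟩ := hz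
      exact ⟨ρ γ y, hρ γ y, by rw [hQ3, hy0, map_zero]⟩
    | zero => exact ⟨0, rfl, map_zero _⟩
    | add a b _ _ ha hb =>
      obtain ⟨m, rfl, h1⟩ := ha
      obtain ⟨m', rfl, h2⟩ := hb
      exact ⟨m + m', rfl, by rw [map_add, h1, h2, add_zero]⟩
    | neg a _ ha =>
      obtain ⟨m, rfl, h1⟩ := ha
      exact ⟨-m, rfl, by rw [map_neg, h1, neg_zero]⟩
  refine ⟨y, hy1, fun c hc hcS => ?_⟩
  obtain ⟨m, rfl, h1⟩ := hker c hc
  have h2 : m ∈ N := ⟨1, one_ne_zero, by rw [one_smul]; exact hcS⟩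
  have h3 := hQ2 m h2
  rw [h1] at h3
  have h4 : Fintype.card Γ • (m : B) = 0 := by
    have := congrArg (fun z : M => (z : B)) h3
    exact this.symm
  exact htf _ _ hcard h4

end Pool.Agent.H57C
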