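import Pool.Agent.H57C.Stm

/-!
# Second countable quotients and extensions of compact groups
-/

set_option autoImplicit false

namespace Pool.Agent.H57C.CR

open Topology Cardinal Set Pool.Agent.H57C

theorem second_of_sep (X : Type) [TopologicalSpace X] [CompactSpace X] (ι : Type) [Countable ι]
    (Y : ι → Type) [∀ i, TopologicalSpace (Y i)] [∀ i, T2Space (Y i)]
    [∀ i, SecondCountableTopology (Y i)] (f : ∀ i, X → Y i) (hc : ∀ i, Continuous (f i))
    (hi : ∀ x y, (∀ i, f i x = f i y) → x = y) : SecondCountableTopology X := by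
  have h1 : Continuous fun x => fun i => f i x := continuous_pi hc
  have h2 : Function.Injective fun x => fun i => f i x := fun x y h => hi x y fun i => congrFun h i
  exact (h1.isClosedEmbedding h2).isEmbedding.secondCountableTopology

theorem s_cr : S_CR := by
  intro G _ _ _ _ _ K ι _ Y _ _ _ f hc h1 h2
  let g : ∀ i, G ⧸ K → Y i := fun i =>
    Quotient.lift (s := QuotientGroup.leftRel K) (f i) fun x y hxy =>
      h1 i x y (QuotientGroup.leftRel_apply.1 hxy)
  refine second_of_sep (G ⧸ K) ι Y g (fun i => (hc i).quotient_lift _) ?_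
  intro x y
  induction x using QuotientGroup.induction_on with
  | H x =>
    induction y using QuotientGroup.induction_on with
    | H y =>
      intro h
      exact QuotientGroup.eq.2 (h2 x y h)

theorem s_ext : S_EXT := by
  classical
  intro G _ _ _ _ _ A hA hAc hA2 hGA
  have hT2 : T2Space (G ⧸ A) := inferInstance
  have hrep : ∀ a : {a : A // a ≠ 1}, ∃ (r : ℕ) (σ : G →* Matrix.unitaryGroup (Fin r) ℂ),
      Continuous σ ∧ σ (a : A) ≠ 1 := by
    rintro ⟨a, ha⟩
    have h1 : (a : G) ≠ 1 := fun h => ha (Subtype.ext h)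
    obtain ⟨r, ρ, h2, h3⟩ := Pool.Agent.Y842.CX.separated_of_compact G _ _ h1
    rw [map_one] at h3
    exact ⟨r, ρ, h2, h3⟩
  choose r σ hσ1 hσ2 using hrep
  obtain ⟨T, hT, hTU⟩ := TopologicalSpace.isOpen_iUnion_countable
    (fun i : {a : A // a ≠ 1} => {x : A | σ i (x : G) ≠ 1})
    (fun i => isOpen_ne_fun ((hσ1 i).comp continuous_subtype_val) continuous_const)
  have hTc : Countable T := hT.to_subtype
  let F : G → (G ⧸ A) × (∀ t : T, Fin (r t.1) → Fin (r t.1) → ℂ) := fun g =>
    (QuotientGroup.mk g, fun t => ((σ t.1 g : Matrix (Fin (r t.1)) (Fin (r t.1)) ℂ)))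
  have hF : Continuous F := by
    refine QuotientGroup.continuous_mk.prodMk (continuous_pi fun t => ?_)
    exact continuous_subtype_val.comp (hσ1 t.1)
  have hFi : Function.Injective F := by
    intro x y hxy
    have h1 : (QuotientGroup.mk x : G ⧸ A) = QuotientGroup.mk y := congrArg Prod.fst hxy
    have h2 : x⁻¹ * y ∈ A := QuotientGroup.eq.1 h1
    have h3 : (⟨x⁻¹ * y, h2⟩ : A) = 1 := by
      by_contra hne
      have h4 : (⟨x⁻¹ * y, h2⟩ : A) ∈ ⋃ i : {a : A // a ≠ 1}, {x : A | σ i (x : G) ≠ 1} :=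
        Set.mem_iUnion.2 ⟨⟨_, hne⟩, hσ2 ⟨_, hne⟩⟩
      rw [← hTU] at h4
      simp only [Set.mem_iUnion] at h4
      obtain ⟨i, hi, h5⟩ := h4
      apply h5
      have h6 : σ i x = σ i y := Subtype.ext (congrFun (congrArg Prod.snd hxy) ⟨i, hi⟩)
      show σ i (x⁻¹ * y) = 1
      rw [map_mul, map_inv, h6, inv_mul_cancel]
    have h4 : x⁻¹ * y = 1 := congrArg Subtype.val h3
    exact inv_mul_eq_one.1 h4
  exact (hF.isClosedEmbedding hFi).isEmbedding.secondCountableTopology

end Pool.Agent.H57C.CR
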