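import Pool.Agent.H57C.Stm

/-!
# Project CG, piece DUAL (helper69): characters trivial on the common kernel of a set of characters
-/

set_option autoImplicit false

namespace Pool.Agent.H57C

open Topology Cardinal Set

namespace DualAux

open MeasureTheory

variable {A : Type} [Group A] [TopologicalSpace A] [IsTopologicalGroup A] [CompactSpace A]

theorem cc : Continuous ((↑) : Circle → ℂ) := continuous_subtype_val

/-- a character as a complex function -/
noncomputable def ch (χ : A →ₜ* Circle) : C(A, ℂ) := ⟨fun a => (χ a : ℂ), by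
  exact cc.comp χ.continuous_toFun⟩

theorem ch_apply (χ : A →ₜ* Circle) (a : A) : ch χ a = (χ a : ℂ) := rfl

theorem ch_mul (χ χ' : A →ₜ* Circle) : ch χ * ch χ' = ch (χ * χ') := by
  ext a
  simp [ch_apply]

theorem ch_one : ch (1 : A →ₜ* Circle) = 1 := by
  ext a
  simp [ch_apply]

theorem ch_star (χ : A →ₜ* Circle) : star (ch χ) = ch χ⁻¹ := by
  ext a
  exact (Circle.coe_inv_eq_conj _).symm

/-- the span of the characters in `H` -/
noncomputable def sp (H : Subgroup (A →ₜ* Circle)) : Submodule ℂ C(A, ℂ) := Submodule.span ℂ (ch '' (H : Set (A →ₜ* Circle)))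

theorem sp_mul (H : Subgroup (A →ₜ* Circle)) {f g : C(A, ℂ)} (hf : f ∈ sp H) (hg : g ∈ sp H) : f * g ∈ sp H := by
  have h1 : f * g ∈ sp H * sp H := Submodule.mul_mem_mul hf hg
  have h2 : sp H * sp H ≤ sp H := by
    unfold sp
    rw [Submodule.span_mul_span, Submodule.span_le]
    rintro _ ⟨_, ⟨χ, hχ, rfl⟩, _, ⟨χ', hχ', rfl⟩, rfl⟩
    exact Submodule.subset_span ⟨χ * χ', H.mul_mem hχ hχ', (ch_mul χ χ').symm⟩
  exact h2 h1

theorem sp_star (H : Subgroup (A →ₜ* Circle)) {f : C(A, ℂ)} (hf : f ∈ sp H) : star f ∈ sp H := by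
  unfold sp at hf ⊢
  induction hf using Submodule.span_induction with
  | mem x hx =>
    obtain ⟨χ, hχ, rfl⟩ := hx
    exact Submodule.subset_span ⟨χ⁻¹, H.inv_mem hχ, (ch_star χ).symm⟩
  | zero => rw [star_zero]; exact Submodule.zero_mem _
  | add x y _ _ hx hy => rw [star_add]; exact Submodule.add_mem _ hx hy
  | smul c x _ hx => rw [star_smul]; exact Submodule.smul_mem _ _ hx

theorem sp_one (H : Subgroup (A →ₜ* Circle)) : (1 : C(A, ℂ)) ∈ sp H :=
  Submodule.subset_span ⟨1, H.one_mem, ch_one⟩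

/-- orthogonality -/
theorem orth [MeasurableSpace A] [BorelSpace A] (μ : Measure A) [IsFiniteMeasure μ] [μ.IsMulLeftInvariant]
    (H : Subgroup (A →ₜ* Circle)) (ψ : A →ₜ* Circle) (hψ : ψ ∉ H) (f : C(A, ℂ)) (hf : f ∈ sp H) :
    ∫ a, f a * star (ψ a : ℂ) ∂μ = 0 := by
  have hint : ∀ g : C(A, ℂ), Integrable (fun a => g a * star (ψ a : ℂ)) μ := by
    intro g
    refine Continuous.integrable_of_hasCompactSupport ?_ (HasCompactSupport.of_compactSpace _)
    exact g.continuous.mul (cc.comp ψ.continuous_toFun).star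
  unfold sp at hf
  induction hf using Submodule.span_induction with
  | mem x hx =>
    obtain ⟨χ, hχ, rfl⟩ := hx
    have h1 : ∃ a, χ a ≠ ψ a := by
      by_contra h
      push Not at h
      exact hψ (by rw [← (ContinuousMonoidHom.ext h : χ = ψ)]; exact hχ)
    obtain ⟨a, ha⟩ := h1
    have h2 := integral_mul_left_eq_self (μ := μ) (fun x => ch χ x * star (ψ x : ℂ)) a
    have h3 : ∀ x, ch χ (a * x) * star (ψ (a * x) : ℂ) = ((χ a : ℂ) * star (ψ a : ℂ)) * (ch χ x * star (ψ x : ℂ)) := by
      intro x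
      rw [ch_apply, ch_apply, map_mul, map_mul, Circle.coe_mul, Circle.coe_mul, star_mul']
      ring
    simp_rw [h3] at h2
    rw [integral_const_mul] at h2
    by_contra h4
    have h5 : (χ a : ℂ) * star (ψ a : ℂ) = 1 := mul_right_cancel₀ h4 (by rw [h2, one_mul])
    apply ha
    apply Circle.ext
    have h6 : star (ψ a : ℂ) * (ψ a : ℂ) = 1 := by
      have : star (ψ a : ℂ) = ((ψ a)⁻¹ : Circle) := (Circle.coe_inv_eq_conj _).symm
      rw [this, ← Circle.coe_mul, inv_mul_cancel, Circle.coe_one]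
    calc (χ a : ℂ) = (χ a : ℂ) * (star (ψ a : ℂ) * (ψ a : ℂ)) := by rw [h6, mul_one]
      _ = (ψ a : ℂ) := by rw [← mul_assoc, h5, one_mul]
  | zero => simp
  | add x y _ _ hx hy =>
    have : ∀ a, (x + y) a * star (ψ a : ℂ) = x a * star (ψ a : ℂ) + y a * star (ψ a : ℂ) := fun a => by
      rw [ContinuousMap.add_apply, add_mul]
    simp_rw [this]
    rw [integral_add (hint x) (hint y), hx, hy, add_zero]
  | smul c x _ hx =>
    have : ∀ a, (c • x) a * star (ψ a : ℂ) = c * (x a * star (ψ a : ℂ)) := fun a => by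
      rw [ContinuousMap.smul_apply, smul_eq_mul, mul_assoc]
    simp_rw [this]
    rw [integral_const_mul, hx, mul_zero]

end DualAux

open DualAux MeasureTheory in
theorem s_dual : S_DUAL := by
  classical
  intro A _ _ _ _ _ S ψ hψ
  by_contra hcon
  set H : Subgroup (A →ₜ* Circle) := Subgroup.closure S with hH
  let _ : MeasurableSpace A := borel A
  have : BorelSpace A := ⟨rfl⟩
  let μ : Measure A := Measure.haar
  -- the image in the product
  let Φ₀ : A → (H → Circle) := fun a χ => (χ : A →ₜ* Circle) a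
  have hΦ₀ : Continuous Φ₀ := continuous_pi fun χ => (χ : A →ₜ* Circle).continuous_toFun
  let X := Set.range Φ₀
  let Φ : A → X := fun a => ⟨Φ₀ a, a, rfl⟩
  have hΦ : Continuous Φ := hΦ₀.subtype_mk _
  have hs : Function.Surjective Φ := by
    rintro ⟨_, a, rfl⟩
    exact ⟨a, rfl⟩
  have hq : IsQuotientMap Φ := IsQuotientMap.of_surjective_continuous hs hΦ
  have hXc : CompactSpace X := isCompact_iff_compactSpace.1 (isCompact_range hΦ₀)
  have hfac : Function.FactorsThrough (ch ψ) Φ := by
    intro a b hab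
    have h1 : Φ₀ a = Φ₀ b := congrArg Subtype.val hab
    have h2 : ψ (a⁻¹ * b) = 1 := by
      apply hψ
      intro χ hχ
      have h3 := congrFun h1 ⟨χ, Subgroup.subset_closure hχ⟩
      have h4 : χ a = χ b := h3
      rw [map_mul, map_inv, h4, inv_mul_cancel]
    rw [map_mul, map_inv, inv_mul_eq_one] at h2
    rw [ch_apply, ch_apply, h2]
  let φ : C(A, X) := ⟨Φ, hΦ⟩
  have hq' : IsQuotientMap φ := hq
  have hfac' : Function.FactorsThrough (ch ψ) φ := hfac
  let ψ' : C(X, ℂ) := hq'.lift (ch ψ) hfac'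
  have hψ' : ∀ a, ψ' (Φ a) = (ψ a : ℂ) := fun a =>
    congrFun (congrArg DFunLike.coe (hq'.lift_comp (ch ψ) hfac')) a
  let W : StarSubalgebra ℂ C(X, ℂ) :=
    { carrier := {f | f.comp φ ∈ sp H}
      mul_mem' := fun {f g} hf hg => by
        have : (f * g).comp φ = f.comp φ * g.comp φ := rfl
        show (f * g).comp φ ∈ sp H
        rw [this]
        exact sp_mul H hf hg
      add_mem' := fun {f g} hf hg => by
        have : (f + g).comp φ = f.comp φ + g.comp φ := rfl
        show (f + g).comp φ ∈ sp H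
        rw [this]
        exact Submodule.add_mem _ hf hg
      algebraMap_mem' := fun c => by
        have : (algebraMap ℂ C(X, ℂ) c).comp φ = c • (1 : C(A, ℂ)) := by
          ext a; simp
        show (algebraMap ℂ C(X, ℂ) c).comp φ ∈ sp H
        rw [this]
        exact Submodule.smul_mem _ _ (sp_one H)
      star_mem' := fun {f} hf => by
        have : (star f).comp φ = star (f.comp φ) := rfl
        show (star f).comp φ ∈ sp H
        rw [this]
        exact sp_star H hf }
  have hsep : W.toSubalgebra.SeparatesPoints := by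
    intro x y hxy
    obtain ⟨χ, hχ⟩ : ∃ χ : H, x.1 χ ≠ y.1 χ := by
      by_contra h
      push Not at h
      exact hxy (Subtype.ext (funext h))
    refine ⟨_, ⟨(⟨fun z => ((z : H → Circle) χ : ℂ), cc.comp
      ((continuous_apply χ).comp continuous_subtype_val)⟩ : C(X, ℂ)), ?_, rfl⟩, ?_⟩
    · exact Submodule.subset_span ⟨χ.1, χ.2, by ext a; rfl⟩
    · intro h
      exact hχ (Circle.ext h)
  have htop := ContinuousMap.starSubalgebra_topologicalClosure_eq_top_of_separatesPoints W hsep
  have hmem : ψ' ∈ W.topologicalClosure := by rw [htop]; exact StarSubalgebra.mem_top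
  have hmem' : ψ' ∈ closure (W : Set C(X, ℂ)) := hmem
  obtain ⟨f, hf, hd⟩ := Metric.mem_closure_iff.1 hmem' (1 / 2) (by norm_num)
  -- the contradiction
  have h1 : ∫ a, (f.comp φ) a * star (ψ a : ℂ) ∂μ = 0 := orth μ H ψ hcon _ hf
  have hpsi : ∀ a, (ψ a : ℂ) * star (ψ a : ℂ) = 1 := by
    intro a
    have := Circle.norm_coe (ψ a)
    rw [Complex.star_def, Complex.mul_conj, Complex.normSq_eq_norm_sq, this]
    simp
  have hint : ∀ g : C(A, ℂ), Integrable (fun a => g a * star (ψ a : ℂ)) μ := by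
    intro g
    refine Continuous.integrable_of_hasCompactSupport ?_ (HasCompactSupport.of_compactSpace _)
    exact g.continuous.mul (cc.comp ψ.continuous_toFun).star
  have h2 : ∫ a, (ch ψ a * star (ψ a : ℂ) - (f.comp φ) a * star (ψ a : ℂ)) ∂μ = (μ.real univ : ℂ) := by
    rw [integral_sub (hint _) (hint _), h1, sub_zero]
    have : ∀ a, ch ψ a * star (ψ a : ℂ) = 1 := hpsi
    simp_rw [this]
    simp
  have h3 : ‖∫ a, (ch ψ a * star (ψ a : ℂ) - (f.comp φ) a * star (ψ a : ℂ)) ∂μ‖ ≤ 1 / 2 * μ.real univ := by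
    refine norm_integral_le_of_norm_le_const (Filter.Eventually.of_forall fun a => ?_)
    rw [← sub_mul, norm_mul]
    have h4 : ‖star (ψ a : ℂ)‖ = 1 := by rw [norm_star]; exact Circle.norm_coe _
    rw [h4, mul_one]
    have h5 : ‖ψ' (Φ a) - f (Φ a)‖ ≤ dist ψ' f := by
      rw [← dist_eq_norm]
      exact ContinuousMap.dist_apply_le_dist (Φ a)
    have h6 : ch ψ a - (f.comp φ) a = ψ' (Φ a) - f (Φ a) := by rw [hψ']; rfl
    rw [h6]
    exact h5.trans hd.le
  rw [h2, Complex.norm_real, Real.norm_of_nonneg measureReal_nonneg] at h3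
  have h7 : 0 < μ.real univ := by
    rw [Measure.real, ENNReal.toReal_pos_iff]
    refine ⟨?_, measure_lt_top _ _⟩
    exact (isOpen_univ.measure_pos μ univ_nonempty)
  linarith

end Pool.Agent.H57C
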