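import Pool.Agent.H57C.Stm

/-!
# Recursion of length `ω₁` (helper57)
-/

set_option autoImplicit false

namespace Pool.Agent.H57C

open Topology Cardinal Set

/-- choose `f i` depending on the countable set of the previous values -/
theorem rec_seq {X : Type} (P : Set X → X → Prop) (h : ∀ S : Set X, S.Countable → ∃ x, P S x) :
    ∃ (I : Type) (_ : LinearOrder I) (f : I → X), Uncountable I ∧ WellFoundedLT I ∧
      (∀ i : I, (Set.Iio i).Countable) ∧ ∀ i, P (f '' Set.Iio i) (f i) := by
  classical
  let I : Type := (Cardinal.aleph 1).ord.ToType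
  have hI : ∀ i : I, (Set.Iio i).Countable := by
    intro i
    have h1 := Cardinal.mk_Iio_toType_ord_lt i
    rw [← Cardinal.le_aleph0_iff_set_countable]
    exact Cardinal.lt_aleph_one_iff.1 h1
  have hU : Uncountable I := by
    rw [← Cardinal.aleph0_lt_mk_iff, Cardinal.mk_ord_toType]
    exact Cardinal.aleph0_lt_aleph_one
  obtain ⟨x0, -⟩ := h ∅ Set.countable_empty
  have : Nonempty X := ⟨x0⟩
  choose! g hg using h
  let f : I → X := WellFounded.fix (wellFounded_lt (α := I))
    (fun i ih => g (Set.range fun j : {j : I // j < i} => ih j.1 j.2))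
  have hf : ∀ i, f i = g (f '' Set.Iio i) := by
    intro i
    have h1 := WellFounded.fix_eq (wellFounded_lt (α := I))
      (fun i ih => g (Set.range fun j : {j : I // j < i} => ih j.1 j.2)) i
    have h2 : (Set.range fun j : {j : I // j < i} => f j.1) = f '' Set.Iio i := by
      ext x
      constructor
      · rintro ⟨j, rfl⟩
        exact ⟨j.1, j.2, rfl⟩
      · rintro ⟨j, hj, rfl⟩
        exact ⟨⟨j, hj⟩, rfl⟩
    rw [← h2]
    exact h1
  refine ⟨I, inferInstance, f, hU, inferInstance, hI, ?_⟩
  intro i
  rw [hf i]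
  have h1 := hg (f '' Set.Iio i) ((hI i).image f)
  exact h1

end Pool.Agent.H57C
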