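import Pool.Agent.H57C.Stm

/-!
# A representation whose kernel meets a normal subgroup in a common kernel of characters
-/

set_option autoImplicit false

namespace Pool.Agent.H57C.RepP

open Topology Cardinal Set Pool.Agent.H57C

/-- the direct sum of finitely many unitary representations -/
theorem dsum {G : Type} [Group G] [TopologicalSpace G] {ι : Type} [Fintype ι] [DecidableEq ι]
    (r : ι → ℕ) (σ : ∀ i, G →* Matrix.unitaryGroup (Fin (r i)) ℂ) (hc : ∀ i, Continuous (σ i)) :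
    ∃ (n : ℕ) (ρ : G →* Matrix.unitaryGroup (Fin n) ℂ), Continuous ρ ∧
      ∀ g, ρ g = 1 ↔ ∀ i, σ i g = 1 := by
  let e : (Σ i, Fin (r i)) ≃ Fin (Fintype.card (Σ i, Fin (r i))) := Fintype.equivFin _
  let B : G → Matrix (Σ i, Fin (r i)) (Σ i, Fin (r i)) ℂ := fun g =>
    Matrix.blockDiagonal' fun i => (σ i g : Matrix (Fin (r i)) (Fin (r i)) ℂ)
  have hB1 : B 1 = 1 := by
    show (Matrix.blockDiagonal' fun i => (σ i 1 : Matrix (Fin (r i)) (Fin (r i)) ℂ)) = 1
    have h1 : (fun i => (σ i 1 : Matrix (Fin (r i)) (Fin (r i)) ℂ)) = 1 := by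
      funext i
      rw [map_one]
      rfl
    rw [h1, Matrix.blockDiagonal'_one]
  have hBm : ∀ g h, B (g * h) = B g * B h := by
    intro g h
    show (Matrix.blockDiagonal' fun i => (σ i (g * h) : Matrix (Fin (r i)) (Fin (r i)) ℂ)) = _
    have h1 : (fun i => (σ i (g * h) : Matrix (Fin (r i)) (Fin (r i)) ℂ)) =
        fun i => (σ i g : Matrix (Fin (r i)) (Fin (r i)) ℂ) * (σ i h : Matrix (Fin (r i)) (Fin (r i)) ℂ) := by
      funext i
      rw [map_mul]
      rfl
    rw [h1, Matrix.blockDiagonal'_mul]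
  have hBu : ∀ g, (B g).conjTranspose * B g = 1 := by
    intro g
    show (Matrix.blockDiagonal' fun i => (σ i g : Matrix (Fin (r i)) (Fin (r i)) ℂ)).conjTranspose *
      (Matrix.blockDiagonal' fun i => (σ i g : Matrix (Fin (r i)) (Fin (r i)) ℂ)) = 1
    rw [Matrix.blockDiagonal'_conjTranspose, ← Matrix.blockDiagonal'_mul]
    have h1 : (fun i => (σ i g : Matrix (Fin (r i)) (Fin (r i)) ℂ).conjTranspose *
        (σ i g : Matrix (Fin (r i)) (Fin (r i)) ℂ)) = 1 := by
      funext i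
      have h2 := Matrix.mem_unitaryGroup_iff'.1 (σ i g).2
      rw [Matrix.star_eq_conjTranspose] at h2
      exact h2
    rw [h1, Matrix.blockDiagonal'_one]
  have hmem : ∀ g, (B g).submatrix e.symm e.symm ∈
      Matrix.unitaryGroup (Fin (Fintype.card (Σ i, Fin (r i)))) ℂ := by
    intro g
    rw [Matrix.mem_unitaryGroup_iff', Matrix.star_eq_conjTranspose, Matrix.conjTranspose_submatrix,
      Matrix.submatrix_mul_equiv, hBu]
    exact Matrix.submatrix_one_equiv e.symm
  let ρ : G →* Matrix.unitaryGroup (Fin (Fintype.card (Σ i, Fin (r i)))) ℂ :=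
    { toFun := fun g => ⟨(B g).submatrix e.symm e.symm, hmem g⟩
      map_one' := by
        apply Subtype.ext
        show (B 1).submatrix e.symm e.symm = 1
        rw [hB1]
        exact Matrix.submatrix_one_equiv e.symm
      map_mul' := fun g h => by
        apply Subtype.ext
        show (B (g * h)).submatrix e.symm e.symm =
          (B g).submatrix e.symm e.symm * (B h).submatrix e.symm e.symm
        rw [hBm, Matrix.submatrix_mul_equiv] }
  refine ⟨_, ρ, ?_, fun g => ⟨fun h => ?_, fun h => ?_⟩⟩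
  · apply Continuous.subtype_mk
    refine Continuous.matrix_submatrix ?_ _ _
    refine Continuous.matrix_blockDiagonal' ?_
    exact continuous_pi fun i => continuous_subtype_val.comp (hc i)
  · have h1 : (B g).submatrix e.symm e.symm = (1 : Matrix _ _ ℂ) := congrArg Subtype.val h
    have h2 : B g = 1 := by
      ext i j
      have h8 := congrFun (congrFun h1 (e i)) (e j)
      simpa [Matrix.one_apply] using h8
    have h3 : (fun i => (σ i g : Matrix (Fin (r i)) (Fin (r i)) ℂ)) = 1 := by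
      apply Matrix.blockDiagonal'_injective
      rw [Matrix.blockDiagonal'_one]
      exact h2
    intro i
    apply Subtype.ext
    exact congrFun h3 i
  · apply Subtype.ext
    show (B g).submatrix e.symm e.symm = 1
    have h1 : B g = 1 := by
      show (Matrix.blockDiagonal' fun i => (σ i g : Matrix (Fin (r i)) (Fin (r i)) ℂ)) = 1
      have h1 : (fun i => (σ i g : Matrix (Fin (r i)) (Fin (r i)) ℂ)) = 1 := by
        funext i
        rw [h i]
        rfl
      rw [h1, Matrix.blockDiagonal'_one]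
    rw [h1]
    exact Matrix.submatrix_one_equiv e.symm

/-- the circle has no small subgroups -/
theorem no_small (z : Circle) (h : ∀ n : ℕ, ‖((z ^ n : Circle) : ℂ) - 1‖ < 1) : z = 1 := by
  have key : ∀ w : Circle, ‖(w : ℂ) - 1‖ < 1 →
      3 * ‖(w : ℂ) - 1‖ ^ 2 ≤ ‖((w ^ 2 : Circle) : ℂ) - 1‖ ^ 2 := by
    intro w hw
    have h1 := parallelogram_law_with_norm ℂ (w : ℂ) 1
    rw [Circle.norm_coe, norm_one] at h1
    have h2 : ((w ^ 2 : Circle) : ℂ) - 1 = ((w : ℂ) + 1) * ((w : ℂ) - 1) := by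
      push_cast
      ring
    rw [h2, norm_mul, mul_pow]
    have h3 : 3 ≤ ‖(w : ℂ) + 1‖ ^ 2 := by
      have h4 : ‖(w : ℂ) - 1‖ ^ 2 < 1 := by
        have := norm_nonneg ((w : ℂ) - 1)
        nlinarith
      nlinarith
    exact mul_le_mul_of_nonneg_right h3 (by positivity)
  have key2 : ∀ k : ℕ, 3 ^ k * ‖(z : ℂ) - 1‖ ^ 2 ≤ ‖((z ^ (2 ^ k) : Circle) : ℂ) - 1‖ ^ 2 := by
    intro k
    induction k with
    | zero => simp
    | succ k ih =>
      have h1 := key (z ^ (2 ^ k)) (h _)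
      rw [← pow_mul, ← pow_succ] at h1
      calc (3 : ℝ) ^ (k + 1) * ‖(z : ℂ) - 1‖ ^ 2 = 3 * (3 ^ k * ‖(z : ℂ) - 1‖ ^ 2) := by ring
        _ ≤ 3 * ‖((z ^ (2 ^ k) : Circle) : ℂ) - 1‖ ^ 2 := by linarith
        _ ≤ _ := h1
  have h0 : ‖(z : ℂ) - 1‖ ^ 2 = 0 := by
    by_contra hne
    have hpos : 0 < ‖(z : ℂ) - 1‖ ^ 2 := lt_of_le_of_ne (by positivity) (Ne.symm hne)
    obtain ⟨k, hk⟩ := pow_unbounded_of_one_lt (1 / ‖(z : ℂ) - 1‖ ^ 2) (by norm_num : (1 : ℝ) < 3)
    rw [div_lt_iff₀ hpos] at hk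
    have h1 := key2 k
    have h2 := h (2 ^ k)
    have h3 : ‖((z ^ (2 ^ k) : Circle) : ℂ) - 1‖ ^ 2 < 1 := by
      have := norm_nonneg (((z ^ (2 ^ k) : Circle) : ℂ) - 1)
      nlinarith
    linarith
  have h1 : (z : ℂ) - 1 = 0 := norm_eq_zero.1 (pow_eq_zero_iff (by norm_num)|>.1 h0)
  apply Circle.ext
  rw [sub_eq_zero.1 h1]
  rfl

theorem s_rep : S_REP := by
  classical
  intro G _ _ _ _ _ A hA hAc S hS K hK hKA hKS
  have hKc : IsClosed (K : Set G) := by
    have h1 : IsClosed {a : A | ∀ χ ∈ S, χ a = 1} := by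
      have e : {a : A | ∀ χ ∈ S, χ a = 1} = ⋂ χ ∈ S, {a : A | χ a = 1} := by
        ext
        simp
      rw [e]
      exact isClosed_biInter fun χ _ => isClosed_eq χ.continuous_toFun continuous_const
    have h2 : (K : Set G) = Subtype.val '' {a : A | ∀ χ ∈ S, χ a = 1} := by
      ext x
      constructor
      · intro hx
        exact ⟨⟨x, hKA hx⟩, (hKS ⟨x, hKA hx⟩).1 hx, rfl⟩
      · rintro ⟨a, ha, rfl⟩
        exact (hKS a).2 ha
    rw [h2]
    exact hAc.isClosedEmbedding_subtypeVal.isClosedMap _ h1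
  have hT2 : T2Space (G ⧸ K) := inferInstance
  have hAcomp : CompactSpace A := hAc.isClosedEmbedding_subtypeVal.compactSpace
  set O : Set A := {a : A | ∀ χ ∈ S, ‖((χ a : Circle) : ℂ) - 1‖ < 1} with hO
  have hOo : IsOpen O := by
    have e : O = ⋂ χ ∈ S, {a : A | ‖((χ a : Circle) : ℂ) - 1‖ < 1} := by
      ext
      simp [hO]
    rw [e]
    refine hS.isOpen_biInter fun χ _ => isOpen_lt ?_ continuous_const
    exact ((continuous_subtype_val.comp χ.continuous_toFun).sub continuous_const).norm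
  have hCc : IsCompact Oᶜ := hOo.isClosed_compl.isCompact
  have hrep : ∀ a : (Oᶜ : Set A), ∃ (r : ℕ) (σ : G →* Matrix.unitaryGroup (Fin r) ℂ),
      Continuous σ ∧ (∀ k ∈ K, σ k = 1) ∧ σ (a : A) ≠ 1 := by
    rintro ⟨a, ha⟩
    have h1 : (QuotientGroup.mk (a : G) : G ⧸ K) ≠ 1 := by
      intro h
      rw [QuotientGroup.eq_one_iff] at h
      apply ha
      intro χ hχ
      rw [(hKS a).1 h χ hχ]
      simp
    obtain ⟨r, ρ, h2, h3⟩ := Pool.Agent.Y842.CX.separated_of_compact (G ⧸ K) _ _ h1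
    refine ⟨r, ρ.comp (QuotientGroup.mk' K), h2.comp QuotientGroup.continuous_mk, fun k hk => ?_,
      fun h => h3 ?_⟩
    · rw [MonoidHom.comp_apply, QuotientGroup.mk'_apply, (QuotientGroup.eq_one_iff k).2 hk, map_one]
    · rw [map_one]
      exact h
  choose r σ hσ1 hσ2 hσ3 using hrep
  obtain ⟨t, ht⟩ := hCc.elim_finite_subcover (fun i : (Oᶜ : Set A) => {x : A | σ i (x : G) ≠ 1})
    (fun i => isOpen_ne_fun ((hσ1 i).comp continuous_subtype_val) continuous_const)
    (fun a ha => Set.mem_iUnion.2 ⟨⟨a, ha⟩, hσ3 ⟨a, ha⟩⟩)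
  obtain ⟨n, ρ, hρ1, hρ2⟩ := dsum (ι := t) (fun i => r i.1) (fun i => σ i.1) (fun i => hσ1 i.1)
  refine ⟨n, ρ, hρ1, le_antisymm ?_ ?_⟩
  · rintro x ⟨hx1, hx2⟩
    have hx1' : ρ x = 1 := MonoidHom.mem_ker.1 hx1
    have hall : ∀ m : ℕ, (⟨x, hx2⟩ : A) ^ m ∈ O := by
      intro m
      by_contra hm
      have h1 := ht hm
      simp only [Set.mem_iUnion] at h1
      obtain ⟨i, hi, h2⟩ := h1
      apply h2
      have h3 := (hρ2 (x ^ m)).1 (by rw [map_pow, hx1', one_pow]) ⟨i, hi⟩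
      simpa using h3
    refine (hKS ⟨x, hx2⟩).2 fun χ hχ => no_small _ fun m => ?_
    have h1 := hall m χ hχ
    rwa [map_pow] at h1
  · intro k hk
    refine ⟨MonoidHom.mem_ker.2 ((hρ2 k).2 fun i => hσ2 _ k hk), hKA hk⟩

end Pool.Agent.H57C.RepP
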