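import Pool.Agent.H57C.Stm

/-!
# Project CG: from a sequence of length `ω₁` to an independent family (helper57)
-/

set_option autoImplicit false

namespace Pool.Agent.H57C

open Topology Set

theorem hasInd_of_seq {G : Type} [Group G] [TopologicalSpace G] (hON : (ON G).Countable)
    (hA : (sInf (ON G) : Subgroup G).Normal)
    (I : Type) [LinearOrder I] (hI : Uncountable I) (hwf : WellFoundedLT I)
    (hct : ∀ i : I, (Set.Iio i).Countable) (C : I → Subgroup G)
    (hn : ∀ i, (C i).Normal) (hc : ∀ i, IsClosed (C i : Set G))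
    (h2 : ∀ i, SecondCountableTopology (G ⧸ C i))
    (ho : ∀ i, IsOpen ((sInf (ON G) ⊔ C i : Subgroup G) : Set G))
    (hne : ∀ i, ¬ sInf (ON G) ≤ C i)
    (hind : ∀ i, ∀ F : Finset I, (∀ j ∈ F, j < i) →
      (∀ j ∈ F, sInf (ON G) ⊔ C j = sInf (ON G) ⊔ C i) →
        sInf (ON G) ⊔ C i ≤ C i ⊔ ⨅ j ∈ F, C j) : HasInd G := by
  classical
  have hL : ∃ L ∈ ON G, ¬ {i | sInf (ON G) ⊔ C i = L}.Countable := by
    by_contra h
    push Not at h
    have h1 : (⋃ L ∈ ON G, {i | sInf (ON G) ⊔ C i = L}).Countable := hON.biUnion h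
    have h3 : (⋃ L ∈ ON G, {i | sInf (ON G) ⊔ C i = L}) = univ := by
      refine eq_univ_of_forall fun i => ?_
      rw [mem_iUnion₂]
      have := hn i
      exact ⟨sInf (ON G) ⊔ C i, ⟨inferInstance, ho i⟩, rfl⟩
    rw [h3, countable_univ_iff] at h1
    exact not_countable h1
  obtain ⟨L, hL, hJ⟩ := hL
  have hne' : {i | sInf (ON G) ⊔ C i = L}.Nonempty := by
    by_contra h
    rw [not_nonempty_iff_eq_empty] at h
    rw [h] at hJ
    exact hJ countable_empty
  refine ⟨L, {i | sInf (ON G) ⊔ C i = L}, inferInstance, fun i => C i, ?_, ?_, ?_, ?_⟩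
  · exact ⟨fun h => hJ (countable_coe_iff.1 h)⟩
  · infer_instance
  · intro i
    exact (hct i.1).preimage Subtype.val_injective
  · refine ⟨hL.1, hL.2, fun i => hn i, fun i => hc i, fun i => ?_, fun i => h2 i, ?_⟩
    · have h4 : sInf (ON G) ⊔ C i = L := i.2
      refine lt_of_le_of_ne (le_sup_right.trans h4.le) ?_
      intro h5
      exact hne i (le_sup_left.trans (h4.le.trans h5.ge))
    · intro i F hF
      have h4 : sInf (ON G) ⊔ C i = L := i.2
      have h5 := hind i.1 (F.map (Function.Embedding.subtype _)) (by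
        intro j hj
        rw [Finset.mem_map] at hj
        obtain ⟨k, hk, rfl⟩ := hj
        exact hF k hk) (by
        intro j hj
        rw [Finset.mem_map] at hj
        obtain ⟨k, hk, rfl⟩ := hj
        have h6 : sInf (ON G) ⊔ C k = L := k.2
        rw [h4]
        exact h6)
      have h7 : (⨅ j ∈ F.map (Function.Embedding.subtype _), C j) = ⨅ j ∈ F, C j.1 := by
        refine le_antisymm ?_ ?_
        · refine le_iInf₂ fun j hj => ?_
          exact iInf₂_le j.1 (Finset.mem_map.2 ⟨j, hj, rfl⟩)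
        · refine le_iInf₂ fun j hj => ?_
          obtain ⟨k, hk, rfl⟩ := Finset.mem_map.1 hj
          exact iInf₂_le k hk
      rw [h7] at h5
      exact h4.ge.trans h5

end Pool.Agent.H57C
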