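import Pool.Agent.H57C.Open
import Pool.Agent.H57C.CR
import Pool.Agent.H57C.RepP
import Pool.Agent.H57C.Dual
import Pool.Agent.H57C.Alg
import Pool.Agent.H57C.Rec
import Pool.Agent.H57C.Seq
import Pool.Agent.Helper472.Lat_Chars

/-!
# Project CG: piece B (helper57)
-/

set_option autoImplicit false

namespace Pool.Agent.H57C.B

open Topology Set

theorem closure_ctbl {B : Type} [AddGroup B] {T : Set B} (hT : T.Countable) :
    Countable (AddSubgroup.closure T) := by
  have h1 : Countable T := hT.to_subtype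
  have h2 : Countable (FreeAddGroup T) := by
    refine Function.Surjective.countable (f := FreeAddGroup.mk (α := T)) ?_
    exact Quot.mk_surjective
  have h3 : (FreeAddGroup.lift (Subtype.val : T → B)).range = AddSubgroup.closure T := by
    rw [FreeAddGroup.range_lift_eq_closure, Subtype.range_coe]
  rw [← h3]
  exact Function.Surjective.countable
    (AddMonoidHom.rangeRestrict_surjective (FreeAddGroup.lift (Subtype.val : T → B)))

section act

variable {G : Type} [Group G] [TopologicalSpace G] [IsTopologicalGroup G] (A : Subgroup G)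
  [hA : A.Normal]

/-- conjugation on a normal subgroup -/
def cjA (g : G) : A →ₜ* A where
  toFun a := ⟨g * a * g⁻¹, hA.conj_mem a a.2 g⟩
  map_one' := by
    ext
    simp
  map_mul' a b := by
    ext
    show g * (a * b : G) * g⁻¹ = (g * a * g⁻¹) * (g * b * g⁻¹)
    group
  continuous_toFun := by
    refine Continuous.subtype_mk ?_ _
    fun_prop

/-- the characters of `A`, additively -/
def XA : Type := Additive (A →ₜ* Circle)

noncomputable instance : AddCommGroup (XA A) :=
  inferInstanceAs (AddCommGroup (Additive (A →ₜ* Circle)))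

variable {A}

/-- the character -/
def ch (x : XA A) : A →ₜ* Circle := Additive.toMul x

/-- the element -/
def of (χ : A →ₜ* Circle) : XA A := Additive.ofMul χ

@[ext] theorem xa_ext {x y : XA A} (h : ∀ a, ch x a = ch y a) : x = y := by
  have h1 : ch x = ch y := ContinuousMonoidHom.ext h
  exact h1

theorem ch_add (x y : XA A) (a : A) : ch (x + y) a = ch x a * ch y a := rfl

theorem ch_zero (a : A) : ch (0 : XA A) a = 1 := rfl

theorem ch_nsmul (n : ℕ) (x : XA A) (a : A) : ch (n • x) a = (ch x a) ^ n := by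
  induction n with
  | zero => rw [zero_smul, pow_zero, ch_zero]
  | succ n ih => rw [succ_nsmul, ch_add, ih, pow_succ]

noncomputable instance : DistribMulAction G (XA A) where
  smul g x := of ((ch x).comp (cjA A g⁻¹))
  one_smul x := by
    refine xa_ext fun a => ?_
    show ch x _ = ch x a
    congr 1
    ext
    show (1 : G)⁻¹ * (a : G) * (1 : G)⁻¹⁻¹ = a
    simp
  mul_smul g h x := by
    refine xa_ext fun a => ?_
    show ch x _ = ch x _
    congr 1
    ext
    show (g * h)⁻¹ * (a : G) * (g * h)⁻¹⁻¹ = h⁻¹ * (g⁻¹ * a * g⁻¹⁻¹) * h⁻¹⁻¹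
    group
  smul_zero g := by
    ext a
    rfl
  smul_add g x y := by
    ext a
    rfl

theorem ch_smul (g : G) (x : XA A) (a : A) : ch (g • x) a = ch x (cjA A g⁻¹ a) := rfl

variable (A)
variable (U : Subgroup G)

/-- the characters fixed by `U` -/
noncomputable def BU : AddSubgroup (XA A) where
  carrier := {x | ∀ u ∈ U, u • x = x}
  zero_mem' := fun u _ => smul_zero u
  add_mem' := fun {x y} hx hy u hu => by rw [smul_add, hx u hu, hy u hu]
  neg_mem' := fun {x} hx u hu => by rw [smul_neg, hx u hu]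

variable {A U}

theorem mem_BU {x : XA A} : x ∈ BU A U ↔ ∀ u ∈ U, u • x = x := Iff.rfl

variable [hU : U.Normal]

theorem BU_smul {x : XA A} (hx : x ∈ BU A U) (g : G) : g • x ∈ BU A U := by
  rw [mem_BU] at hx ⊢
  intro u hu
  have h1 : u • g • x = g • ((g⁻¹ * u * g) • x) := by
    rw [← mul_smul, ← mul_smul]
    congr 1
    group
  have h2 := hU.conj_mem u hu g⁻¹
  rw [inv_inv] at h2
  rw [h1, hx _ h2]

noncomputable instance : DistribMulAction G (BU A U) where
  smul g x := ⟨g • x.1, BU_smul x.2 g⟩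
  one_smul x := Subtype.ext (one_smul G x.1)
  mul_smul g h x := Subtype.ext (mul_smul g h x.1)
  smul_zero g := Subtype.ext (smul_zero g)
  smul_add g x y := Subtype.ext (smul_add g x.1 y.1)

theorem coe_smul (g : G) (x : BU A U) : ((g • x : BU A U) : XA A) = g • (x : XA A) := rfl

noncomputable instance : SMul (G ⧸ U) (BU A U) := ⟨fun γ x => γ.out • x⟩

theorem mk_smul (g : G) (x : BU A U) : (QuotientGroup.mk' U g) • x = g • x := by
  show (Quotient.out (QuotientGroup.mk g : G ⧸ U)) • x = g • x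
  obtain ⟨u, hu⟩ := QuotientGroup.mk_out_eq_mul U g
  rw [hu, mul_smul]
  congr 1
  apply Subtype.ext
  rw [coe_smul]
  exact x.2 u u.2

noncomputable instance : DistribMulAction (G ⧸ U) (BU A U) :=
  Function.Surjective.distribMulActionLeft (QuotientGroup.mk' U) (QuotientGroup.mk'_surjective U)
    mk_smul

/-- the orbit -/
def orb (b : BU A U) : Set (BU A U) := Set.range fun γ : G ⧸ U => γ • b

theorem orb_mem {b c : BU A U} : c ∈ orb b ↔ ∃ g : G, g • b = c := by
  constructor
  · rintro ⟨γ, rfl⟩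
    obtain ⟨g, rfl⟩ := QuotientGroup.mk'_surjective U γ
    exact ⟨g, (mk_smul g b).symm⟩
  · rintro ⟨g, rfl⟩
    exact ⟨QuotientGroup.mk' U g, mk_smul g b⟩

theorem orb_ker {b : BU A U} (a : A) : (∀ c ∈ orb b, ch c.1 a = 1) ↔
    ∀ g : G, ch b.1 (cjA A g a) = 1 := by
  constructor
  · intro h g
    have h1 := h (g⁻¹ • b) (orb_mem.2 ⟨_, rfl⟩)
    rw [coe_smul, ch_smul, inv_inv] at h1
    exact h1
  · rintro h c hc
    obtain ⟨g, rfl⟩ := orb_mem.1 hc
    rw [coe_smul, ch_smul]
    exact h g⁻¹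

theorem step [Finite (G ⧸ U)] (htf : ∀ (n : ℕ) (b : BU A U), n ≠ 0 → n • b = 0 → b = 0)
    (hunc : Uncountable (BU A U)) (S : Set (BU A U)) (hS : S.Countable) :
    ∃ b : BU A U, b ≠ 0 ∧ ∀ c ∈ AddSubgroup.closure (orb b),
      c ∈ AddSubgroup.closure (⋃ s ∈ S, orb s) → c = 0 := by
  refine s_alg (BU A U) (G ⧸ U) htf hunc (AddSubgroup.closure (⋃ s ∈ S, orb s)) ?_ ?_
  · have h1 : (⋃ s ∈ S, orb s).Countable :=
      hS.biUnion fun s _ => Set.countable_range _
    have h2 : Countable (AddSubgroup.closure (⋃ s ∈ S, orb s)) := by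
      exact closure_ctbl h1
    exact Set.countable_coe_iff.1 h2
  · intro γ s hs
    induction hs using AddSubgroup.closure_induction with
    | mem x hx =>
      refine AddSubgroup.subset_closure ?_
      rw [mem_iUnion₂] at hx ⊢
      obtain ⟨s, hs, γ', rfl⟩ := hx
      exact ⟨s, hs, γ * γ', mul_smul _ _ _⟩
    | zero => rw [smul_zero]; exact zero_mem _
    | add x y _ _ hx hy => rw [smul_add]; exact add_mem hx hy
    | neg x _ hx => rw [smul_neg]; exact neg_mem hx

end act

section main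

theorem roots_finite {N : ℕ} (hN : N ≠ 0) : ({z : Circle | z ^ N = 1}).Finite := by
  have h1 : {z : ℂ | z ^ N = 1}.Finite := by
    refine ((Polynomial.nthRoots N (1 : ℂ)).toFinset.finite_toSet).subset ?_
    intro z hz
    rw [Finset.mem_coe, Multiset.mem_toFinset, Polynomial.mem_nthRoots (Nat.pos_of_ne_zero hN)]
    exact hz
  have h2 := h1.preimage (f := fun z : Circle => (z : ℂ)) Circle.coe_injective.injOn
  refine Set.Finite.subset h2 ?_
  rintro (z : Circle) hz
  have h3 : z ^ N = 1 := hz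
  show (z : ℂ) ^ N = 1
  rw [← Circle.coe_pow, h3, Circle.coe_one]

variable {G : Type} [Group G] [TopologicalSpace G] [IsTopologicalGroup G] [CompactSpace G]
  [T2Space G]

theorem core_normal : (sInf (ON G) : Subgroup G).Normal := ⟨fun _ ha g => core_conj ha g⟩

theorem core_closed : IsClosed ((sInf (ON G) : Subgroup G) : Set G) := by
  rw [Subgroup.coe_sInf]
  exact isClosed_biInter fun U hU => on_closed hU

theorem ker_second {Y : Type} [Group Y] [TopologicalSpace Y] [T2Space Y]
    [SecondCountableTopology Y] (ρ : G →* Y) (hρ : Continuous ρ) :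
    SecondCountableTopology (G ⧸ ρ.ker) := by
  refine CR.s_cr G ρ.ker Unit (fun _ => Y) (fun _ => ρ) (fun _ => hρ) ?_ ?_
  · intro _ x y h
    rw [MonoidHom.mem_ker, map_mul, map_inv, inv_mul_eq_one] at h
    exact h
  · intro x y h
    rw [MonoidHom.mem_ker, map_mul, map_inv, inv_mul_eq_one]
    exact h ()

theorem second_u (n : ℕ) : SecondCountableTopology (Matrix.unitaryGroup (Fin n) ℂ) := by
  have h1 : SecondCountableTopology (Matrix (Fin n) (Fin n) ℂ) :=
    inferInstanceAs (SecondCountableTopology (Fin n → Fin n → ℂ))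
  exact Topology.IsInducing.subtypeVal.secondCountableTopology

attribute [local instance] Matrix.linftyOpNormedRing Matrix.linftyOpNormedAlgebra

theorem uu_ker {n : ℕ} (ρ : G →* Matrix.unitaryGroup (Fin n) ℂ) :
    ((uu (r := n)).comp ρ).ker = ρ.ker := by
  ext g
  rw [MonoidHom.mem_ker, MonoidHom.mem_ker]
  constructor
  · intro h
    apply Subtype.ext
    exact congrArg Units.val h
  · intro h
    rw [MonoidHom.comp_apply, h, map_one]

theorem open_sup {n : ℕ} (ρ : G →* Matrix.unitaryGroup (Fin n) ℂ) (hρ : Continuous ρ) :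
    IsOpen ((sInf (ON G) ⊔ ρ.ker : Subgroup G) : Set G) := by
  have h1 := s_open G (Matrix (Fin n) (Fin n) ℂ) ((uu (r := n)).comp ρ) (uu_cont.comp hρ)
  rw [uu_ker] at h1
  exact h1

theorem exists_C (A : Subgroup G) [hA : A.Normal] (hAc : IsClosed (A : Set G))
    (hAe : A = sInf (ON G)) (U : Subgroup G) [hU : U.Normal] [Finite (G ⧸ U)] (b : BU A U) :
    ∃ C : Subgroup G, C.Normal ∧ IsClosed (C : Set G) ∧ SecondCountableTopology (G ⧸ C) ∧
      IsOpen ((A ⊔ C : Subgroup G) : Set G) ∧
      ∀ a : A, (a : G) ∈ C ↔ ∀ c ∈ orb b, ch c.1 a = 1 := by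
  obtain ⟨K₀, hK₀⟩ : ∃ K₀ : Subgroup A, ∀ a, a ∈ K₀ ↔ ∀ c ∈ orb b, ch c.1 a = 1 := by
    refine ⟨⨅ c ∈ orb b, (ch c.1).toMonoidHom.ker, fun a => ?_⟩
    simp only [Subgroup.mem_iInf]
    exact Iff.rfl
  have hmem : ∀ a : A, (a : G) ∈ K₀.map A.subtype ↔ a ∈ K₀ := by
    intro a
    constructor
    · rintro ⟨x, hx, hxa⟩
      have : x = a := Subtype.ext hxa
      rw [← this]
      exact hx
    · intro h
      exact ⟨a, h, rfl⟩
  have hKA : K₀.map A.subtype ≤ A := by
    rintro _ ⟨x, _, rfl⟩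
    exact x.2
  have hKn : (K₀.map A.subtype).Normal := by
    refine ⟨?_⟩
    rintro _ ⟨x, hx, rfl⟩ g
    have h1 : x ∈ K₀ := hx
    rw [hK₀, orb_ker] at h1
    have h2 : g * A.subtype x * g⁻¹ = (cjA A g x : G) := rfl
    rw [h2, hmem, hK₀, orb_ker]
    intro g'
    have h3 : cjA A g' (cjA A g x) = cjA A (g' * g) x := by
      ext
      show g' * (g * (x : G) * g⁻¹) * g'⁻¹ = g' * g * (x : G) * (g' * g)⁻¹
      group
    rw [h3]
    exact h1 _
  obtain ⟨n, ρ, hρ, hker⟩ := RepP.s_rep G A hA hAc ((fun c : BU A U => ch c.1) '' orb b)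
    ((Set.finite_range _).image _) (K₀.map A.subtype) hKn hKA (by
      intro a
      rw [hmem, hK₀]
      constructor
      · rintro h _ ⟨c, hc, rfl⟩
        exact h c hc
      · intro h c hc
        exact h _ ⟨c, hc, rfl⟩)
  refine ⟨ρ.ker, inferInstance, ?_, ?_, ?_, ?_⟩
  · have : (ρ.ker : Set G) = ρ ⁻¹' {1} := by
      ext x
      rfl
    rw [this]
    exact isClosed_singleton.preimage hρ
  · have h1 := second_u n
    exact ker_second ρ hρ
  · rw [hAe]
    exact open_sup ρ hρ
  · intro a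
    rw [← hK₀, ← hmem, ← hker]
    exact ⟨fun h => ⟨h, a.2⟩, fun h => h.1⟩

theorem cl_transfer {A : Subgroup G} {U : Subgroup G} [A.Normal] (T : Set (BU A U))
    (ψ : A →ₜ* Circle) (h : ψ ∈ Subgroup.closure ((fun c : BU A U => ch c.1) '' T)) :
    ∃ c ∈ AddSubgroup.closure T, ch c.1 = ψ := by
  induction h using Subgroup.closure_induction with
  | mem x hx =>
    obtain ⟨c, hc, rfl⟩ := hx
    exact ⟨c, AddSubgroup.subset_closure hc, rfl⟩
  | one => exact ⟨0, zero_mem _, rfl⟩
  | mul x y _ _ hx hy =>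
    obtain ⟨c, hc, rfl⟩ := hx
    obtain ⟨d, hd, rfl⟩ := hy
    exact ⟨c + d, add_mem hc hd, rfl⟩
  | inv x _ hx =>
    obtain ⟨c, hc, rfl⟩ := hx
    exact ⟨-c, neg_mem hc, rfl⟩

theorem indep_lem (A : Subgroup G) [hA : A.Normal] (hAc : IsClosed (A : Set G))
    (U : Subgroup G) [hU : U.Normal] (b : BU A U) (T : Set (BU A U))
    (C D : Subgroup G) [hCn : C.Normal] [hDn : D.Normal] (hC : IsClosed (C : Set G))
    (hD : IsClosed (D : Set G)) (hCk : ∀ a : A, (a : G) ∈ C ↔ ∀ c ∈ orb b, ch c.1 a = 1)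
    (hDk : ∀ a : A, (∀ c ∈ T, ch c.1 a = 1) → (a : G) ∈ D)
    (hT : ∀ c ∈ AddSubgroup.closure (orb b), c ∈ AddSubgroup.closure T → c = 0) :
    A ≤ C ⊔ D := by
  have hAcomp : CompactSpace A := isCompact_iff_compactSpace.1 hAc.isCompact
  have hcC : IsClosed (C.subgroupOf A : Set A) := hC.preimage continuous_subtype_val
  have hcD : IsClosed (D.subgroupOf A : Set A) := hD.preimage continuous_subtype_val
  obtain ⟨M, hM⟩ : ∃ M : Subgroup A, M = C.subgroupOf A ⊔ D.subgroupOf A := ⟨_, rfl⟩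
  have hMn : M.Normal := by
    rw [hM]
    infer_instance
  have hMc : IsClosed (M : Set A) := by
    rw [hM, Subgroup.mul_normal]
    exact (hcC.isCompact.mul hcD.isCompact).isClosed
  have hMtop : M = ⊤ := by
    by_contra hne
    obtain ⟨a, ha⟩ : ∃ a : A, a ∉ M := by
      by_contra h
      push Not at h
      exact hne (eq_top_iff.2 fun x _ => h x)
    have hcomm : ∀ x y : A ⧸ M, x * y = y * x := by
      intro x y
      obtain ⟨x, rfl⟩ := QuotientGroup.mk_surjective x
      obtain ⟨y, rfl⟩ := QuotientGroup.mk_surjective y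
      rw [← QuotientGroup.mk_mul, ← QuotientGroup.mk_mul, QuotientGroup.eq, hM]
      refine Subgroup.mem_sup_left ?_
      rw [Subgroup.mem_subgroupOf, hCk]
      intro c _
      simp only [map_mul, map_inv]
      rw [mul_comm (ch c.1 y) (ch c.1 x), inv_mul_cancel]
    let cg : CommGroup (A ⧸ M) := { QuotientGroup.Quotient.group M with mul_comm := hcomm }
    have hmk : (QuotientGroup.mk a : A ⧸ M) ≠ 1 := by
      intro h
      exact ha ((QuotientGroup.eq_one_iff a).1 h)
    obtain ⟨ψ₀, hψ₀⟩ := Pool.LatH472.chars (K := A ⧸ M) (QuotientGroup.mk a) hmk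
    obtain ⟨ψ, hψ⟩ : ∃ ψ : A →ₜ* Circle, ∀ x, ψ x = ψ₀ (QuotientGroup.mk x : A ⧸ M) := by
      refine ⟨⟨⟨⟨fun x => ψ₀ (QuotientGroup.mk x : A ⧸ M), ?_⟩, ?_⟩, ?_⟩, fun _ => rfl⟩
      · exact map_one ψ₀
      · intro x y
        exact map_mul ψ₀ (QuotientGroup.mk x : A ⧸ M) (QuotientGroup.mk y : A ⧸ M)
      · exact ψ₀.continuous_toFun.comp QuotientGroup.continuous_mk
    have hψM : ∀ x ∈ M, ψ x = 1 := by
      intro x hx
      rw [hψ]
      have h1 : (QuotientGroup.mk x : A ⧸ M) = 1 := (QuotientGroup.eq_one_iff x).2 hx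
      rw [h1]
      exact map_one ψ₀
    have hψ1 : ψ ∈ Subgroup.closure ((fun c : BU A U => ch c.1) '' orb b) := by
      refine s_dual A _ ψ fun x hx => hψM x ?_
      rw [hM]
      refine Subgroup.mem_sup_left ?_
      rw [Subgroup.mem_subgroupOf, hCk]
      intro c hc
      exact hx _ ⟨c, hc, rfl⟩
    have hψ2 : ψ ∈ Subgroup.closure ((fun c : BU A U => ch c.1) '' T) := by
      refine s_dual A _ ψ fun x hx => hψM x ?_
      rw [hM]
      refine Subgroup.mem_sup_right ?_
      rw [Subgroup.mem_subgroupOf]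
      exact hDk x fun c hc => hx _ ⟨c, hc, rfl⟩
    obtain ⟨c, hc, hcψ⟩ := cl_transfer _ ψ hψ1
    obtain ⟨d, hd, hdψ⟩ := cl_transfer _ ψ hψ2
    have hcd : c = d := by
      apply Subtype.ext
      have h1 : ch c.1 = ch d.1 := hcψ.trans hdψ.symm
      exact h1
    have hc0 : c = 0 := hT c hc (hcd ▸ hd)
    apply hψ₀
    rw [← hψ, ← hcψ, hc0]
    rfl
  intro a ha
  have h1 : (⟨a, ha⟩ : A) ∈ M := by
    rw [hMtop]
    exact Subgroup.mem_top _
  have h2 : M ≤ (C ⊔ D).subgroupOf A := by
    rw [hM]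
    refine sup_le ?_ ?_
    · exact Subgroup.comap_mono le_sup_left
    · exact Subgroup.comap_mono le_sup_right
  exact h2 h1

end main

theorem s_b (hconn : S_CONN) (hstab : S_STAB) : S_B := by
  classical
  intro G _ _ _ _ _ hON hunc
  obtain ⟨A, hAe⟩ : ∃ A : Subgroup G, A = sInf (ON G) := ⟨_, rfl⟩
  rw [← hAe] at hunc
  have hA : A.Normal := hAe ▸ core_normal
  have hAc : IsClosed (A : Set G) := hAe ▸ core_closed
  have hpre : IsPreconnected (A : Set G) := hAe ▸ hconn G
  have hpre' : PreconnectedSpace A := Subtype.preconnectedSpace hpre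
  -- the characters are torsion free
  have htf : ∀ (n : ℕ) (x : XA A), n ≠ 0 → n • x = 0 → x = 0 := by
    intro n x hn h
    have h1 : IsPreconnected (Set.range (ch x)) := isPreconnected_range (ch x).continuous_toFun
    have h2 : (Set.range (ch x)).Finite := by
      refine (roots_finite hn).subset ?_
      rintro _ ⟨a, rfl⟩
      show ch x a ^ n = 1
      rw [← ch_nsmul, h, ch_zero]
    refine xa_ext fun a => ?_
    by_contra hne
    have h3 : (Set.range (ch x)).Nontrivial :=
      ⟨ch x a, ⟨a, rfl⟩, ch x 1, ⟨1, rfl⟩, by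
        rw [map_one]
        exact hne⟩
    exact h1.infinite_of_nontrivial h3 h2
  have hunc' : Uncountable (XA A) := hunc
  -- a common open normal subgroup
  have hU : ∃ U ∈ ON G, ¬ ((BU A U : AddSubgroup (XA A)) : Set (XA A)).Countable := by
    by_contra h
    push Not at h
    have h1 : (⋃ U ∈ ON G, ((BU A U : AddSubgroup (XA A)) : Set (XA A))).Countable :=
      hON.biUnion h
    have h2 : (⋃ U ∈ ON G, ((BU A U : AddSubgroup (XA A)) : Set (XA A))) = univ := by
      refine eq_univ_of_forall fun x => ?_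
      obtain ⟨U, hU, hx⟩ := hstab G A hA hAc (ch x)
      rw [mem_iUnion₂]
      refine ⟨U, hU, ?_⟩
      show x ∈ BU A U
      rw [mem_BU]
      intro u hu
      refine xa_ext fun a => ?_
      rw [ch_smul]
      exact hx u⁻¹ (inv_mem hu) a
    rw [h2, countable_univ_iff] at h1
    exact not_countable h1
  obtain ⟨U, hU, hBU⟩ := hU
  have hUn : U.Normal := hU.1
  have hfin : Finite (G ⧸ U) := by
    have h1 : DiscreteTopology (G ⧸ U) := QuotientGroup.discreteTopology hU.2
    exact finite_of_compact_of_discrete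
  have huncB : Uncountable (BU A U) := ⟨fun h => hBU (countable_coe_iff.1 h)⟩
  have htfB : ∀ (n : ℕ) (b : BU A U), n ≠ 0 → n • b = 0 → b = 0 := by
    intro n b hn h
    apply Subtype.ext
    refine htf n b.1 hn ?_
    exact congrArg Subtype.val h
  choose C hCn hCc hC2 hCo hCk using fun b : BU A U => exists_C A hAc hAe U b
  obtain ⟨I, _, f, hI, hwf, hct, hf⟩ := rec_seq (fun (S : Set (BU A U)) (b : BU A U) =>
    b ≠ 0 ∧ ∀ c ∈ AddSubgroup.closure (orb b), c ∈ AddSubgroup.closure (⋃ s ∈ S, orb s) → c = 0)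
    (fun S hS => step htfB huncB S hS)
  refine hasInd_of_seq hON core_normal I hI hwf hct (fun i => C (f i)) (fun i => hCn _)
    (fun i => hCc _) (fun i => hC2 _) ?_ ?_ ?_
  · intro i
    rw [← hAe]
    exact hCo _
  · intro i h
    rw [← hAe] at h
    apply (hf i).1
    apply Subtype.ext
    refine xa_ext fun a => ?_
    have h1 := (hCk (f i) a).1 (h a.2) (f i) (orb_mem.2 ⟨1, one_smul _ _⟩)
    exact h1
  · intro i F hF _
    rw [← hAe]
    refine sup_le ?_ le_sup_left
    have hDn : (⨅ j ∈ F, C (f j)).Normal := by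
      refine ⟨fun x hx g => ?_⟩
      rw [Subgroup.mem_iInf] at hx ⊢
      intro j
      have h1 := hx j
      rw [Subgroup.mem_iInf] at h1 ⊢
      intro hj
      exact (hCn (f j)).conj_mem x (h1 hj) g
    have hDc : IsClosed ((⨅ j ∈ F, C (f j) : Subgroup G) : Set G) := by
      simp only [Subgroup.coe_iInf]
      exact isClosed_iInter fun j => isClosed_iInter fun _ => hCc (f j)
    have hCn' := hCn (f i)
    refine indep_lem A hAc U (f i) (⋃ s ∈ f '' Set.Iio i, orb s) (C (f i)) (⨅ j ∈ F, C (f j))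
      (hCc _) hDc (hCk _) ?_ (hf i).2
    intro a ha
    rw [Subgroup.mem_iInf]
    intro j
    rw [Subgroup.mem_iInf]
    intro hj
    rw [hCk]
    intro c hc
    refine ha c ?_
    rw [mem_iUnion₂]
    exact ⟨f j, ⟨j, hF j hj, rfl⟩, hc⟩

end Pool.Agent.H57C.B
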