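import Pool.Agent.H57C.Rec

/-!
# Uncountably many open normal subgroups
-/

set_option autoImplicit false

namespace Pool.Agent.H57C.CaseA

open Topology Cardinal Set Pool.Agent.H57C

variable {G : Type} [Group G]

/-- finitely many subgroups contain a given subgroup of finite index -/
theorem finite_above (U : Subgroup G) [Finite (G ⧸ U)] : {W : Subgroup G | U ≤ W}.Finite := by
  refine Set.Finite.of_finite_image (f := fun W : Subgroup G =>
    ((QuotientGroup.mk '' (W : Set G)) : Set (G ⧸ U))) (Set.toFinite _) ?_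
  have key : ∀ W W' : Subgroup G, U ≤ W' →
      ((QuotientGroup.mk '' (W : Set G)) : Set (G ⧸ U)) = QuotientGroup.mk '' (W' : Set G) →
      W ≤ W' := by
    intro W W' h' e g hg
    have h1 : (QuotientGroup.mk g : G ⧸ U) ∈ QuotientGroup.mk '' (W' : Set G) := by
      rw [← e]
      exact ⟨g, hg, rfl⟩
    obtain ⟨w, hw, hwg⟩ := h1
    have h2 : w⁻¹ * g ∈ W' := h' (QuotientGroup.eq.1 hwg)
    have h3 := W'.mul_mem hw h2
    rwa [mul_inv_cancel_left] at h3
  intro W hW W' hW' e
  exact le_antisymm (key W W' hW' e) (key W' W hW e.symm)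

/-- a minimal normal overgroup -/
theorem exists_over (U : Subgroup G) [Finite (G ⧸ U)] (hU : U ≠ ⊤) : ∃ V : Subgroup G,
    V.Normal ∧ U < V ∧ ∀ W : Subgroup G, W.Normal → U < W → W ≤ V → W = V := by
  have hfin : {V : Subgroup G | V.Normal ∧ U < V}.Finite :=
    (finite_above U).subset fun V hV => hV.2.le
  obtain ⟨V, hV⟩ := hfin.exists_minimal ⟨⊤, inferInstance, lt_top_iff_ne_top.2 hU⟩
  refine ⟨V, hV.1.1, hV.1.2, fun W h1 h2 h3 => ?_⟩
  exact le_antisymm h3 (hV.2 ⟨h1, h2⟩ h3)

variable [TopologicalSpace G] [IsTopologicalGroup G] [CompactSpace G]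

theorem s_a : S_A := by
  classical
  intro G _ _ _ _ _ hON
  have hfinq : ∀ U ∈ ON G, Finite (G ⧸ U) := fun U hU => Subgroup.quotient_finite_of_isOpen U hU.2
  have hidx0 : ∀ U ∈ ON G, U.index ≠ 0 := by
    intro U hU
    have := hfinq U hU
    exact Subgroup.index_ne_zero_of_finite
  have hex : ∃ n, ¬ {U ∈ ON G | U.index = n}.Countable := by
    by_contra hcon
    push Not at hcon
    apply hON
    have h1 : ON G ⊆ ⋃ n : ℕ, {U ∈ ON G | U.index = n} := fun U hU =>
      Set.mem_iUnion.2 ⟨U.index, hU, rfl⟩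
    exact (Set.countable_iUnion hcon).mono h1
  have hn := Nat.find_spec hex
  have hmin : ∀ m < Nat.find hex, {U ∈ ON G | U.index = m}.Countable := by
    intro m hm
    have := Nat.find_min hex hm
    push Not at this
    exact this
  generalize Nat.find hex = n at hn hmin
  have htop : ∀ U ∈ {U ∈ ON G | U.index = n}, U ≠ ⊤ := by
    rintro U ⟨-, hU⟩ rfl
    apply hn
    refine (Set.countable_singleton (⊤ : Subgroup G)).mono ?_
    rintro W ⟨hW, hW'⟩
    rw [Subgroup.index_top] at hU
    rw [Set.mem_singleton_iff, ← Subgroup.index_eq_one, hW', ← hU]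
  have hover : ∀ U, U ∈ {U ∈ ON G | U.index = n} → ∃ V : Subgroup G,
      V.Normal ∧ U < V ∧ ∀ W : Subgroup G, W.Normal → U < W → W ≤ V → W = V := by
    intro U hU
    have := hfinq U hU.1
    exact exists_over U (htop U hU)
  choose! V hV using hover
  have hVON : ∀ U ∈ {U ∈ ON G | U.index = n}, V U ∈ ON G ∧ (V U).index < n := by
    intro U hU
    have h1 := hV U hU
    refine ⟨⟨h1.1, Subgroup.isOpen_mono h1.2.1.le hU.1.2⟩, ?_⟩
    have := hfinq U hU.1
    have : U.FiniteIndex := Subgroup.finiteIndex_of_finite_quotient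
    have h2 := Subgroup.index_strictAnti h1.2.1
    rwa [hU.2] at h2
  have hL : ∃ L : Subgroup G, ¬ {U ∈ {U ∈ ON G | U.index = n} | V U = L}.Countable := by
    by_contra hcon
    push Not at hcon
    apply hn
    have h1 : (⋃ m ∈ Set.Iio n, {U ∈ ON G | U.index = m}).Countable :=
      (Set.to_countable (Set.Iio n)).biUnion fun m hm => hmin m hm
    have h2 : {U ∈ ON G | U.index = n} ⊆ ⋃ L ∈ (⋃ m ∈ Set.Iio n, {U ∈ ON G | U.index = m}),
        {U ∈ {U ∈ ON G | U.index = n} | V U = L} := by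
      intro U hU
      refine Set.mem_biUnion (x := V U) ?_ ⟨hU, rfl⟩
      exact Set.mem_biUnion (x := (V U).index) (hVON U hU).2 ⟨(hVON U hU).1, rfl⟩
    exact (h1.biUnion fun L _ => hcon L).mono h2
  obtain ⟨L, hL⟩ := hL
  set T := {U ∈ {U ∈ ON G | U.index = n} | V U = L} with hT
  have hT1 : ∀ U ∈ T, U ∈ ON G := fun U hU => hU.1.1
  have hT2 : ∀ U ∈ T, U < L := fun U hU => hU.2 ▸ (hV U hU.1).2.1
  have hT3 : ∀ U ∈ T, ∀ W : Subgroup G, W.Normal → U < W → W ≤ L → W = L := by
    intro U hU W h1 h2 h3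
    have h4 := (hV U hU.1).2.2 W h1 h2
    rw [hU.2] at h4
    exact h4 h3
  obtain ⟨U0, hU0⟩ : T.Nonempty := by
    by_contra hcon
    rw [Set.not_nonempty_iff_eq_empty] at hcon
    rw [hcon] at hL
    exact hL Set.countable_empty
  have hLON : L ∈ ON G := hU0.2 ▸ (hVON U0 hU0.1).1
  obtain ⟨I, hI, f, hI1, hI2, hI3, hf⟩ := rec_seq (X := T)
    (fun S x => ∀ F : Finset T, (F : Set T) ⊆ S → ¬ (⨅ j ∈ F, (j : Subgroup G)) ≤ x) (by
      intro S hS
      by_contra hcon
      push Not at hcon
      apply hL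
      have h1 : {F : Finset T | (F : Set T) ⊆ S}.Countable := by
        refine ((Set.countable_ofPred_finite_subset hS).preimage_of_injOn
          (f := fun F : Finset T => (F : Set T)) fun F _ F' _ e => Finset.coe_injective e).mono ?_
        intro F hF
        exact ⟨F.finite_toSet, hF⟩
      have h2 : T ⊆ ⋃ F ∈ {F : Finset T | (F : Set T) ⊆ S},
          {W : Subgroup G | (⨅ j ∈ F, (j : Subgroup G)) ≤ W} := by
        intro U hU
        obtain ⟨F, hF, hle⟩ := hcon ⟨U, hU⟩
        exact Set.mem_biUnion hF hle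
      refine (h1.biUnion fun F _ => ?_).mono h2
      have h3 : IsOpen ((⨅ j ∈ F, (j : Subgroup G) : Subgroup G) : Set G) := by
        have e : ((⨅ j ∈ F, (j : Subgroup G) : Subgroup G) : Set G) =
            ⋂ j ∈ F, ((j : Subgroup G) : Set G) := by
          simp
        rw [e]
        exact isOpen_biInter_finset fun j _ => (hT1 j j.2).2
      have h4 : Finite (G ⧸ (⨅ j ∈ F, (j : Subgroup G))) := Subgroup.quotient_finite_of_isOpen _ h3
      exact (finite_above _).countable)
  refine ⟨L, I, hI, fun i => (f i : Subgroup G), hI1, hI2, hI3, ?_⟩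
  refine ⟨hLON.1, hLON.2, fun i => (hT1 _ (f i).2).1, fun i =>
    Subgroup.isClosed_of_isOpen _ (hT1 _ (f i).2).2, fun i => hT2 _ (f i).2, fun i => ?_,
    fun i F hF => ?_⟩
  · have h1 := hfinq _ (hT1 _ (f i).2)
    have h2 : DiscreteTopology (G ⧸ (f i : Subgroup G)) :=
      QuotientGroup.discreteTopology (hT1 _ (f i).2).2
    infer_instance
  · rcases F.eq_empty_or_nonempty with rfl | ⟨j0, hj0⟩
    · simp
    set D : Subgroup G := ⨅ j ∈ F, (f j : Subgroup G) with hD
    have hDn : D.Normal := Subgroup.normal_iInf_normal fun j => Subgroup.normal_iInf_normal fun _ =>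
      (hT1 _ (f j).2).1
    have hCn : (f i : Subgroup G).Normal := (hT1 _ (f i).2).1
    have hLn : L.Normal := hLON.1
    have hDL : D ≤ L := (iInf₂_le j0 hj0).trans (hT2 _ (f j0).2).le
    have hnot : ¬ D ≤ (f i : Subgroup G) := by
      intro hle
      refine hf i (F.image f) ?_ (le_trans ?_ hle)
      · intro x hx
        rw [Finset.mem_coe, Finset.mem_image] at hx
        obtain ⟨j, hj, rfl⟩ := hx
        exact ⟨j, hF j hj, rfl⟩
      · refine le_iInf₂ fun j hj => iInf₂_le (f j) (Finset.mem_image_of_mem f hj)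
    have hsn : ((f i : Subgroup G) ⊔ D).Normal := Subgroup.sup_normal _ _
    have hW : (((f i : Subgroup G) ⊔ D) ⊓ L).Normal := Subgroup.normal_inf_normal _ _
    have hlt : (f i : Subgroup G) < ((f i : Subgroup G) ⊔ D) ⊓ L := by
      refine lt_of_le_of_ne (le_inf le_sup_left (hT2 _ (f i).2).le) fun e => hnot ?_
      rw [e]
      exact le_inf le_sup_right hDL
    have h5 := hT3 _ (f i).2 _ hW hlt inf_le_right
    exact inf_eq_right.1 h5

end Pool.Agent.H57C.CaseA
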