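import Pool.Agent.H57C.Stm

/-!
# CONN and STAB of project CG (helper15)
-/

set_option autoImplicit false
set_option linter.unusedSectionVars false

namespace Pool.Agent.H57C

open Topology Filter Set

theorem s_conn : S_CONN := by
  intro G _ _ _ _ _
  have h : ((sInf (ON G) : Subgroup G) : Set G) = connectedComponent (1 : G) := by
    apply Subset.antisymm
    · rw [connectedComponent_eq_iInter_isClopen]
      intro x hx
      rw [mem_iInter]
      rintro ⟨s, hs, h1⟩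
      obtain ⟨H, hH⟩ := IsTopologicalGroup.exist_openNormalSubgroup_sub_clopen_nhds_of_one hs h1
      apply hH
      have h2 : H.toSubgroup ∈ ON G := ⟨H.isNormal', H.isOpen'⟩
      exact (Subgroup.mem_sInf.1 hx) _ h2
    · intro x hx
      show x ∈ (sInf (ON G) : Subgroup G)
      rw [Subgroup.mem_sInf]
      intro U hU
      have h2 : IsClopen (U : Set G) := ⟨Subgroup.isClosed_of_isOpen U hU.2, hU.2⟩
      exact h2.connectedComponent_subset U.one_mem hx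
  rw [h]
  exact isPreconnected_connectedComponent

/-- no small subgroups in the circle -/
theorem no_small (z : Circle) (h : ∀ n : ℕ, ‖((z ^ n : Circle) : ℂ) - 1‖ < 1) : z = 1 := by
  have key : ∀ w : ℂ, ‖w‖ = 1 → ‖w - 1‖ < 1 → (3 / 2) * ‖w - 1‖ ≤ ‖w ^ 2 - 1‖ := by
    intro w hw h1
    have h2 : ‖w + 1‖ ^ 2 + ‖w - 1‖ ^ 2 = 4 := by
      have := parallelogram_law_with_norm ℝ w 1
      rw [hw, norm_one] at this
      nlinarith
    have h3 : 3 / 2 ≤ ‖w + 1‖ := by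
      by_contra h4
      rw [not_le] at h4
      have h5 : ‖w + 1‖ ^ 2 < 9 / 4 := by nlinarith [norm_nonneg (w + 1)]
      have h6 : ‖w - 1‖ ^ 2 < 1 := by nlinarith [norm_nonneg (w - 1)]
      linarith
    have h4 : w ^ 2 - 1 = (w + 1) * (w - 1) := by ring
    rw [h4, norm_mul]
    exact mul_le_mul_of_nonneg_right h3 (norm_nonneg _)
  have hn : ∀ n : ℕ, ‖((z ^ n : Circle) : ℂ)‖ = 1 := fun n => Circle.norm_coe _
  have h1 : ∀ n : ℕ, (3 / 2 : ℝ) ^ n * ‖(z : ℂ) - 1‖ ≤ ‖((z ^ (2 ^ n) : Circle) : ℂ) - 1‖ := by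
    intro n
    induction n with
    | zero => simp
    | succ n ih =>
      have h2 := key _ (hn (2 ^ n)) (h (2 ^ n))
      have h3 : ((z ^ (2 ^ n) : Circle) : ℂ) ^ 2 = ((z ^ (2 ^ (n + 1)) : Circle) : ℂ) := by
        rw [← Circle.coe_pow, ← pow_mul, pow_succ]
      rw [h3] at h2
      rw [pow_succ]
      nlinarith
  by_contra hz
  have h2 : 0 < ‖(z : ℂ) - 1‖ := by
    rw [norm_pos_iff, sub_ne_zero]
    intro h3
    apply hz
    ext
    rw [h3, Circle.coe_one]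
  obtain ⟨n, hn'⟩ := pow_unbounded_of_one_lt (1 / ‖(z : ℂ) - 1‖) (by norm_num : (1 : ℝ) < 3 / 2)
  have h3 : 1 < (3 / 2 : ℝ) ^ n * ‖(z : ℂ) - 1‖ := by
    rwa [div_lt_iff₀ h2] at hn'
  have h4 := h1 n
  have h5 := h (2 ^ n)
  linarith

theorem s_stab : S_STAB := by
  intro G _ _ _ _ _ A hA hcl χ
  have hcA : CompactSpace A := isCompact_iff_compactSpace.1 hcl.isCompact
  obtain ⟨F, hF⟩ : ∃ F : G × A → Circle, F = fun p =>
    χ ⟨p.1 * p.2 * p.1⁻¹, hA.conj_mem p.2 p.2.2 p.1⟩ * (χ p.2)⁻¹ := ⟨_, rfl⟩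
  have hFc : Continuous F := by
    rw [hF]
    have h1 : Continuous fun p : G × A => (⟨p.1 * p.2 * p.1⁻¹, hA.conj_mem p.2 p.2.2 p.1⟩ : A) := by
      refine Continuous.subtype_mk ?_ _
      fun_prop
    have h2 : Continuous χ := χ.continuous_toFun
    exact (h2.comp h1).mul (h2.comp continuous_snd).inv
  obtain ⟨O, hO⟩ : ∃ O : Set (G × A), O = {p | ‖((F p : Circle) : ℂ) - 1‖ < 1} := ⟨_, rfl⟩
  have hOo : IsOpen O := by
    rw [hO]
    have h1 : Continuous fun p : G × A => ‖((F p : Circle) : ℂ) - 1‖ :=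
      ((continuous_subtype_val.comp hFc).sub continuous_const).norm
    exact isOpen_lt h1 continuous_const
  have h1O : ({1} : Set G) ×ˢ (univ : Set A) ⊆ O := by
    rintro ⟨g, a⟩ ⟨hg, _⟩
    rw [mem_singleton_iff] at hg
    subst hg
    rw [hO, hF]
    show ‖((χ ⟨1 * (a : G) * 1⁻¹, _⟩ * (χ a)⁻¹ : Circle) : ℂ) - 1‖ < 1
    have h2 : (⟨1 * (a : G) * 1⁻¹, hA.conj_mem a a.2 1⟩ : A) = a := by
      apply Subtype.ext
      simp
    rw [h2, mul_inv_cancel, Circle.coe_one, sub_self, norm_zero]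
    exact one_pos
  obtain ⟨V, W, hV, hW, hV1, hWu, hVW⟩ := generalized_tube_lemma (isCompact_singleton (x := (1 : G)))
    (isCompact_univ (X := A)) hOo h1O
  obtain ⟨H, hH⟩ : ∃ H : Subgroup G, ∀ g, g ∈ H ↔
      ∀ a : A, χ ⟨g * a * g⁻¹, hA.conj_mem a a.2 g⟩ = χ a := by
    refine ⟨⟨⟨⟨{g | ∀ a : A, χ ⟨g * a * g⁻¹, hA.conj_mem a a.2 g⟩ = χ a}, ?_⟩, ?_⟩, ?_⟩,
      fun g => Iff.rfl⟩
    · intro x y hx hy a
      have h1 := hx ⟨y * a * y⁻¹, hA.conj_mem a a.2 y⟩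
      rw [hy a] at h1
      rw [← h1]
      congr 1
      apply Subtype.ext
      show x * y * a * (x * y)⁻¹ = x * (y * a * y⁻¹) * x⁻¹
      group
    · intro a
      congr 1
      apply Subtype.ext
      simp
    · intro x hx a
      have h1 := hx ⟨x⁻¹ * a * x⁻¹⁻¹, hA.conj_mem a a.2 x⁻¹⟩
      show χ ⟨x⁻¹ * a * x⁻¹⁻¹, _⟩ = χ a
      rw [← h1]
      congr 1
      apply Subtype.ext
      show x * (x⁻¹ * a * x⁻¹⁻¹) * x⁻¹ = a
      group
  have hHV : V ⊆ (H : Set G) := by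
    intro g hg
    show g ∈ H
    rw [hH]
    intro a
    have h1 : ∀ n : ℕ, ‖(((χ ⟨g * a * g⁻¹, hA.conj_mem a a.2 g⟩ * (χ a)⁻¹) ^ n : Circle) : ℂ) - 1‖
        < 1 := by
      intro n
      have h2 : (g, a ^ n) ∈ O := hVW ⟨hg, hWu (mem_univ _)⟩
      rw [hO, hF] at h2
      have h3 : (⟨g * ((a ^ n : A) : G) * g⁻¹, hA.conj_mem _ (a ^ n).2 g⟩ : A) =
          (⟨g * a * g⁻¹, hA.conj_mem a a.2 g⟩ : A) ^ n := by
        apply Subtype.ext
        show g * ((a ^ n : A) : G) * g⁻¹ = (((⟨g * a * g⁻¹, _⟩ : A) ^ n : A) : G)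
        rw [Subgroup.coe_pow, Subgroup.coe_pow, conj_pow]
      have h4 : χ (⟨g * ((a ^ n : A) : G) * g⁻¹, hA.conj_mem _ (a ^ n).2 g⟩ : A) *
          (χ (a ^ n))⁻¹ = (χ ⟨g * a * g⁻¹, hA.conj_mem a a.2 g⟩ * (χ a)⁻¹) ^ n := by
        rw [h3, map_pow, map_pow, mul_pow, inv_pow]
      rw [← h4]
      exact h2
    have h2 := no_small _ h1
    rwa [mul_inv_eq_one] at h2
  have hHo : IsOpen (H : Set G) :=
    Subgroup.isOpen_of_mem_nhds _ (g := 1)
      (Filter.mem_of_superset (hV.mem_nhds (hV1 (mem_singleton _))) hHV)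
  obtain ⟨N, hN⟩ := IsTopologicalGroup.exist_openNormalSubgroup_sub_clopen_nhds_of_one
    (⟨Subgroup.isClosed_of_isOpen H hHo, hHo⟩ : IsClopen (H : Set G)) H.one_mem
  refine ⟨N.toSubgroup, ⟨N.isNormal', N.isOpen'⟩, fun g hg => (hH g).1 (hN hg)⟩

end Pool.Agent.H57C
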