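import Pool.Agent.H57C.Words

/-!
# The core: compact subsets are countable (helper57)
-/

set_option autoImplicit false
set_option linter.unusedSectionVars false

namespace Pool.Agent.H57C

open Topology Cardinal Set Filter

/-- the hypotheses on the generators -/
structure Gen (G T I : Type) [Group G] [LinearOrder I] (τ : T → G) (L : Subgroup G)
    (C : I → Subgroup G) (B : Set (ℕ → Bool)) (x : (ℕ → Bool) → G)
    (R : I → (ℕ → Bool) → G) : Prop where
  x1 : ∀ ρ ∈ B, x ρ ∈ L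
  x2 : ∀ ρ ∈ B, ∃ α : I, ∀ j, α < j → (R j ρ)⁻¹ * x ρ ∈ C j
  x3 : ∀ (α : I) (n : I → G), (∀ j, n j ∈ L) → ∃ ρ ∈ B, ∀ j, j < α → (n j)⁻¹ * x ρ ∈ C j
  r2 : ∀ j, ∃ m : ℕ, ∀ ρ ρ' : ℕ → Bool, (∀ i < m, ρ i = ρ' i) → R j ρ = R j ρ'
  key : ∀ u : FreeGroup (T ⊕ (ℕ → Bool)),
    (∃ j, ∃ v : (ℕ → Bool) → G, (∀ ρ, v ρ ∈ L) ∧ ev τ v u ∉ C j) →
      ∀ α : I, ∃ j, α < j ∧ ev τ (R j) u ∉ C j

section

variable {G : Type} [Group G] [TopologicalSpace G] [IsTopologicalGroup G] {I : Type}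
  [LinearOrder I] (C : I → Subgroup G) [hN : ∀ j, (C j).Normal]

/-- the map to the product of the quotients -/
def ff : G →* (∀ j, G ⧸ C j) := MonoidHom.pi fun j => QuotientGroup.mk' (C j)

theorem ff_apply (g : G) (j : I) : ff C g j = (g : G ⧸ C j) := rfl

theorem ff_cont : Continuous (ff C) := by
  refine continuous_pi fun j => ?_
  exact QuotientGroup.continuous_mk

theorem ff_eq {g h : G} : ff C g = ff C h ↔ ∀ j, g⁻¹ * h ∈ C j := by
  rw [funext_iff]
  exact forall_congr' fun j => QuotientGroup.eq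

end

/-- countable sets are bounded -/
theorem exists_bound {I : Type} [LinearOrder I] [Uncountable I]
    (hI : ∀ i : I, (Set.Iio i).Countable) {S : Set I} (hS : S.Countable) :
    ∃ γ : I, ∀ s ∈ S, s < γ := by
  by_contra hc
  push Not at hc
  have h1 : (Set.univ : Set I) ⊆ ⋃ s ∈ S, Set.Iic s := by
    intro γ _
    obtain ⟨s, hs, h⟩ := hc γ
    exact Set.mem_iUnion₂.2 ⟨s, hs, h⟩
  have h2 : (⋃ s ∈ S, Set.Iic s).Countable := by
    refine hS.biUnion fun s _ => ?_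
    rw [← Set.Iio_insert]
    exact (hI s).insert s
  exact Set.not_countable_univ (h2.mono h1)

/-- representations with `k` variables -/
def Rp {G T I : Type} [Group G] [LinearOrder I] (τ : T → G)
    (C : I → Subgroup G) [∀ j, (C j).Normal] (B : Set (ℕ → Bool)) (x : (ℕ → Bool) → G)
    (k : ℕ) (w : FreeGroup (T ⊕ Fin k)) (ρ : Fin k → (ℕ → Bool)) (c : ∀ j, G ⧸ C j) : Prop :=
  Function.Injective ρ ∧ (∀ i, ρ i ∈ B) ∧ c = MonoidHom.pi (fun j => QuotientGroup.mk' (C j)) (ev τ (x ∘ ρ) w)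

section core

variable {G T I : Type} [Group G] [TopologicalSpace G] [IsTopologicalGroup G] [LinearOrder I]
  [WellFoundedLT I] [Uncountable I] [Countable T] {τ : T → G} {L : Subgroup G}
  {C : I → Subgroup G} [hN : ∀ j, (C j).Normal] {B : Set (ℕ → Bool)} {x : (ℕ → Bool) → G}
  {R : I → (ℕ → Bool) → G}

/-- in a minimal representation all variables are essential -/
theorem essential (hG : Gen G T I τ L C B x R) {k : ℕ} {w : FreeGroup (T ⊕ Fin k)}
    {ρ : Fin k → (ℕ → Bool)} {c : ∀ j, G ⧸ C j} (h : Rp τ C B x k w ρ c)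
    (hmin : ∀ k' < k, ∀ w' ρ', ¬ Rp τ C B x k' w' ρ' c) (i : Fin k) :
    ∃ j, ∃ v : Fin k → G, (∀ a, v a ∈ L) ∧
      (ev τ v w)⁻¹ * ev τ (Function.update v i 1) w ∉ C j := by
  by_contra hc
  push Not at hc
  obtain _ | k := k
  · exact i.elim0
  obtain ⟨w', hw'⟩ := exists_subst (G := G) τ i w
  refine hmin k (Nat.lt_succ_self k) w' (fun a => ρ (i.succAbove a)) ⟨?_, fun a => h.2.1 _, ?_⟩
  · exact h.1.comp Fin.succAbove_right_injective
  · rw [h.2.2]
    refine (ff_eq C).2 fun j => ?_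
    have h1 := hw' (x ∘ ρ)
    have h2 : ev τ (x ∘ fun a => ρ (i.succAbove a)) w' =
        ev τ (Function.update (x ∘ ρ) i 1) w := h1
    rw [h2]
    exact hc j (x ∘ ρ) fun a => hG.x1 _ (h.2.1 a)

/-- **the core** -/
theorem compact_countable (hI : ∀ i : I, (Set.Iio i).Countable)
    (hcl : ∀ j, IsClosed (C j : Set G)) (hG : Gen G T I τ L C B x R)
    (hB : ∀ K : Set (ℕ → Bool), IsClosed K → ¬ K.Countable → ∃ x ∈ K, x ∉ B)
    {K : Set (∀ j, G ⧸ C j)} (hK : IsCompact K)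
    (hKH : K ⊆ (Subgroup.map (ff C) (Subgroup.closure (Set.range τ ∪ x '' B)) :
      Subgroup (∀ j, G ⧸ C j))) : K.Countable := by
  classical
  have hcl' : ∀ j, IsClosed ((C j : Subgroup G) : Set G) := hcl
  have hT2 : ∀ j, T2Space (G ⧸ C j) := fun j => by
    have := hcl j
    infer_instance
  by_contra hunc
  -- representations
  have hrep : ∀ c ∈ K, ∃ k w ρ, Rp τ C B x k w ρ c := by
    intro c hc
    obtain ⟨d, hd, rfl⟩ := hKH hc
    obtain ⟨k, w, ρ, h1, h2, h3⟩ := exists_rep τ x B hd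
    exact ⟨k, w, ρ, h1, h2, by rw [← h3]; rfl⟩
  have hmin : ∀ c ∈ K, ∃ k w ρ, Rp τ C B x k w ρ c ∧
      ∀ k' < k, ∀ w' ρ', ¬ Rp τ C B x k' w' ρ' c := by
    intro c hc
    have h1 : ∃ k, ∃ w ρ, Rp τ C B x k w ρ c := hrep c hc
    obtain ⟨w, ρ, h2⟩ := Nat.find_spec h1
    refine ⟨Nat.find h1, w, ρ, h2, ?_⟩
    intro k' hk' w' ρ' h3
    exact Nat.find_min h1 hk' ⟨w', ρ', h3⟩
  -- the sets of variables with given data
  let S : (Σ k : ℕ, (FreeGroup (T ⊕ Fin k) × Fin k × Σ m : ℕ, (Fin k → (Fin m → Bool)))) →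
      Set (ℕ → Bool) := fun d =>
    {y | ∃ c ∈ K, ∃ ρ : Fin d.1 → (ℕ → Bool), Rp τ C B x d.1 d.2.1 ρ c ∧
      (∀ k' < d.1, ∀ w' ρ', ¬ Rp τ C B x k' w' ρ' c) ∧ ρ d.2.2.1 = y ∧
      Function.Injective d.2.2.2.2 ∧ ∀ s (a : Fin d.2.2.2.1), ρ s a = d.2.2.2.2 s a}
  let Y : Set (ℕ → Bool) := {y | ∃ c ∈ K, ∃ k w, ∃ ρ : Fin k → (ℕ → Bool), Rp τ C B x k w ρ c ∧
      (∀ k' < k, ∀ w' ρ', ¬ Rp τ C B x k' w' ρ' c) ∧ ∃ i, ρ i = y}
  have hYS : Y ⊆ ⋃ d, S d := by
    rintro y ⟨c, hc, k, w, ρ, h1, h2, i, rfl⟩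
    -- a level separating the variables
    have hsep : ∃ m : ℕ, Function.Injective fun (s : Fin k) (a : Fin m) => ρ s a := by
      have h3 : ∀ p : Fin k × Fin k, ∃ n : ℕ, p.1 ≠ p.2 → ρ p.1 n ≠ ρ p.2 n := by
        intro p
        by_cases hp : p.1 = p.2
        · exact ⟨0, fun h => absurd hp h⟩
        · have h4 : ρ p.1 ≠ ρ p.2 := fun h => hp (h1.1 h)
          obtain ⟨n, hn⟩ := Function.ne_iff.1 h4
          exact ⟨n, fun _ => hn⟩
      choose n hn using h3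
      refine ⟨(Finset.univ.sup n) + 1, ?_⟩
      intro s s' hss
      by_contra hne
      have h5 : n (s, s') < (Finset.univ.sup n) + 1 :=
        Nat.lt_succ_of_le (Finset.le_sup (Finset.mem_univ _))
      exact hn (s, s') hne (congrFun hss ⟨n (s, s'), h5⟩)
    obtain ⟨m, hm⟩ := hsep
    exact Set.mem_iUnion.2 ⟨⟨k, w, i, m, fun s a => ρ s a⟩, c, hc, ρ, h1, h2, rfl, hm,
      fun s a => rfl⟩
  have hYunc : ¬ Y.Countable := by
    intro hY
    apply hunc
    have : Countable Y := hY.to_subtype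
    have h1 : K ⊆ Set.range fun q : (Σ k : ℕ, (FreeGroup (T ⊕ Fin k) × (Fin k → Y))) =>
        ff C (ev τ (x ∘ fun i => ((q.2.2 i : Y) : ℕ → Bool)) q.2.1) := by
      intro c hc
      obtain ⟨k, w, ρ, h2, h3⟩ := hmin c hc
      refine ⟨⟨k, w, fun i => ⟨ρ i, c, hc, k, w, ρ, h2, h3, i, rfl⟩⟩, ?_⟩
      exact h2.2.2.symm
    exact (Set.countable_range _).mono h1
  have hd : ∃ d, ¬ (S d).Countable := by
    by_contra hc
    push Not at hc
    exact hYunc ((Set.countable_iUnion hc).mono hYS)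
  obtain ⟨⟨k, w, i, m, cell⟩, hS⟩ := hd
  obtain ⟨S0, hS0⟩ : ∃ S0, S0 = S ⟨k, w, i, m, cell⟩ := ⟨_, rfl⟩
  rw [← hS0] at hS
  -- a countable dense subset
  obtain ⟨Z, hZc, hZd⟩ := TopologicalSpace.exists_countable_dense S0
  obtain ⟨Z', hZ'⟩ : ∃ Z' : Set (ℕ → Bool), Z' = Subtype.val '' Z := ⟨_, rfl⟩
  have hZ'c : Z'.Countable := by rw [hZ']; exact hZc.image _
  have hZ'S : Z' ⊆ S0 := by
    rw [hZ']
    rintro _ ⟨z, _, rfl⟩
    exact z.2
  have hcl2 : S0 ⊆ closure Z' := by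
    intro y hy
    have h1 : (⟨y, hy⟩ : S0) ∈ closure Z := hZd ⟨y, hy⟩
    rw [hZ']
    exact image_closure_subset_closure_image continuous_subtype_val ⟨_, h1, rfl⟩
  obtain ⟨t0, ht0, ht0B⟩ := hB (closure Z') isClosed_closure (fun h => hS (h.mono hcl2))
  obtain ⟨𝒰, h𝒰Z, h𝒰⟩ := mem_closure_iff_ultrafilter.1 ht0
  -- choice of the elements
  have hch : ∀ y ∈ Z', ∃ c ∈ K, ∃ ρ : Fin k → (ℕ → Bool), Rp τ C B x k w ρ c ∧
      (∀ k' < k, ∀ w' ρ', ¬ Rp τ C B x k' w' ρ' c) ∧ ρ i = y ∧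
      Function.Injective cell ∧ ∀ s (a : Fin m), ρ s a = cell s a := by
    intro y hy
    have h1 := hZ'S hy
    rw [hS0] at h1
    exact h1
  have hne : Nonempty (∀ j, G ⧸ C j) := ⟨1⟩
  choose! c hcK ρ hρ using hch
  obtain ⟨y0, hy0⟩ := 𝒰.nonempty_of_mem h𝒰Z
  -- the limit
  obtain ⟨z, hzK, hz⟩ := hK.ultrafilter_le_nhds (𝒰.map c) (by
    rw [Filter.le_principal_iff]
    have h1 : c ⁻¹' K ∈ 𝒰 := Filter.mem_of_superset h𝒰Z fun y hy => hcK y hy
    exact h1)
  have hz' : Tendsto c 𝒰 (𝓝 z) := hz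
  have ht : ∀ s : Fin k, ∃ t, Tendsto (fun y => ρ y s) 𝒰 (𝓝 t) := by
    intro s
    obtain ⟨t, _, ht⟩ := (isCompact_univ (X := ℕ → Bool)).ultrafilter_le_nhds
      (𝒰.map fun y => ρ y s) (by simp)
    exact ⟨t, ht⟩
  choose t ht using ht
  have hti : t i = t0 := by
    have h1 : Tendsto (fun y : ℕ → Bool => y) 𝒰 (𝓝 t0) := h𝒰
    have h2 : Tendsto (fun y => ρ y i) 𝒰 (𝓝 t0) := by
      refine h1.congr' ?_
      filter_upwards [h𝒰Z] with y hy
      exact (hρ y hy).2.2.1.symm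
    exact tendsto_nhds_unique (ht i) h2
  have hcoord : ∀ (s : Fin k) (n : ℕ), ∀ᶠ y in (𝒰 : Filter (ℕ → Bool)), ρ y s n = t s n := by
    intro s n
    have h1 : Tendsto (fun y => ρ y s n) 𝒰 (𝓝 (t s n)) :=
      ((continuous_apply n).tendsto (t s)).comp (ht s)
    rw [nhds_discrete, tendsto_pure] at h1
    exact h1
  have hlevel : ∀ (s : Fin k) (n : ℕ), ∀ᶠ y in (𝒰 : Filter (ℕ → Bool)),
      ∀ a < n, ρ y s a = t s a := by
    intro s n
    have h1 : ∀ᶠ y in (𝒰 : Filter (ℕ → Bool)), ∀ a ∈ Finset.range n, ρ y s a = t s a := by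
      rw [Filter.eventually_all_finset]
      exact fun a _ => hcoord s a
    filter_upwards [h1] with y hy a ha
    exact hy a (Finset.mem_range.2 ha)
  have hcell : ∀ s (a : Fin m), t s a = cell s a := by
    intro s a
    obtain ⟨y, h1, h2⟩ := ((hcoord s a).and h𝒰Z).exists
    rw [← h1]
    exact (hρ y h2).2.2.2.2 s a
  have htinj : Function.Injective t := by
    intro s s' hss
    apply (hρ y0 hy0).2.2.2.1
    funext a
    rw [← hcell, ← hcell, hss]
  -- bounds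
  have hx2 : ∀ q : ℕ → Bool, ∃ α : I, q ∈ B → ∀ j, α < j → (R j q)⁻¹ * x q ∈ C j := by
    intro q
    by_cases hq : q ∈ B
    · obtain ⟨α, hα⟩ := hG.x2 q hq
      exact ⟨α, fun _ => hα⟩
    · obtain ⟨α⟩ := (inferInstance : Nonempty I)
      exact ⟨α, fun h => absurd h hq⟩
  choose al hal using hx2
  obtain ⟨γ, hγ⟩ := exists_bound hI
    (S := Set.range fun q : Z' × Fin k => al (ρ q.1 q.2)) (by
      have : Countable Z' := hZ'c.to_subtype
      exact Set.countable_range _)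
  -- the coordinates of the limit
  have hzj : ∀ j, γ < j → z j = (ev τ (fun s => R j (t s)) w : G) := by
    intro j hj
    have h1 : Tendsto (fun y => c y j) 𝒰 (𝓝 (z j)) :=
      ((continuous_apply j).tendsto z).comp hz'
    obtain ⟨n, hn⟩ := hG.r2 j
    have h2 : ∀ᶠ y in (𝒰 : Filter (ℕ → Bool)),
        c y j = (ev τ (fun s => R j (t s)) w : G) := by
      have h3 : ∀ᶠ y in (𝒰 : Filter (ℕ → Bool)), ∀ s, ∀ a < n, ρ y s a = t s a := by
        rw [Filter.eventually_all]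
        exact fun s => hlevel s n
      filter_upwards [h3, h𝒰Z] with y hy hyZ
      have h4 : c y j = ((ev τ (x ∘ ρ y) w : G) : G ⧸ C j) := by
        have h5 := (hρ y hyZ).1.2.2
        exact congrFun h5 j
      rw [h4, eq_comm, QuotientGroup.eq]
      apply ev_mod τ (hN j)
      intro s
      have h6 : R j (t s) = R j (ρ y s) := (hn _ _ fun a ha => (hy s a ha)).symm
      rw [h6]
      refine hal (ρ y s) ((hρ y hyZ).1.2.1 s) j (lt_trans ?_ hj)
      exact hγ _ ⟨(⟨y, hyZ⟩, s), rfl⟩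
    have h7 : Tendsto (fun y => c y j) 𝒰 (𝓝 ((ev τ (fun s => R j (t s)) w : G) : G ⧸ C j)) := by
      refine tendsto_const_nhds.congr' ?_
      filter_upwards [h2] with y hy
      exact hy.symm
    exact tendsto_nhds_unique h1 h7
  -- a representation of the limit
  obtain ⟨k', w', ρ', h1', h2', h3'⟩ := hrep z hzK
  obtain ⟨γ', hγ'⟩ := exists_bound hI
    (S := Set.range fun q : Fin k' => al (ρ' q)) (Set.countable_range _)
  have hzj' : ∀ j, γ' < j → z j = (ev τ (fun s => R j (ρ' s)) w' : G) := by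
    intro j hj
    rw [h3']
    show ((ev τ (x ∘ ρ') w' : G) : G ⧸ C j) = _
    rw [eq_comm, QuotientGroup.eq]
    apply ev_mod τ (hN j)
    intro s
    refine hal (ρ' s) (h2' s) j (lt_trans ?_ hj)
    exact hγ' _ ⟨s, rfl⟩
  -- the word
  have hu : ∀ j, max γ γ' < j → ev τ (R j) ((rn t w)⁻¹ * rn ρ' w') ∈ C j := by
    intro j hj
    have h4 := hzj j (lt_of_le_of_lt (le_max_left _ _) hj)
    have h5 := hzj' j (lt_of_le_of_lt (le_max_right _ _) hj)
    rw [h4, QuotientGroup.eq] at h5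
    rw [map_mul, map_inv, ev_rn, ev_rn]
    exact h5
  have hv : ∀ j, ∀ v : (ℕ → Bool) → G, (∀ q, v q ∈ L) →
      ev τ v ((rn t w)⁻¹ * rn ρ' w') ∈ C j := by
    by_contra hc
    push Not at hc
    obtain ⟨j, v, hvL, hvj⟩ := hc
    obtain ⟨j', hj', h4⟩ := hG.key _ ⟨j, v, hvL, hvj⟩ (max γ γ')
    exact h4 (hu j' hj')
  obtain ⟨j, v, hvL, hvj⟩ := essential hG (hρ y0 hy0).1 (hρ y0 hy0).2.1 i
  apply hvj
  let v1 : (ℕ → Bool) → G := fun q => if h : ∃ s, t s = q then v h.choose else 1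
  let v2 : (ℕ → Bool) → G := Function.update v1 t0 1
  have hv1L : ∀ q, v1 q ∈ L := by
    intro q
    show (if h : ∃ s, t s = q then v h.choose else 1) ∈ L
    split_ifs with h
    · exact hvL _
    · exact L.one_mem
  have hv2L : ∀ q, v2 q ∈ L := by
    intro q
    by_cases hq : q = t0
    · rw [hq]
      show Function.update v1 t0 1 t0 ∈ L
      rw [Function.update_self]
      exact L.one_mem
    · show Function.update v1 t0 1 q ∈ L
      rw [Function.update_of_ne hq]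
      exact hv1L q
  have e1 : v1 ∘ t = v := by
    funext s
    have h : ∃ s', t s' = t s := ⟨s, rfl⟩
    show (if h : ∃ s', t s' = t s then v h.choose else 1) = v s
    rw [dif_pos h]
    exact congrArg v (htinj h.choose_spec)
  have e2 : v2 ∘ t = Function.update v i 1 := by
    funext s
    by_cases hs : s = i
    · rw [hs, Function.update_self]
      show Function.update v1 t0 1 (t i) = 1
      rw [hti, Function.update_self]
    · rw [Function.update_of_ne hs]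
      have h4 : t s ≠ t0 := by
        rw [← hti]
        exact fun h => hs (htinj h)
      show Function.update v1 t0 1 (t s) = v s
      rw [Function.update_of_ne h4]
      exact congrFun e1 s
  have e3 : v2 ∘ ρ' = v1 ∘ ρ' := by
    funext s
    have h4 : ρ' s ≠ t0 := fun h => ht0B (h ▸ h2' s)
    show Function.update v1 t0 1 (ρ' s) = v1 (ρ' s)
    rw [Function.update_of_ne h4]
  have h5 := hv j v1 hv1L
  have h6 := hv j v2 hv2L
  rw [map_mul, map_inv, ev_rn, ev_rn] at h5 h6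
  rw [e1] at h5
  rw [e2, e3] at h6
  have h7 := (C j).mul_mem h5 ((C j).inv_mem h6)
  rw [mul_inv_rev, inv_inv] at h7
  have h8 : (ev τ v w)⁻¹ * ev τ (v1 ∘ ρ') w' * ((ev τ (v1 ∘ ρ') w')⁻¹ *
      ev τ (Function.update v i 1) w) = (ev τ v w)⁻¹ * ev τ (Function.update v i 1) w := by group
  rw [h8] at h7
  exact h7

end core

end Pool.Agent.H57C
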