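import Pool.Agent.H57C.Stm

/-!
# Project CG (helper57), piece INV (helper94): invariant complements for real representations of
compact groups (average a projection over the Haar measure).
-/

set_option autoImplicit false

namespace Pool.Agent.H57C

open MeasureTheory Topology

theorem s_inv : S_INV := by
  intro G _ _ _ _ _ V _ _ _ ρ hρ W hW
  letI : MeasurableSpace G := borel G
  haveI : BorelSpace G := ⟨rfl⟩
  let K₀ : TopologicalSpace.PositiveCompacts G := ⊤
  let μ : Measure G := Measure.haarMeasure K₀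
  haveI hprob : IsProbabilityMeasure μ := ⟨by
    have := Measure.haarMeasure_self (K₀ := K₀)
    simpa [K₀] using this⟩
  -- the projection
  obtain ⟨W₀, hW₀⟩ := Submodule.exists_isCompl W
  let P₀ : V →ₗ[ℝ] V := W.subtype ∘ₗ (Submodule.linearProjOfIsCompl W W₀ hW₀)
  let P : V →L[ℝ] V := LinearMap.toContinuousLinearMap P₀
  have hPmem : ∀ v, P v ∈ W := fun v => by
    change ((Submodule.linearProjOfIsCompl W W₀ hW₀) v : V) ∈ W
    exact Submodule.coe_mem _
  have hPid : ∀ w ∈ W, P w = w := fun w hw => by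
    change ((Submodule.linearProjOfIsCompl W W₀ hW₀) w : V) = w
    have := Submodule.linearProjOfIsCompl_apply_left hW₀ ⟨w, hw⟩
    exact congrArg Subtype.val this
  have hinv : ∀ g v, ρ g (ρ g⁻¹ v) = v := fun g v => by
    have : ρ g * ρ g⁻¹ = 1 := by rw [← map_mul]; simp
    exact congrArg (fun T : V →L[ℝ] V => T v) this
  let F : G → V →L[ℝ] V := fun g => (ρ g).comp (P.comp (ρ g⁻¹))
  have hFc : Continuous F := by
    refine hρ.clm_comp (continuous_const.clm_comp (hρ.comp continuous_inv))
  have hFi : Integrable F μ :=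
    hFc.integrable_of_hasCompactSupport (HasCompactSupport.of_compactSpace F)
  let Q : V →L[ℝ] V := ∫ g, F g ∂μ
  have hQ : ∀ v, Q v = ∫ g, F g v ∂μ := fun v => ContinuousLinearMap.integral_apply hFi v
  have hFvi : ∀ v, Integrable (fun g => F g v) μ := fun v => by
    have : Continuous fun g => F g v := hFc.clm_apply continuous_const
    exact this.integrable_of_hasCompactSupport (HasCompactSupport.of_compactSpace _)
  have hPQ : ∀ v, P (Q v) = Q v := fun v => by
    rw [hQ, ← ContinuousLinearMap.integral_comp_comm P (hFvi v)]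
    refine integral_congr_ae (Filter.Eventually.of_forall fun g => ?_)
    exact hPid _ (hW g _ (hPmem _))
  have hQmem : ∀ v, Q v ∈ W := fun v => by
    rw [← hPQ]; exact hPmem _
  have hQid : ∀ w ∈ W, Q w = w := fun w hw => by
    rw [hQ]
    have : ∀ g, F g w = w := fun g => by
      change ρ g (P (ρ g⁻¹ w)) = w
      rw [hPid _ (hW g⁻¹ w hw), hinv]
    simp [this]
  have hcomm : ∀ h v, ρ h (Q v) = Q (ρ h v) := fun h v => by
    rw [hQ, hQ, ← ContinuousLinearMap.integral_comp_comm (ρ h) (hFvi v)]
    have e : ∀ g, ρ h (F g v) = F (h * g) (ρ h v) := fun g => by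
      change ρ h (ρ g (P (ρ g⁻¹ v))) = ρ (h * g) (P (ρ (h * g)⁻¹ (ρ h v)))
      have e1 : ρ (h * g)⁻¹ (ρ h v) = ρ g⁻¹ v := by
        have : ρ (h * g)⁻¹ * ρ h = ρ g⁻¹ := by rw [← map_mul]; congr 1; group
        exact congrArg (fun T : V →L[ℝ] V => T v) this
      rw [e1, map_mul]
      rfl
    simp_rw [e]
    exact integral_mul_left_eq_self (fun g => F g (ρ h v)) h
  refine ⟨LinearMap.ker (Q : V →ₗ[ℝ] V), ?_, ?_⟩
  · have : IsCompl W (LinearMap.ker ((Q : V →ₗ[ℝ] V).codRestrict W hQmem)) :=
      LinearMap.isCompl_of_proj fun w => Subtype.ext (hQid w w.2)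
    simpa [LinearMap.ker_codRestrict] using this
  · intro g w hw
    rw [LinearMap.mem_ker] at hw ⊢
    change Q (ρ g w) = 0
    have hw' : Q w = 0 := hw
    rw [← hcomm, hw', map_zero]

end Pool.Agent.H57C
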