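import Pool.Agent.H57C.PartTwo

/-!
# Part (2): assembly (helper57)
-/

set_option autoImplicit false
set_option linter.unusedSectionVars false

namespace Pool.Agent.H57C

open Topology Cardinal Set Filter

section

variable {G I T : Type} [Group G] [TopologicalSpace G] [IsTopologicalGroup G]
  [CompactSpace G] [T2Space G] [LinearOrder I] [WellFoundedLT I] [Uncountable I] [Countable T]

/-- restriction to a cocountable set of indices -/
theorem exists_sub (τ : T → G) (L : Subgroup G)
    (C : I → Subgroup G) (hInd : Ind G L I C) :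
    ∃ I1 : Set I, Uncountable I1 ∧ Ind G L I1 (fun j => C j.1) ∧
      ∀ p : Pat T, Js τ L (fun j : I1 => C j.1) p = ∅ ∨
        ¬ (Js τ L (fun j : I1 => C j.1) p).Countable := by
  classical
  let bad : Set I := ⋃ p : {p : Pat T // (Js τ L C p).Countable}, Js τ L C p.1
  have hbad : bad.Countable := Set.countable_iUnion fun p => p.2
  have hI1 : ¬ (badᶜ).Countable := by
    intro h
    have h1 : (Set.univ : Set I).Countable := by
      rw [← Set.union_compl_self bad]
      exact hbad.union h
    exact Set.not_countable_univ h1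
  refine ⟨badᶜ, ?_, ?_, ?_⟩
  · by_contra hc
    rw [not_uncountable_iff] at hc
    exact hI1 (Set.countable_coe_iff.1 hc)
  · refine ⟨hInd.normL, hInd.openL, fun i => hInd.norm i, fun i => hInd.closed i,
      fun i => hInd.lt i, fun i => hInd.metr i, ?_⟩
    intro i F hF
    have h1 := hInd.indep i.1 (F.image Subtype.val) (by
      intro j hj
      obtain ⟨j', hj', rfl⟩ := Finset.mem_image.1 hj
      exact hF j' hj')
    refine h1.trans (sup_le_sup_left ?_ _)
    refine le_iInf₂ fun j hj => ?_
    exact iInf₂_le j.1 (Finset.mem_image_of_mem _ hj)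
  · intro p
    by_cases hp : (Js τ L C p).Countable
    · left
      rw [Set.eq_empty_iff_forall_notMem]
      rintro ⟨j, hj⟩ hj'
      exact hj (Set.mem_iUnion.2 ⟨⟨p, hp⟩, hj'⟩)
    · right
      intro h
      apply hp
      have h1 : Js τ L C p ⊆ (Subtype.val '' (Js τ L (fun j : (badᶜ : Set I) => C j.1) p)) ∪ bad := by
        intro j hj
        by_cases hjb : j ∈ bad
        · exact Or.inr hjb
        · exact Or.inl ⟨⟨j, hjb⟩, hj, rfl⟩
      exact ((h.image _).union hbad).mono h1

end

/-- **Part (2).** -/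
theorem part_two (G : Type) [Group G] [TopologicalSpace G] [IsTopologicalGroup G]
    [CompactSpace G] [T2Space G] (h : HasInd G) :
    ∃ D : Subgroup G, GdDense D ∧ ¬ ProjWCompact D := by
  classical
  obtain ⟨L, I, iI, C0, hU, hW, hI0, hInd0⟩ := h
  have hLn := hInd0.normL
  have hfin : Finite (G ⧸ L) := Subgroup.quotient_finite_of_isOpen L hInd0.openL
  let τ : G ⧸ L → G := Quotient.out
  have hτ : ∀ g : G, ∃ t, (τ t)⁻¹ * g ∈ L := by
    intro g
    refine ⟨(g : G ⧸ L), ?_⟩
    rw [← QuotientGroup.eq]
    exact QuotientGroup.out_eq' _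
  obtain ⟨I1, hU1, hInd, hJ⟩ := exists_sub τ L C0 hInd0
  have hI : ∀ i : I1, (Set.Iio i).Countable := by
    intro i
    have h1 : Set.Iio i ⊆ Subtype.val ⁻¹' Set.Iio (i : I) := fun j hj => hj
    exact ((hI0 i.1).preimage Subtype.val_injective).mono h1
  obtain ⟨B, hBc, hB⟩ := s_ber
  have hWF : WellFoundedLT I1 := inferInstance
  obtain ⟨x, R, hG⟩ := exists_gen s_ref s_surj hI τ L (fun j : I1 => C0 j.1) hInd hJ B hBc
  have hN : ∀ j : I1, (C0 j.1).Normal := hInd.norm
  obtain ⟨C, hC⟩ : ∃ C : I1 → Subgroup G, C = fun j => C0 j.1 := ⟨_, rfl⟩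
  have hN' : ∀ j : I1, (C j).Normal := by rw [hC]; exact hN
  rw [← hC] at hInd hJ hG
  have hT2 : ∀ j, T2Space (G ⧸ C j) := fun j => by
    have := hInd.closed j
    infer_instance
  let D0 := Subgroup.closure (Set.range τ ∪ x '' B)
  let H := Subgroup.map (ff C) D0
  refine ⟨Subgroup.comap (ff C) H, gd_dense hI hInd hG hτ, ?_⟩
  intro hproj
  have h1 := hproj H ((ff C).subgroupComap H) (by
      exact ((ff_cont C).comp continuous_subtype_val).subtype_mk _) (by
      rintro ⟨h, hh⟩
      obtain ⟨d, hd, rfl⟩ := hh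
      exact ⟨⟨d, ⟨d, hd, rfl⟩⟩, rfl⟩)
  obtain ⟨K, hK, hKw⟩ := h1
  apply not_second hI hInd hG
  apply second_of_weight
  show weight H ≤ ℵ₀
  rw [← hKw]
  have hK' : IsCompact (Subtype.val '' K : Set (∀ j, G ⧸ C j)) := hK.image continuous_subtype_val
  have hKc : (Subtype.val '' K : Set (∀ j, G ⧸ C j)).Countable := by
    refine compact_countable hI hInd.closed hG hB hK' ?_
    rintro _ ⟨k, _, rfl⟩
    exact k.2
  have h2 := second_of_countable hInd.closed hInd.metr hK' hKc
  have h3 : SecondCountableTopology K := by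
    let e : K → (Subtype.val '' K : Set (∀ j, G ⧸ C j)) := fun k => ⟨k.1.1, ⟨k.1, k.2, rfl⟩⟩
    have he : IsEmbedding e := by
      have h4 : IsEmbedding (Subtype.val ∘ e : K → (∀ j, G ⧸ C j)) := by
        have h5 : IsEmbedding (Subtype.val : K → H) := IsEmbedding.subtypeVal
        have h6 : IsEmbedding (Subtype.val : H → (∀ j, G ⧸ C j)) := IsEmbedding.subtypeVal
        exact h6.comp h5
      exact IsEmbedding.of_comp ((continuous_subtype_val.comp continuous_subtype_val).subtype_mk _)
        continuous_subtype_val h4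
    exact he.secondCountableTopology
  exact weight_le_of_second

end Pool.Agent.H57C
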