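import Pool.Agent.H57C.Stm

/-!
# Project CG, piece SIMP (helper75): a compact group acting nontrivially on a Lie algebra has a
quotient with a simple identity component
-/

set_option autoImplicit false

namespace Pool.Agent.H57C.Simp

open Topology Set Filter
open Pool.Agent.E8helper46.FL

section

variable {G : Type} [Group G] [TopologicalSpace G] [IsTopologicalGroup G] [CompactSpace G]
  [T2Space G]
variable {E : Type} [NormedRing E] [NormedAlgebra ℝ E] [FiniteDimensional ℝ E] [CompleteSpace E]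

/-- the action by conjugation -/
noncomputable def cj (ρ : G →* Eˣ) : G →* (E →L[ℝ] E) where
  toFun g := (ContinuousLinearMap.mul ℝ E (ρ g : E)).comp
    ((ContinuousLinearMap.mul ℝ E).flip (↑(ρ g)⁻¹ : E))
  map_one' := by ext; simp
  map_mul' g h := by ext; simp [mul_assoc]

omit [TopologicalSpace G] [IsTopologicalGroup G] [CompactSpace G] [T2Space G]
  [FiniteDimensional ℝ E] [CompleteSpace E] in
theorem cj_apply (ρ : G →* Eˣ) (g : G) (X : E) : cj ρ g X = ρ g * X * ↑(ρ g)⁻¹ := by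
  simp [cj, mul_assoc]

omit [IsTopologicalGroup G] [CompactSpace G] [T2Space G]
  [FiniteDimensional ℝ E] [CompleteSpace E] in
theorem cj_cont (ρ : G →* Eˣ) (h : Continuous ρ) : Continuous (cj ρ) := by
  have h1 : Continuous fun g => (ρ g : E) := Units.continuous_val.comp h
  have h2 : Continuous fun g => (↑(ρ g)⁻¹ : E) := Units.continuous_val.comp h.inv
  exact ((ContinuousLinearMap.mul ℝ E).continuous.comp h1).clm_comp
    ((ContinuousLinearMap.mul ℝ E).flip.continuous.comp h2)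

omit [TopologicalSpace G] [IsTopologicalGroup G] [CompactSpace G] [T2Space G]
  [FiniteDimensional ℝ E] [CompleteSpace E] in
theorem cj_fix (ρ : G →* Eˣ) (g : G) (X : E) :
    cj ρ g X = X ↔ (ρ g : E) * X = X * (ρ g : E) := by
  rw [cj_apply, Units.mul_inv_eq_iff_eq_mul]

/-- invariant subspaces -/
def Iv (ρ : G →* Eˣ) (W : Submodule ℝ E) : Prop := ∀ g, ∀ w ∈ W, cj ρ g w ∈ W

omit [IsTopologicalGroup G] [T2Space G] [NormedAlgebra ℝ E]
  [FiniteDimensional ℝ E] [CompleteSpace E] in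
theorem range_closed (ρ : G →* Eˣ) (h : Continuous ρ) : IsClosed (ρ.range : Set Eˣ) := by
  rw [MonoidHom.coe_range]
  exact (isCompact_range h).isClosed

omit [TopologicalSpace G] [IsTopologicalGroup G] [CompactSpace G] [T2Space G] in
theorem br (ρ : G →* Eˣ) (hD : IsClosed (ρ.range : Set Eˣ)) (W : Submodule ℝ E) (hW : Iv ρ W)
    (X Y : E) (hX : X ∈ lieAlg ρ.range hD) (hY : Y ∈ W) : X * Y - Y * X ∈ W := by
  refine bracket_mem W W.closed_of_finiteDimensional X Y hY (Eventually.of_forall fun t => ?_)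
  obtain ⟨g, hg⟩ := hX t
  have h1 := hW g Y hY
  rw [cj_apply, hg] at h1
  exact h1

omit [CompactSpace G] [T2Space G] in
theorem open_of (ρ : G →* Eˣ) (h : Continuous ρ) (hD : IsClosed (ρ.range : Set Eˣ))
    (S : Subgroup G) (hS : ∀ g, ∀ Z ∈ lieAlg ρ.range hD, ρ g = ex Z → g ∈ S) :
    IsOpen (S : Set G) := by
  refine Subgroup.isOpen_of_mem_nhds S (g := 1) ?_
  have h1 := near_one ρ.range hD
  have h2 : Tendsto ρ (𝓝 1) (𝓝 1) := by
    have := h.tendsto 1
    rwa [map_one] at this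
  filter_upwards [h2.eventually h1] with g hg
  obtain ⟨X, hX, e⟩ := hg ⟨g, rfl⟩
  exact hS g X hX e

/-- the centralizer of a subspace -/
def cz (ρ : G →* Eˣ) (W : Submodule ℝ E) : Subgroup G where
  carrier := {g | ∀ X ∈ W, cj ρ g X = X}
  one_mem' := by intro X _; simp
  mul_mem' := by
    intro g h hg hh X hX
    rw [map_mul, mul_apply_eq_comp, hh X hX, hg X hX]
  inv_mem' := by
    intro g hg X hX
    have h1 : cj ρ g⁻¹ (cj ρ g X) = X := by
      rw [← mul_apply_eq_comp, ← map_mul]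
      simp
    rwa [hg X hX] at h1

omit [TopologicalSpace G] [IsTopologicalGroup G] [CompactSpace G] [T2Space G]
  [FiniteDimensional ℝ E] [CompleteSpace E] in
theorem mem_cz {ρ : G →* Eˣ} {W : Submodule ℝ E} {g : G} :
    g ∈ cz ρ W ↔ ∀ X ∈ W, cj ρ g X = X := Iff.rfl

omit [TopologicalSpace G] [IsTopologicalGroup G] [CompactSpace G] [T2Space G]
  [FiniteDimensional ℝ E] [CompleteSpace E] in
theorem cz_normal {ρ : G →* Eˣ} {W : Submodule ℝ E} (hW : Iv ρ W) : (cz ρ W).Normal := by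
  constructor
  intro n hn g X hX
  rw [map_mul, map_mul, mul_apply_eq_comp, mul_apply_eq_comp,
    hn _ (hW g⁻¹ X hX), ← mul_apply_eq_comp, ← map_mul]
  simp

omit [IsTopologicalGroup G] [CompactSpace G] [T2Space G]
  [FiniteDimensional ℝ E] [CompleteSpace E] in
theorem cz_closed {ρ : G →* Eˣ} (h : Continuous ρ) (W : Submodule ℝ E) :
    IsClosed (cz ρ W : Set G) := by
  have h1 : (cz ρ W : Set G) = ⋂ X ∈ W, {g | cj ρ g X = X} := by
    ext g
    simp [mem_cz]
  rw [h1]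
  refine isClosed_biInter fun X _ => isClosed_eq ?_ continuous_const
  exact (cj_cont ρ h).clm_apply continuous_const

omit [IsTopologicalGroup G] [T2Space G] [CompleteSpace E] in
theorem cz_sc {ρ : G →* Eˣ} (h : Continuous ρ) (W : Submodule ℝ E) :
    SecondCountableTopology (G ⧸ cz ρ W) := by
  obtain ⟨f, hf⟩ : ∃ f : G → (W →L[ℝ] E), f = fun g => (cj ρ g).comp W.subtypeL := ⟨_, rfl⟩
  have hfc : Continuous f := by
    rw [hf]
    exact (cj_cont ρ h).clm_comp continuous_const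
  have hfi : ∀ x y, f x = f y ↔ x⁻¹ * y ∈ cz ρ W := by
    intro x y
    have h1 : ∀ X, cj ρ x⁻¹ (cj ρ x X) = X := by
      intro X
      rw [← mul_apply_eq_comp, ← map_mul]
      simp
    have h2 : ∀ X, cj ρ x (cj ρ x⁻¹ X) = X := by
      intro X
      rw [← mul_apply_eq_comp, ← map_mul]
      simp
    constructor
    · intro he X hX
      have h3 : cj ρ x X = cj ρ y X := by
        have := congrArg (fun l : W →L[ℝ] E => l ⟨X, hX⟩) he
        simpa [hf] using this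
      rw [map_mul, mul_apply_eq_comp, ← h3, h1]
    · intro he
      rw [hf]
      ext ⟨X, hX⟩
      have h3 := he X hX
      rw [map_mul, mul_apply_eq_comp] at h3
      have h4 := congrArg (cj ρ x) h3
      rw [h2] at h4
      simpa using h4.symm
  obtain ⟨q, hq⟩ : ∃ q : G ⧸ cz ρ W → (W →L[ℝ] E), ∀ g : G, q (g : G ⧸ cz ρ W) = f g := by
    refine ⟨Quotient.lift f ?_, fun g => rfl⟩
    intro x y hxy
    exact (hfi x y).2 (QuotientGroup.leftRel_apply.1 hxy)
  have hqc : Continuous q := by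
    refine (QuotientGroup.isQuotientMap_mk (N := cz ρ W)).continuous_iff.2 ?_
    exact hfc.congr fun g => (hq g).symm
  have hqi : Function.Injective q := by
    intro x y
    obtain ⟨x, rfl⟩ := QuotientGroup.mk_surjective x
    obtain ⟨y, rfl⟩ := QuotientGroup.mk_surjective y
    intro hxy
    rw [hq, hq] at hxy
    exact QuotientGroup.eq.2 ((hfi x y).1 hxy)
  have : SecondCountableTopology (W →L[ℝ] E) := by
    have := FiniteDimensional.proper ℝ (W →L[ℝ] E)
    infer_instance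
  exact (hqc.isClosedEmbedding hqi).isInducing.secondCountableTopology

/-- a minimal invariant subspace of the Lie algebra on which the subgroup acts nontrivially -/
theorem exists_min (hINV : S_INV) (ρ : G →* Eˣ) (h : Continuous ρ)
    (hD : IsClosed (ρ.range : Set Eˣ)) (M : Subgroup G)
    (hM : ∃ b ∈ M, ∃ X ∈ lieAlg ρ.range hD, cj ρ b X ≠ X) :
    ∃ m : Submodule ℝ E, Iv ρ m ∧ m ≤ lieAlg ρ.range hD ∧ (∃ b ∈ M, ∃ X ∈ m, cj ρ b X ≠ X) ∧
      ∀ W : Submodule ℝ E, Iv ρ W → W ≤ m → W = ⊥ ∨ W = m := by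
  classical
  obtain ⟨P, hP⟩ : ∃ P : Submodule ℝ E → Prop, P = fun W => Iv ρ W ∧ W ≤ lieAlg ρ.range hD ∧
      ∃ b ∈ M, ∃ X ∈ W, cj ρ b X ≠ X := ⟨_, rfl⟩
  have hP0 : ∃ n : ℕ, ∃ W, P W ∧ Module.finrank ℝ W = n := by
    refine ⟨_, lieAlg ρ.range hD, ?_, rfl⟩
    rw [hP]
    refine ⟨?_, le_rfl, hM⟩
    intro g w hw
    rw [cj_apply]
    exact conj_mem_lieAlg hw ⟨g, rfl⟩
  obtain ⟨m, hm, hmr⟩ := Nat.find_spec hP0
  have hmin : ∀ W, P W → Module.finrank ℝ m ≤ Module.finrank ℝ W := by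
    intro W hW
    rw [hmr]
    exact Nat.find_min' hP0 ⟨W, hW, rfl⟩
  rw [hP] at hm
  obtain ⟨hm1, hm2, b, hb, X, hX, hbX⟩ := hm
  refine ⟨m, hm1, hm2, ⟨b, hb, X, hX, hbX⟩, ?_⟩
  intro W hW hWm
  by_contra hcon
  push Not at hcon
  obtain ⟨hW0, hWne⟩ := hcon
  obtain ⟨W', hc, hW'⟩ := hINV G E (cj ρ) (cj_cont ρ h) W hW
  -- the action is trivial on an invariant proper subspace
  have htriv : ∀ U : Submodule ℝ E, Iv ρ U → U < m → ∀ b ∈ M, ∀ X ∈ U, cj ρ b X = X := by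
    intro U hU hUm b hb X hX
    by_contra hne
    have h1 := hmin U (by
      rw [hP]
      exact ⟨hU, hUm.le.trans hm2, b, hb, X, hX, hne⟩)
    exact absurd (Submodule.finrank_lt_finrank_of_lt hUm) (not_lt.2 h1)
  have hWlt : W < m := lt_of_le_of_ne hWm hWne
  have hIv : Iv ρ (m ⊓ W') := fun g w hw => ⟨hm1 g w hw.1, hW' g w hw.2⟩
  have hlt : m ⊓ W' < m := by
    refine lt_of_le_of_ne inf_le_left ?_
    intro he
    apply hW0
    have h1 : W ≤ W ⊓ W' := le_inf le_rfl (hWm.trans (inf_eq_left.1 he))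
    rw [hc.inf_eq_bot] at h1
    exact le_bot_iff.1 h1
  have hsum : X ∈ W ⊔ (m ⊓ W') := by
    have h1 : X ∈ W ⊔ W' := by
      rw [hc.sup_eq_top]
      trivial
    obtain ⟨x, hx, y, hy, rfl⟩ := Submodule.mem_sup.1 h1
    refine Submodule.add_mem_sup hx ⟨?_, hy⟩
    have h2 := m.sub_mem hX (hWm hx)
    rwa [add_sub_cancel_left] at h2
  obtain ⟨x, hx, y, hy, rfl⟩ := Submodule.mem_sup.1 hsum
  apply hbX
  rw [map_add, htriv W hW hWlt b hb x hx, htriv _ hIv hlt b hb y hy]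

end

theorem s_simp : S_SIMP := by
  intro hINV hOPEN G _ _ _ _ _ N hN hA
  obtain ⟨E, _, _, _, _, ρ, hρ, a, ha, X₀, hX₀, hne⟩ := hA
  have hD := range_closed ρ hρ
  obtain ⟨m, hm, hm𝔤, ⟨b, hb, X₁, hX₁, hbX⟩, hirr⟩ := exists_min hINV ρ hρ hD
    (N ⊓ sInf (ON G)) ⟨a, ha, X₀, hX₀, fun h => hne ((cj_fix ρ a X₀).1 h)⟩
  obtain ⟨m', hc, hm'⟩ := hINV G E (cj ρ) (cj_cont ρ hρ) m hm
  have hm' : Iv ρ m' := hm'
  have h𝔤 : Iv ρ (lieAlg ρ.range hD) := by
    intro g w hw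
    rw [cj_apply]
    exact conj_mem_lieAlg hw ⟨g, rfl⟩
  -- the complement commutes with `m`
  have hcomm : ∀ Z ∈ lieAlg ρ.range hD, Z ∈ m' → ∀ X ∈ m, Z * X = X * Z := by
    intro Z hZ hZ' X hX
    have h1 : Z * X - X * Z ∈ m := br ρ hD m hm Z X hZ hX
    have h2 : X * Z - Z * X ∈ m' := br ρ hD m' hm' X Z (hm𝔤 hX) hZ'
    have h3 : Z * X - X * Z ∈ m ⊓ m' := ⟨h1, by
      have := m'.neg_mem h2
      rwa [neg_sub] at this⟩
    rw [hc.inf_eq_bot, Submodule.mem_bot] at h3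
    exact sub_eq_zero.1 h3
  have hdec : ∀ Z ∈ lieAlg ρ.range hD, ∃ X ∈ m, ∃ Z' ∈ lieAlg ρ.range hD, Z' ∈ m' ∧
      Z = X + Z' := by
    intro Z hZ
    have h1 : Z ∈ m ⊔ m' := by
      rw [hc.sup_eq_top]
      trivial
    obtain ⟨X, hX, Z', hZ', rfl⟩ := Submodule.mem_sup.1 h1
    refine ⟨X, hX, Z', ?_, hZ', rfl⟩
    have h2 := (lieAlg ρ.range hD).sub_mem hZ (hm𝔤 hX)
    rwa [add_sub_cancel_left] at h2
  -- elements commuting with `m` act trivially
  have hex : ∀ (Z : E) (g : G), ρ g = ex Z → (∀ X ∈ m, Z * X = X * Z) → g ∈ cz ρ m := by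
    intro Z g hg h X hX
    rw [cj_fix, hg]
    have h1 : Commute (ex Z : E) X := by
      let _ := NormedAlgebra.restrictScalars ℚ ℝ E
      rw [ex_val]
      exact Commute.exp_left (h X hX)
    exact h1
  have hbC : b ∉ cz ρ m := fun h => hbX (h X₁ hX₁)
  -- the center of `m` is trivial
  have hcenter : ∀ Z ∈ m, (∀ X ∈ m, Z * X = X * Z) → Z = 0 := by
    obtain ⟨z, hz⟩ : ∃ z : Submodule ℝ E, ∀ Z, Z ∈ z ↔ Z ∈ m ∧ ∀ X ∈ m, Z * X = X * Z := by
      refine ⟨⟨⟨⟨{Z | Z ∈ m ∧ ∀ X ∈ m, Z * X = X * Z}, ?_⟩, ?_⟩, ?_⟩, fun Z => Iff.rfl⟩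
      · rintro x y ⟨hx, hx'⟩ ⟨hy, hy'⟩
        refine ⟨m.add_mem hx hy, fun X hX => ?_⟩
        rw [add_mul, mul_add, hx' X hX, hy' X hX]
      · refine ⟨m.zero_mem, fun X hX => ?_⟩
        rw [zero_mul, mul_zero]
      · rintro c x ⟨hx, hx'⟩
        refine ⟨m.smul_mem c hx, fun X hX => ?_⟩
        rw [smul_mul_assoc, hx' X hX, mul_smul_comm]
    have hziv : Iv ρ z := by
      intro g Z hZ
      rw [hz] at hZ ⊢
      refine ⟨hm g Z hZ.1, fun X hX => ?_⟩
      have h1 := hZ.2 _ (hm g⁻¹ X hX)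
      rw [cj_apply] at h1 ⊢
      rw [map_inv, inv_inv] at h1
      have h2 : (ρ g : E) * Z * ↑(ρ g)⁻¹ * X =
          ρ g * (Z * (↑(ρ g)⁻¹ * X * ρ g)) * ↑(ρ g)⁻¹ := by
        simp [mul_assoc]
      have h3 : X * ((ρ g : E) * Z * ↑(ρ g)⁻¹) =
          ρ g * ((↑(ρ g)⁻¹ * X * ρ g) * Z) * ↑(ρ g)⁻¹ := by
        simp [mul_assoc]
      rw [h2, h3, h1]
    rcases hirr z hziv (fun Z hZ => ((hz Z).1 hZ).1) with h0 | h0
    · intro Z hZ hZ'
      have : Z ∈ z := (hz Z).2 ⟨hZ, hZ'⟩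
      rwa [h0, Submodule.mem_bot] at this
    · exfalso
      have hop : IsOpen (cz ρ m : Set G) := by
        refine open_of ρ hρ hD _ fun g Z hZ hg => hex Z g hg fun X hX => ?_
        obtain ⟨X', hX', Z', hZ', hZm, rfl⟩ := hdec Z hZ
        rw [add_mul, mul_add, hcomm Z' hZ' hZm X hX]
        rw [← h0] at hX'
        rw [((hz X').1 hX').2 X hX]
      exact hbC ((sInf_le ⟨cz_normal hm, hop⟩ : sInf (ON G) ≤ cz ρ m) hb.2)
  have hkerC : ρ.ker ≤ cz ρ m := by
    intro g hg X hX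
    rw [cj_fix, MonoidHom.mem_ker.1 hg, Units.val_one, one_mul, mul_one]
  refine ⟨cz ρ m, cz_normal hm, cz_closed hρ m, cz_sc hρ m, ?_, fun h => hbC (h hb), ?_⟩
  · exact Subgroup.isOpen_mono (sup_le_sup_left hkerC _) (hOPEN G E ρ hρ)
  · intro Y hYn hYc hCY hYL
    have hkerY : ρ.ker ≤ Y := hkerC.trans hCY.le
    obtain ⟨y, hyY, hyC⟩ := SetLike.exists_of_lt hCY
    -- the image of `Y`
    obtain ⟨D', hD'⟩ : ∃ D' : Subgroup Eˣ, D' = Y.map ρ := ⟨_, rfl⟩
    have hD'c : IsClosed (D' : Set Eˣ) := by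
      rw [hD', Subgroup.coe_map]
      exact (hYc.isCompact.image hρ).isClosed
    have hYD : ∀ g, ρ g ∈ D' → g ∈ Y := by
      intro g hg
      rw [hD'] at hg
      obtain ⟨y', hy', he⟩ := hg
      have h1 : y'⁻¹ * g ∈ ρ.ker := by
        rw [MonoidHom.mem_ker, map_mul, map_inv, he, inv_mul_cancel]
      have h2 := Y.mul_mem hy' (hkerY h1)
      rwa [mul_inv_cancel_left] at h2
    have hDY : ∀ g ∈ Y, ρ g ∈ D' := by
      intro g hg
      rw [hD']
      exact ⟨g, hg, rfl⟩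
    have hinv : Iv ρ (m ⊓ lieAlg D' hD'c) := by
      rintro g w ⟨hw1, hw2⟩
      refine ⟨hm g w hw1, ?_⟩
      intro t
      have h1 : t • cj ρ g w = (ρ g : E) * (t • w) * ↑(ρ g)⁻¹ := by
        rw [cj_apply, mul_smul_comm, smul_mul_assoc]
      rw [h1, ex_conj]
      obtain ⟨y', hy', he⟩ : ∃ y' ∈ Y, ρ y' = ex (t • w) := by
        have := hw2 t
        rw [hD'] at this
        obtain ⟨y', hy', he⟩ := this
        exact ⟨y', hy', he⟩
      rw [← he, ← map_inv, ← map_mul, ← map_mul]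
      exact hDY _ (hYn.conj_mem y' hy' g)
    have hne0 : m ⊓ lieAlg D' hD'c ≠ ⊥ := by
      obtain ⟨X, hX, hyX⟩ : ∃ X ∈ m, cj ρ y X ≠ X := by
        by_contra hcon
        push Not at hcon
        exact hyC hcon
      intro h0
      have hmem : X - cj ρ y X ∈ m ⊓ lieAlg D' hD'c := by
        refine ⟨m.sub_mem hX (hm y X hX), ?_⟩
        obtain ⟨Z, hZ, hl⟩ := trotter_log X (-cj ρ y X)
        rw [← sub_eq_add_neg] at hl
        refine limit_power D' hD'c _ Z (fun n => (n : ℝ) + 1) ?_ ?_ hl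
        · exact tendsto_atTop_add_const_right _ _ tendsto_natCast_atTop_atTop
        · filter_upwards [hZ] with n hn
          rw [hn]
          have h1 : (1 / ((n : ℝ) + 1)) • (-cj ρ y X) =
              (ρ y : E) * (-((1 / ((n : ℝ) + 1)) • X)) * ↑(ρ y)⁻¹ := by
            rw [cj_apply, smul_neg, mul_neg, neg_mul, mul_smul_comm, smul_mul_assoc]
          rw [h1, ex_conj, ex_neg]
          obtain ⟨g, hg⟩ := hm𝔤 hX (1 / ((n : ℝ) + 1))
          rw [← hg, ← map_inv, ← map_inv, ← map_mul, ← map_mul, ← map_mul]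
          apply hDY
          have h2 := Y.mul_mem (hYn.conj_mem y hyY g) (Y.inv_mem hyY)
          have h3 : g * y * g⁻¹ * y⁻¹ = g * (y * g⁻¹ * y⁻¹) := by group
          rwa [h3] at h2
      rw [h0, Submodule.mem_bot] at hmem
      exact hyX (sub_eq_zero.1 hmem).symm
    have hmD : m ≤ lieAlg D' hD'c := by
      rcases hirr _ hinv inf_le_left with h1 | h1
      · exact absurd h1 hne0
      · exact inf_eq_left.1 h1
    have hop : IsOpen (Y : Set G) := by
      refine open_of ρ hρ hD _ fun g Z hZ hg => ?_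
      obtain ⟨X', hX', Z', hZ', hZm, rfl⟩ := hdec Z hZ
      have h1 : ex (X' + Z') = ex X' * ex Z' :=
        ex_add (hcomm Z' hZ' hZm X' hX').symm
      have hD'' : ex X' ∈ Y.map ρ := by
        rw [← hD']
        exact ex_mem (hmD hX' : X' ∈ lieAlg D' hD'c)
      obtain ⟨g', hg'⟩ := hD''
      have h2 : ρ (g'⁻¹ * g) = ex Z' := by
        rw [map_mul, map_inv, hg, h1, hg'.2, inv_mul_cancel_left]
      have h3 := hex Z' _ h2 (fun X hX => hcomm Z' hZ' hZm X hX)
      have h4 := Y.mul_mem hg'.1 (hCY.le h3)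
      rwa [mul_inv_cancel_left] at h4
    refine le_antisymm hYL (sup_le ?_ hCY.le)
    exact sInf_le ⟨hYn, hop⟩

end Pool.Agent.H57C.Simp

namespace Pool.Agent.H57C

theorem s_simp : S_SIMP := Simp.s_simp

end Pool.Agent.H57C
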