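import Pool.Agent.H57C.Stm

/-!
# Piece Z of project CG (helper82): central extensions of connected compact groups
-/

set_option autoImplicit false

namespace Pool.Agent.H57C.ZZ

open Topology Matrix MeasureTheory

/-- the block of a representation -/
theorem blk {A : Type} [Group A] [TopologicalSpace A] {ι : Type} [Fintype ι] [DecidableEq ι]
    (B : A →* Matrix ι ι ℂ) (hB : Continuous B) (hu : ∀ g, (B g)ᴴ = B g⁻¹) (q : ι → Prop) [DecidablePred q]
    (h : ∀ g i j, q i → ¬ q j → B g i j = 0) :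
    ∃ σ : A →* Matrix.unitaryGroup {i // q i} ℂ, Continuous σ ∧
      ∀ g, (σ g : Matrix {i // q i} {i // q i} ℂ) = (B g).submatrix Subtype.val Subtype.val := by
  have hmul : ∀ g k, (B (g * k)).submatrix (Subtype.val : {i // q i} → ι) (Subtype.val : {i // q i} → ι) =
      (B g).submatrix Subtype.val Subtype.val * (B k).submatrix Subtype.val Subtype.val := by
    intro g k
    ext i j
    rw [map_mul, Matrix.submatrix_apply, Matrix.mul_apply, Matrix.mul_apply]
    rw [← Finset.sum_filter_add_sum_filter_not Finset.univ q, ← Finset.sum_subtype_eq_sum_filter]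
    rw [Finset.sum_eq_zero (s := Finset.univ.filter fun x => ¬ q x)]
    · rw [add_zero]
      simp [Finset.subtype_univ]
    · intro x hx
      rw [h g i x i.2 (Finset.mem_filter.1 hx).2, zero_mul]
  have hone : (B 1).submatrix (Subtype.val : {i // q i} → ι) (Subtype.val : {i // q i} → ι) = 1 := by
    rw [map_one]
    ext i j
    simp [Matrix.one_apply, Subtype.ext_iff]
  have hmem : ∀ g, (B g).submatrix (Subtype.val : {i // q i} → ι) (Subtype.val : {i // q i} → ι) ∈
      Matrix.unitaryGroup {i // q i} ℂ := by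
    intro g
    rw [Matrix.mem_unitaryGroup_iff, Matrix.star_eq_conjTranspose, Matrix.conjTranspose_submatrix, hu g, ← hmul,
      mul_inv_cancel, hone]
  refine ⟨{ toFun := fun g => ⟨_, hmem g⟩
            map_one' := Subtype.ext hone
            map_mul' := fun g k => Subtype.ext (hmul g k) }, ?_, fun g => rfl⟩
  apply Continuous.subtype_mk
  exact hB.matrix_submatrix _ _

/-- splitting of a representation with a nonscalar hermitian commuting matrix -/
theorem split {A : Type} [Group A] [TopologicalSpace A] {ι : Type} [Fintype ι] [DecidableEq ι]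
    (π : A →* Matrix.unitaryGroup ι ℂ) (hπ : Continuous π) (H : Matrix ι ι ℂ) (hH : H.IsHermitian)
    (hc : ∀ a, (π a : Matrix ι ι ℂ) * H = H * (π a : Matrix ι ι ℂ)) (hs : ∀ c : ℂ, H ≠ c • (1 : Matrix ι ι ℂ))
    (a : A) (ha : π a ≠ 1) :
    ∃ (κ : Type) (_ : Fintype κ) (_ : DecidableEq κ) (σ : A →* Matrix.unitaryGroup κ ℂ), Continuous σ ∧
      σ a ≠ 1 ∧ Fintype.card κ < Fintype.card ι := by
  classical
  set U : Matrix ι ι ℂ := (hH.eigenvectorUnitary : Matrix ι ι ℂ) with hU
  have hU1 : U * Uᴴ = 1 := Matrix.mem_unitaryGroup_iff.1 hH.eigenvectorUnitary.2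
  have hU2 : Uᴴ * U = 1 := Matrix.mem_unitaryGroup_iff'.1 hH.eigenvectorUnitary.2
  set D : Matrix ι ι ℂ := diagonal (RCLike.ofReal ∘ hH.eigenvalues) with hD
  have hspec : H = U * D * Uᴴ := by
    have h1 := hH.spectral_theorem
    rw [Unitary.conjStarAlgAut_apply] at h1
    exact h1
  have hDU : D = Uᴴ * H * U := by
    rw [hspec]
    calc D = (Uᴴ * U) * D * (Uᴴ * U) := by rw [hU2]; simp
      _ = _ := by simp only [Matrix.mul_assoc]
  -- the eigenvalues are not all equal
  obtain ⟨i0, j0, hij⟩ : ∃ i0 j0, hH.eigenvalues i0 ≠ hH.eigenvalues j0 := by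
    by_contra hcon
    push Not at hcon
    rcases isEmpty_or_nonempty ι with hι | hι
    · exact hs 0 (Subsingleton.elim _ _)
    · obtain ⟨i0⟩ := hι
      apply hs (hH.eigenvalues i0 : ℂ)
      have h2 : D = (hH.eigenvalues i0 : ℂ) • (1 : Matrix ι ι ℂ) := by
        rw [hD, Matrix.smul_one_eq_diagonal]
        congr 1
        funext j
        simp only [Function.comp]
        rw [hcon j i0]
        rfl
      refine hspec.trans ?_
      rw [h2]
      simp [hU1]
  let B : A →* Matrix ι ι ℂ :=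
    { toFun := fun g => Uᴴ * (π g : Matrix ι ι ℂ) * U
      map_one' := by rw [map_one]; simp [hU2]
      map_mul' := fun g k => by
        rw [map_mul]
        show Uᴴ * ((π g : Matrix ι ι ℂ) * (π k : Matrix ι ι ℂ)) * U = _
        calc Uᴴ * ((π g : Matrix ι ι ℂ) * (π k : Matrix ι ι ℂ)) * U =
              Uᴴ * ((π g : Matrix ι ι ℂ) * (1 : Matrix ι ι ℂ) * (π k : Matrix ι ι ℂ)) * U := by rw [Matrix.mul_one]
          _ = _ := by rw [← hU1]; simp only [Matrix.mul_assoc] }
  have hBc : Continuous B := by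
    show Continuous fun g => Uᴴ * (π g : Matrix ι ι ℂ) * U
    have : Continuous fun g => (π g : Matrix ι ι ℂ) := continuous_subtype_val.comp hπ
    fun_prop
  have hBu : ∀ g, (B g)ᴴ = B g⁻¹ := by
    intro g
    show (Uᴴ * (π g : Matrix ι ι ℂ) * U)ᴴ = Uᴴ * (π g⁻¹ : Matrix ι ι ℂ) * U
    rw [Matrix.conjTranspose_mul, Matrix.conjTranspose_mul, Matrix.conjTranspose_conjTranspose, map_inv,
      Matrix.mul_assoc]
    rfl
  have hBD : ∀ g, B g * D = D * B g := by
    intro g
    show Uᴴ * (π g : Matrix ι ι ℂ) * U * D = D * (Uᴴ * (π g : Matrix ι ι ℂ) * U)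
    rw [hDU]
    calc Uᴴ * (π g : Matrix ι ι ℂ) * U * (Uᴴ * H * U) = Uᴴ * (π g : Matrix ι ι ℂ) * (U * Uᴴ) * H * U := by
          simp only [Matrix.mul_assoc]
      _ = Uᴴ * ((π g : Matrix ι ι ℂ) * H) * U := by rw [hU1]; simp only [Matrix.mul_assoc, Matrix.one_mul]
      _ = Uᴴ * H * (U * Uᴴ) * (π g : Matrix ι ι ℂ) * U := by
          rw [hc, hU1]; simp only [Matrix.mul_assoc, Matrix.one_mul]
      _ = _ := by simp only [Matrix.mul_assoc]
  have hB0 : ∀ g i j, hH.eigenvalues i ≠ hH.eigenvalues j → B g i j = 0 := by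
    intro g i j hne
    have h1 := congrFun (congrFun (hBD g) i) j
    rw [hD, Matrix.mul_diagonal, Matrix.diagonal_mul] at h1
    simp only [Function.comp] at h1
    have h2 : ((hH.eigenvalues j : ℂ) - (hH.eigenvalues i : ℂ)) * B g i j = 0 := by
      have h3 : B g i j * (hH.eigenvalues j : ℂ) = (hH.eigenvalues i : ℂ) * B g i j := h1
      linear_combination h3
    rcases mul_eq_zero.1 h2 with h3 | h3
    · exfalso
      apply hne
      have h4 := sub_eq_zero.1 h3
      exact_mod_cast h4.symm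
    · exact h3
  let p : ι → Prop := fun i => hH.eigenvalues i = hH.eigenvalues i0
  obtain ⟨σ1, hσ1, hσ1'⟩ := blk B hBc hBu p (by
    intro g i j hi hj
    apply hB0
    intro h1
    exact hj (h1.symm.trans hi))
  obtain ⟨σ2, hσ2, hσ2'⟩ := blk B hBc hBu (fun i => ¬ p i) (by
    intro g i j hi hj
    apply hB0
    intro h1
    exact hi (h1.trans (not_not.1 hj)))
  by_cases h1 : σ1 a ≠ 1
  · exact ⟨_, inferInstance, inferInstance, σ1, hσ1, h1,
      Fintype.card_subtype_lt (x := j0) (fun h => hij h.symm)⟩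
  by_cases h2 : σ2 a ≠ 1
  · exact ⟨_, inferInstance, inferInstance, σ2, hσ2, h2,
      Fintype.card_subtype_lt (x := i0) (fun h => h rfl)⟩
  exfalso
  push Not at h1 h2
  apply ha
  have h3 : B a = 1 := by
    ext i j
    by_cases hi : p i
    · by_cases hj : p j
      · have h4 := hσ1' a
        rw [h1] at h4
        have h5 := congrFun (congrFun h4 ⟨i, hi⟩) ⟨j, hj⟩
        rw [Matrix.submatrix_apply] at h5
        rw [← h5]
        show (1 : Matrix {i // p i} {i // p i} ℂ) ⟨i, hi⟩ ⟨j, hj⟩ = _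
        simp [Matrix.one_apply]
      · rw [hB0 a i j (fun h => hj (h.symm.trans hi)), Matrix.one_apply_ne]
        rintro rfl
        exact hj hi
    · by_cases hj : p j
      · rw [hB0 a i j (fun h => hi (h.trans hj)), Matrix.one_apply_ne]
        rintro rfl
        exact hi hj
      · have h4 := hσ2' a
        rw [h2] at h4
        have h5 := congrFun (congrFun h4 ⟨i, hi⟩) ⟨j, hj⟩
        rw [Matrix.submatrix_apply] at h5
        rw [← h5]
        show (1 : Matrix {i // ¬ p i} {i // ¬ p i} ℂ) ⟨i, hi⟩ ⟨j, hj⟩ = _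
        simp [Matrix.one_apply]
  apply Subtype.ext
  show (π a : Matrix ι ι ℂ) = 1
  calc (π a : Matrix ι ι ℂ) = (U * Uᴴ) * (π a : Matrix ι ι ℂ) * (U * Uᴴ) := by rw [hU1]; simp
    _ = U * B a * Uᴴ := by
        show _ = U * (Uᴴ * (π a : Matrix ι ι ℂ) * U) * Uᴴ
        simp only [Matrix.mul_assoc]
    _ = 1 := by rw [h3]; simp [hU1]

/-- reindexing to `Fin` -/
theorem toFin {A : Type} [Group A] [TopologicalSpace A] (κ : Type) [Fintype κ] [DecidableEq κ]
    (σ : A →* Matrix.unitaryGroup κ ℂ) (hσ : Continuous σ) (a : A) (ha : σ a ≠ 1) :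
    ∃ τ : A →* Matrix.unitaryGroup (Fin (Fintype.card κ)) ℂ, Continuous τ ∧ τ a ≠ 1 := by
  let e : κ ≃ Fin (Fintype.card κ) := Fintype.equivFin κ
  have hmem : ∀ g, (σ g : Matrix κ κ ℂ).submatrix e.symm e.symm ∈ Matrix.unitaryGroup (Fin (Fintype.card κ)) ℂ := by
    intro g
    rw [Matrix.mem_unitaryGroup_iff', Matrix.star_eq_conjTranspose, Matrix.conjTranspose_submatrix,
      Matrix.submatrix_mul_equiv]
    have h5 := Matrix.mem_unitaryGroup_iff'.1 (σ g).2
    rw [Matrix.star_eq_conjTranspose] at h5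
    rw [h5]
    exact Matrix.submatrix_one_equiv e.symm
  refine ⟨{ toFun := fun g => ⟨(σ g : Matrix κ κ ℂ).submatrix e.symm e.symm, hmem g⟩
            map_one' := ?_
            map_mul' := ?_ }, ?_, ?_⟩
  · apply Subtype.ext
    show ((σ 1 : Matrix.unitaryGroup κ ℂ) : Matrix κ κ ℂ).submatrix e.symm e.symm = 1
    rw [map_one]
    exact Matrix.submatrix_one_equiv e.symm
  · intro g h
    apply Subtype.ext
    show ((σ (g * h) : Matrix.unitaryGroup κ ℂ) : Matrix κ κ ℂ).submatrix e.symm e.symm =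
      (σ g : Matrix κ κ ℂ).submatrix e.symm e.symm * (σ h : Matrix κ κ ℂ).submatrix e.symm e.symm
    rw [map_mul, Matrix.submatrix_mul_equiv]
    rfl
  · apply Continuous.subtype_mk
    exact (continuous_subtype_val.comp hσ).matrix_submatrix _ _
  · intro h5
    apply ha
    have h6 : (σ a : Matrix κ κ ℂ).submatrix e.symm e.symm = 1 := congrArg Subtype.val h5
    apply Subtype.ext
    show (σ a : Matrix κ κ ℂ) = 1
    ext i j
    have h8 := congrFun (congrFun h6 (e i)) (e j)
    simpa [Matrix.one_apply] using h8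

/-- **(a)**: separation by representations in which the central elements are scalars -/
theorem central {A : Type} [Group A] [TopologicalSpace A] [IsTopologicalGroup A] [CompactSpace A]
    [T2Space A] (a : A) (ha : a ≠ 1) :
    ∃ (d : ℕ) (π : A →* Matrix.unitaryGroup (Fin d) ℂ), Continuous π ∧ π a ≠ 1 ∧
      ∀ n ∈ Subgroup.center A, ∃ c : ℂ, (π n : Matrix (Fin d) (Fin d) ℂ) = c • (1 : Matrix (Fin d) (Fin d) ℂ) := by
  classical
  let P : ℕ → Prop := fun d => ∃ π : A →* Matrix.unitaryGroup (Fin d) ℂ, Continuous π ∧ π a ≠ 1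
  have hex : ∃ d, P d := by
    obtain ⟨r, ρ, h1, h2⟩ := Pool.Agent.Y842.CX.separated_of_compact A a 1 ha
    exact ⟨r, ρ, h1, by rwa [map_one] at h2⟩
  obtain ⟨d, ⟨π, hπ, hπa⟩, hmin⟩ : ∃ d, P d ∧ ∀ m < d, ¬ P m :=
    ⟨Nat.find hex, Nat.find_spec hex, fun m hm => Nat.find_min hex hm⟩
  refine ⟨d, π, hπ, hπa, ?_⟩
  intro n hn
  have hsc : ∀ H : Matrix (Fin d) (Fin d) ℂ, H.IsHermitian →
      (∀ g, (π g : Matrix (Fin d) (Fin d) ℂ) * H = H * (π g : Matrix (Fin d) (Fin d) ℂ)) →
      ∃ c : ℂ, H = c • (1 : Matrix (Fin d) (Fin d) ℂ) := by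
    intro H hH hc
    by_contra hcon
    push Not at hcon
    obtain ⟨κ, _, _, σ, hσ, hσa, hκ⟩ := split π hπ H hH hc hcon a hπa
    obtain ⟨τ, hτ, hτa⟩ := toFin κ σ hσ a hσa
    rw [Fintype.card_fin] at hκ
    exact hmin _ hκ ⟨τ, hτ, hτa⟩
  set M : Matrix (Fin d) (Fin d) ℂ := (π n : Matrix (Fin d) (Fin d) ℂ) with hM
  have hMs : Mᴴ = (π n⁻¹ : Matrix (Fin d) (Fin d) ℂ) := by
    rw [map_inv]
    rfl
  have hcM : ∀ g, (π g : Matrix (Fin d) (Fin d) ℂ) * M = M * (π g : Matrix (Fin d) (Fin d) ℂ) := by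
    intro g
    have h1 : π g * π n = π n * π g := by
      rw [← map_mul, ← map_mul, Subgroup.mem_center_iff.1 hn g]
    exact congrArg Subtype.val h1
  have hcM' : ∀ g, (π g : Matrix (Fin d) (Fin d) ℂ) * Mᴴ = Mᴴ * (π g : Matrix (Fin d) (Fin d) ℂ) := by
    intro g
    rw [hMs]
    have h1 : π g * π n⁻¹ = π n⁻¹ * π g := by
      rw [← map_mul, ← map_mul, Subgroup.mem_center_iff.1 (inv_mem hn) g]
    exact congrArg Subtype.val h1
  obtain ⟨c1, h1⟩ := hsc (M + Mᴴ) (by
    rw [Matrix.IsHermitian, Matrix.conjTranspose_add, Matrix.conjTranspose_conjTranspose, add_comm])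
    (by intro g; rw [Matrix.mul_add, Matrix.add_mul, hcM, hcM'])
  obtain ⟨c2, h2⟩ := hsc (Complex.I • (M - Mᴴ)) (by
    rw [Matrix.IsHermitian, Matrix.conjTranspose_smul, Matrix.conjTranspose_sub,
      Matrix.conjTranspose_conjTranspose]
    ext i j
    simp
    ring)
    (by intro g; rw [Matrix.mul_smul, Matrix.smul_mul, Matrix.mul_sub, Matrix.sub_mul, hcM, hcM'])
  refine ⟨(c1 - Complex.I * c2) / 2, ?_⟩
  have h3 : M = (1 / 2 : ℂ) • ((M + Mᴴ) - Complex.I • (Complex.I • (M - Mᴴ))) := by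
    ext i j
    simp only [Matrix.smul_apply, Matrix.add_apply, Matrix.sub_apply, smul_eq_mul]
    have := Complex.I_mul_I
    linear_combination (1 / 2 : ℂ) * (M i j - Mᴴ i j) * this
  rw [h3, h1, h2]
  ext i j
  simp only [Matrix.smul_apply, Matrix.sub_apply, smul_eq_mul]
  ring

/-- the tensor `P ⊗ conj P` -/
def FF {d : ℕ} (P : Fin d → Fin d → ℂ) : Fin d → Fin d → Fin d → Fin d → ℂ :=
  fun i j k l => P i j * starRingEnd ℂ (P k l)

/-- `P Q*` -/
def uu {d : ℕ} (P Q : Fin d → Fin d → ℂ) : Fin d → Fin d → ℂ :=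
  fun i j => ∑ k, P i k * starRingEnd ℂ (Q j k)

theorem FF_cont {d : ℕ} : Continuous (FF : (Fin d → Fin d → ℂ) → _) := by
  unfold FF
  refine continuous_pi fun i => continuous_pi fun j => continuous_pi fun k => continuous_pi fun l => ?_
  fun_prop

theorem uu_cont {d : ℕ} : Continuous fun x : (Fin d → Fin d → ℂ) × (Fin d → Fin d → ℂ) => uu x.1 x.2 := by
  unfold uu
  refine continuous_pi fun i => continuous_pi fun j => ?_
  fun_prop

theorem uu_eq {d : ℕ} (P Q : Matrix (Fin d) (Fin d) ℂ) : Matrix.of (uu P Q) = P * Qᴴ := by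
  ext i j
  simp [uu, Matrix.mul_apply]

/-- if the tensors agree then the matrices are proportional -/
theorem FF_eq {d : ℕ} (P Q : Matrix (Fin d) (Fin d) ℂ) (hP : P ∈ Matrix.unitaryGroup (Fin d) ℂ)
    (hQ : Q ∈ Matrix.unitaryGroup (Fin d) ℂ) (hd : P.det = Q.det) (h : FF P = FF Q) :
    ∃ ζ : ℂ, ζ ^ d = 1 ∧ P = ζ • Q := by
  rcases Nat.eq_zero_or_pos d with h0 | h0
  · subst h0
    exact ⟨1, by simp, Subsingleton.elim _ _⟩
  let i0 : Fin d := ⟨0, h0⟩
  have hPP : ∑ l, P i0 l * starRingEnd ℂ (P i0 l) = 1 := by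
    have h1 := congrFun (congrFun (Matrix.mem_unitaryGroup_iff.1 hP) i0) i0
    rw [Matrix.mul_apply] at h1
    simpa using h1
  have hPQ : P = (∑ l, P i0 l * starRingEnd ℂ (Q i0 l)) • Q := by
    ext i j
    rw [Matrix.smul_apply, smul_eq_mul]
    calc P i j = P i j * ∑ l, P i0 l * starRingEnd ℂ (P i0 l) := by rw [hPP, mul_one]
      _ = ∑ l, (P i j * starRingEnd ℂ (P i0 l)) * P i0 l := by
          rw [Finset.mul_sum]
          exact Finset.sum_congr rfl fun l _ => by ring
      _ = ∑ l, (Q i j * starRingEnd ℂ (Q i0 l)) * P i0 l := by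
          refine Finset.sum_congr rfl fun l _ => ?_
          have h2 := congrFun (congrFun (congrFun (congrFun h i) j) i0) l
          simp only [FF] at h2
          rw [h2]
      _ = _ := by
          rw [Finset.sum_mul]
          exact Finset.sum_congr rfl fun l _ => by ring
  refine ⟨_, ?_, hPQ⟩
  have h3 : Q.det ≠ 0 := by
    intro h4
    have h5 := congrArg Matrix.det (Matrix.mem_unitaryGroup_iff.1 hQ)
    rw [Matrix.det_mul, h4, zero_mul, Matrix.det_one] at h5
    exact zero_ne_one h5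
  have h4 := congrArg Matrix.det hPQ
  rw [Matrix.det_smul, Fintype.card_fin, hd] at h4
  have h5 : ((∑ l, P i0 l * starRingEnd ℂ (Q i0 l)) ^ d - 1) * Q.det = 0 := by
    linear_combination -h4
  rcases mul_eq_zero.1 h5 with h6 | h6
  · exact sub_eq_zero.1 h6
  · exact absurd h6 h3

/-- the unit matrix -/
def II (d : ℕ) : Fin d → Fin d → ℂ := fun i j => if i = j then 1 else 0

theorem II_eq (d : ℕ) : Matrix.of (II d) = (1 : Matrix (Fin d) (Fin d) ℂ) := by
  ext i j
  simp [II, Matrix.one_apply]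

/-- the distance of `P Q*` from `1` -/
noncomputable def hh {d : ℕ} (P Q : Fin d → Fin d → ℂ) : ℝ := ‖uu P Q - II d‖

theorem hh_cont {d : ℕ} : Continuous fun x : (Fin d → Fin d → ℂ) × (Fin d → Fin d → ℂ) => hh x.1 x.2 := by
  unfold hh
  exact (uu_cont.sub continuous_const).norm

theorem mem_iff {d : ℕ} (P : Matrix (Fin d) (Fin d) ℂ) :
    P ∈ Matrix.unitaryGroup (Fin d) ℂ ↔ uu P P = II d := by
  rw [Matrix.mem_unitaryGroup_iff, Matrix.star_eq_conjTranspose, ← uu_eq, ← II_eq]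
  exact Matrix.of.injective.eq_iff

/-- the gap -/
theorem gap (d : ℕ) : ∃ δ : ℝ, 0 < δ ∧ δ * (d + 1) < 1 / 2 ∧ ∃ ε : ℝ, 0 < ε ∧ ∀ P Q : Matrix (Fin d) (Fin d) ℂ,
    P ∈ Matrix.unitaryGroup (Fin d) ℂ → Q ∈ Matrix.unitaryGroup (Fin d) ℂ → P.det = Q.det →
      hh P Q = δ → ε ≤ ‖FF P - FF Q‖ := by
  obtain ⟨δ, hδ, hδS⟩ : ∃ δ, δ ∈ Set.Ioo (0 : ℝ) (1 / (2 * (d + 1))) ∧
      δ ∉ (fun ζ : ℂ => ‖ζ - 1‖) '' (Polynomial.nthRootsFinset d (1 : ℂ) : Set ℂ) := by
    apply Set.Infinite.exists_notMem_finite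
    · apply Set.Ioo_infinite
      positivity
    · exact (Finset.finite_toSet _).image _
  refine ⟨δ, hδ.1, ?_, ?_⟩
  · have h1 := hδ.2
    rw [lt_div_iff₀ (by positivity)] at h1
    linarith
  let K : Set ((Fin d → Fin d → ℂ) × (Fin d → Fin d → ℂ)) :=
    {x | uu x.1 x.1 = II d ∧ uu x.2 x.2 = II d ∧
      Matrix.det (x.1 : Matrix (Fin d) (Fin d) ℂ) = Matrix.det (x.2 : Matrix (Fin d) (Fin d) ℂ) ∧ hh x.1 x.2 = δ}
  have hKc : IsClosed K := by
    have c1 : Continuous fun x : (Fin d → Fin d → ℂ) × (Fin d → Fin d → ℂ) => uu x.1 x.1 :=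
      uu_cont.comp (continuous_fst.prodMk continuous_fst)
    have c2 : Continuous fun x : (Fin d → Fin d → ℂ) × (Fin d → Fin d → ℂ) => uu x.2 x.2 :=
      uu_cont.comp (continuous_snd.prodMk continuous_snd)
    have c3 : Continuous fun x : (Fin d → Fin d → ℂ) × (Fin d → Fin d → ℂ) =>
        Matrix.det (x.1 : Matrix (Fin d) (Fin d) ℂ) :=
      Continuous.matrix_det (A := fun x : (Fin d → Fin d → ℂ) × (Fin d → Fin d → ℂ) =>
        (x.1 : Matrix (Fin d) (Fin d) ℂ)) continuous_fst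
    have c4 : Continuous fun x : (Fin d → Fin d → ℂ) × (Fin d → Fin d → ℂ) =>
        Matrix.det (x.2 : Matrix (Fin d) (Fin d) ℂ) :=
      Continuous.matrix_det (A := fun x : (Fin d → Fin d → ℂ) × (Fin d → Fin d → ℂ) =>
        (x.2 : Matrix (Fin d) (Fin d) ℂ)) continuous_snd
    exact (isClosed_eq c1 continuous_const).inter ((isClosed_eq c2 continuous_const).inter
      ((isClosed_eq c3 c4).inter (isClosed_eq hh_cont continuous_const)))
  have hKb : Bornology.IsBounded K := by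
    refine (Metric.isBounded_closedBall (x := (0 : (Fin d → Fin d → ℂ) × (Fin d → Fin d → ℂ))) (r := 1)).subset ?_
    rintro ⟨P, Q⟩ ⟨h1, h2, -, -⟩
    have h3 : ∀ R : Fin d → Fin d → ℂ, uu R R = II d → ‖R‖ ≤ 1 := by
      intro R hR
      rw [pi_norm_le_iff_of_nonneg zero_le_one]
      intro i
      rw [pi_norm_le_iff_of_nonneg zero_le_one]
      intro j
      exact entry_norm_bound_of_unitary ((mem_iff R).2 hR) i j
    rw [mem_closedBall_zero_iff, Prod.norm_def]
    exact max_le (h3 P h1) (h3 Q h2)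
  have hK : IsCompact K := Metric.isCompact_of_isClosed_isBounded hKc hKb
  have hPhi : Continuous fun x : (Fin d → Fin d → ℂ) × (Fin d → Fin d → ℂ) => ‖FF x.1 - FF x.2‖ :=
    ((FF_cont.comp continuous_fst).sub (FF_cont.comp continuous_snd)).norm
  obtain ⟨ε, hε, hε'⟩ := hK.exists_forall_le' hPhi.continuousOn (a := 0) (by
    rintro ⟨P, Q⟩ ⟨h1, h2, h3, h4⟩
    rw [norm_pos_iff]
    intro h5
    obtain ⟨ζ, hζ, hPQ⟩ := FF_eq P Q ((mem_iff P).2 h1) ((mem_iff Q).2 h2) h3 (sub_eq_zero.1 h5)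
    have h6 : uu P Q - II d = (ζ - 1) • II d := by
      have h7 : Matrix.of (uu P Q) = ζ • (1 : Matrix (Fin d) (Fin d) ℂ) := by
        have h8 := Matrix.mem_unitaryGroup_iff.1 ((mem_iff Q).2 h2)
        rw [Matrix.star_eq_conjTranspose] at h8
        refine (uu_eq P Q).trans ?_
        rw [hPQ]
        exact (Matrix.smul_mul ζ (Q : Matrix (Fin d) (Fin d) ℂ) _).trans (congrArg (fun M => ζ • M) h8)
      have h9 : uu P Q = ζ • II d := by
        rw [← II_eq] at h7
        exact h7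
      rw [h9, sub_smul, one_smul]
    have h10 : hh P Q = ‖ζ - 1‖ * ‖II d‖ := by
      unfold hh
      rw [h6, norm_smul]
    have h4' : hh P Q = δ := h4
    rcases Nat.eq_zero_or_pos d with h0 | h0
    · subst h0
      have h11 : II 0 = 0 := Subsingleton.elim _ _
      rw [h11, norm_zero, mul_zero] at h10
      have := hδ.1
      linarith
    · have h11 : ‖II d‖ = 1 := by
        apply le_antisymm
        · rw [pi_norm_le_iff_of_nonneg zero_le_one]
          intro i
          rw [pi_norm_le_iff_of_nonneg zero_le_one]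
          intro j
          unfold II
          split_ifs <;> simp
        · have h12 := (norm_le_pi_norm (II d ⟨0, h0⟩) ⟨0, h0⟩).trans (norm_le_pi_norm (II d) ⟨0, h0⟩)
          simpa [II] using h12
      apply hδS
      refine ⟨ζ, ?_, ?_⟩
      · rw [Finset.mem_coe, Polynomial.mem_nthRootsFinset h0]
        exact hζ
      · show ‖ζ - 1‖ = δ
        rw [← h4', h10, h11, mul_one])
  refine ⟨ε, hε, ?_⟩
  intro P Q hP hQ hd hPQ
  exact hε' (P, Q) ⟨(mem_iff P).1 hP, (mem_iff Q).1 hQ, hd, hPQ⟩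

/-- **(d)**: the intertwiner -/
theorem inter {A : Type} [Group A] [TopologicalSpace A] [IsTopologicalGroup A]
    [CompactSpace A] {d : ℕ} (π π' : A →* Matrix.unitaryGroup (Fin d) ℂ)
    (hπ : Continuous π) (hπ' : Continuous π') (δ : ℝ) (hδ : 0 ≤ δ) (hδ' : δ * (d + 1) < 1 / 2)
    (h : ∀ a, hh (π a : Matrix (Fin d) (Fin d) ℂ) (π' a : Matrix (Fin d) (Fin d) ℂ) ≤ δ) :
    π.ker = π'.ker := by
  classical
  borelize A
  let μ : Measure A := Measure.haarMeasure ⊤
  have : IsProbabilityMeasure μ := ⟨by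
    have := Measure.haarMeasure_self (K₀ := (⊤ : TopologicalSpace.PositiveCompacts A))
    simpa using this⟩
  have cπ : Continuous fun a => (π a : Matrix (Fin d) (Fin d) ℂ) := continuous_subtype_val.comp hπ
  have cπ' : Continuous fun a => (π' a : Matrix (Fin d) (Fin d) ℂ) := continuous_subtype_val.comp hπ'
  let u : A → Fin d → Fin d → ℂ := fun a => uu (π a : Matrix (Fin d) (Fin d) ℂ) (π' a : Matrix (Fin d) (Fin d) ℂ)
  have hu : Continuous u := uu_cont.comp (cπ.prodMk cπ')
  have huij : ∀ i j, Continuous fun a => u a i j := fun i j =>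
    (continuous_apply j).comp ((continuous_apply i).comp hu)
  have hint : ∀ i j, Integrable (fun a => u a i j) μ := fun i j =>
    (huij i j).integrable_of_hasCompactSupport (HasCompactSupport.of_compactSpace _)
  let T : Matrix (Fin d) (Fin d) ℂ := fun i j => ∫ a, u a i j ∂μ
  have hT : ∀ i j, ‖T i j - (1 : Matrix (Fin d) (Fin d) ℂ) i j‖ ≤ δ := by
    intro i j
    have h1 : T i j - (1 : Matrix (Fin d) (Fin d) ℂ) i j = ∫ a, (u a i j - II d i j) ∂μ := by
      rw [integral_sub (hint i j) (integrable_const _)]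
      simp [T, II, Matrix.one_apply]
    rw [h1]
    have h2 := norm_integral_le_of_norm_le_const (μ := μ) (f := fun a => u a i j - II d i j) (C := δ)
      (Filter.Eventually.of_forall fun a => by
        have h3 := (norm_le_pi_norm ((u a - II d) i) j).trans (norm_le_pi_norm (u a - II d) i)
        exact h3.trans (h a))
    simpa using h2
  have hdet : T.det ≠ 0 := by
    apply det_ne_zero_of_sum_row_lt_diag
    intro k
    have h1 : ∀ j ∈ Finset.univ.erase k, ‖T k j‖ ≤ δ := by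
      intro j hj
      have h2 := hT k j
      rwa [Matrix.one_apply_ne (Finset.ne_of_mem_erase hj).symm, sub_zero] at h2
    have h2 : ∑ j ∈ Finset.univ.erase k, ‖T k j‖ ≤ d * δ := by
      refine (Finset.sum_le_card_nsmul _ _ _ h1).trans ?_
      rw [nsmul_eq_mul]
      apply mul_le_mul_of_nonneg_right _ hδ
      have h3 : (Finset.univ.erase k).card ≤ d := by
        refine (Finset.card_erase_le).trans ?_
        simp
      exact_mod_cast h3
    have h3 : 1 - δ ≤ ‖T k k‖ := by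
      have h4 := hT k k
      rw [Matrix.one_apply_eq] at h4
      have h5 : ‖(1 : ℂ)‖ ≤ ‖T k k‖ + ‖T k k - 1‖ := by
        have h6 := norm_sub_le (T k k) (T k k - 1)
        rwa [sub_sub_cancel] at h6
      rw [norm_one] at h5
      linarith
    nlinarith
  have hTi : ∀ b, (π b : Matrix (Fin d) (Fin d) ℂ) * T = T * (π' b : Matrix (Fin d) (Fin d) ℂ) := by
    intro b
    ext i j
    rw [Matrix.mul_apply, Matrix.mul_apply]
    have h1 : ∑ k, (π b : Matrix (Fin d) (Fin d) ℂ) i k * T k j =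
        ∫ a, (∑ k, (π b : Matrix (Fin d) (Fin d) ℂ) i k * u a k j) ∂μ := by
      rw [integral_finsetSum _ fun k _ => (hint k j).const_mul _]
      exact Finset.sum_congr rfl fun k _ => (integral_const_mul _ _).symm
    have h2 : ∑ k, T i k * (π' b : Matrix (Fin d) (Fin d) ℂ) k j =
        ∫ a, (∑ k, u a i k * (π' b : Matrix (Fin d) (Fin d) ℂ) k j) ∂μ := by
      rw [integral_finsetSum _ fun k _ => (hint i k).mul_const _]
      exact Finset.sum_congr rfl fun k _ => (integral_mul_const _ _).symm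
    rw [h1, h2, ← integral_mul_left_eq_self (μ := μ)
      (fun a => ∑ k, u a i k * (π' b : Matrix (Fin d) (Fin d) ℂ) k j) b]
    congr 1
    funext a
    have h3 : (π b : Matrix (Fin d) (Fin d) ℂ) * Matrix.of (u a) =
        Matrix.of (u (b * a)) * (π' b : Matrix (Fin d) (Fin d) ℂ) := by
      show (π b : Matrix (Fin d) (Fin d) ℂ) *
          Matrix.of (uu (π a : Matrix (Fin d) (Fin d) ℂ) (π' a : Matrix (Fin d) (Fin d) ℂ)) =
        Matrix.of (uu (π (b * a) : Matrix (Fin d) (Fin d) ℂ) (π' (b * a) : Matrix (Fin d) (Fin d) ℂ)) *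
          (π' b : Matrix (Fin d) (Fin d) ℂ)
      rw [uu_eq, uu_eq, map_mul, map_mul]
      show (π b : Matrix (Fin d) (Fin d) ℂ) * ((π a : Matrix (Fin d) (Fin d) ℂ) *
        (π' a : Matrix (Fin d) (Fin d) ℂ)ᴴ) = ((π b : Matrix (Fin d) (Fin d) ℂ) * (π a : Matrix (Fin d) (Fin d) ℂ)) *
        ((π' b : Matrix (Fin d) (Fin d) ℂ) * (π' a : Matrix (Fin d) (Fin d) ℂ))ᴴ * (π' b : Matrix (Fin d) (Fin d) ℂ)
      have h4 : (π' b : Matrix (Fin d) (Fin d) ℂ)ᴴ * (π' b : Matrix (Fin d) (Fin d) ℂ) = 1 :=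
        Matrix.mem_unitaryGroup_iff'.1 (π' b).2
      rw [Matrix.conjTranspose_mul]
      simp only [Matrix.mul_assoc]
      rw [h4, Matrix.mul_one]
    have h5 := congrFun (congrFun h3 i) j
    rw [Matrix.mul_apply, Matrix.mul_apply] at h5
    exact h5
  ext b
  rw [MonoidHom.mem_ker, MonoidHom.mem_ker]
  have h1 := hTi b
  have hTu : IsUnit T.det := isUnit_iff_ne_zero.2 hdet
  constructor
  · intro h2
    rw [h2] at h1
    have h3 : T * (π' b : Matrix (Fin d) (Fin d) ℂ) = T := by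
      rw [← h1]
      exact Matrix.one_mul T
    apply Subtype.ext
    show (π' b : Matrix (Fin d) (Fin d) ℂ) = 1
    calc (π' b : Matrix (Fin d) (Fin d) ℂ) = T⁻¹ * (T * (π' b : Matrix (Fin d) (Fin d) ℂ)) := by
          rw [Matrix.nonsing_inv_mul_cancel_left _ _ hTu]
      _ = 1 := by rw [h3, Matrix.nonsing_inv_mul _ hTu]
  · intro h2
    rw [h2] at h1
    have h3 : (π b : Matrix (Fin d) (Fin d) ℂ) * T = T := by
      rw [h1]
      exact Matrix.mul_one T
    apply Subtype.ext
    show (π b : Matrix (Fin d) (Fin d) ℂ) = 1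
    calc (π b : Matrix (Fin d) (Fin d) ℂ) = ((π b : Matrix (Fin d) (Fin d) ℂ) * T) * T⁻¹ := by
          rw [Matrix.mul_nonsing_inv_cancel_right _ _ hTu]
      _ = 1 := by rw [h3, Matrix.mul_nonsing_inv _ hTu]

theorem inter2 {A : Type} [Group A] [TopologicalSpace A] [IsTopologicalGroup A]
    [CompactSpace A] [PreconnectedSpace A] {d : ℕ} (π π' : A →* Matrix.unitaryGroup (Fin d) ℂ)
    (hπ : Continuous π) (hπ' : Continuous π') (δ : ℝ) (hδ : 0 < δ) (hδ' : δ * (d + 1) < 1 / 2)
    (h3 : ∀ a, hh (π a : Matrix (Fin d) (Fin d) ℂ) (π' a : Matrix (Fin d) (Fin d) ℂ) ≠ δ) :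
    π.ker = π'.ker := by
  apply inter π π' hπ hπ' δ hδ.le hδ'
  have cπ : Continuous fun a => (π a : Matrix (Fin d) (Fin d) ℂ) := continuous_subtype_val.comp hπ
  have cπ' : Continuous fun a => (π' a : Matrix (Fin d) (Fin d) ℂ) := continuous_subtype_val.comp hπ'
  let f : A → ℝ := fun a => hh (π a : Matrix (Fin d) (Fin d) ℂ) (π' a : Matrix (Fin d) (Fin d) ℂ)
  have h40 : Continuous fun a => uu (π a : Matrix (Fin d) (Fin d) ℂ) (π' a : Matrix (Fin d) (Fin d) ℂ) :=
    uu_cont.comp (cπ.prodMk cπ')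
  have h4 : Continuous f := (h40.sub continuous_const).norm
  intro a
  by_contra h5
  push Not at h5
  have h6 : f 1 = 0 := by
    show hh (π 1 : Matrix (Fin d) (Fin d) ℂ) (π' 1 : Matrix (Fin d) (Fin d) ℂ) = 0
    unfold hh
    rw [map_one, map_one, norm_eq_zero, sub_eq_zero]
    exact (mem_iff _).1 (one_mem _)
  obtain ⟨b, hb⟩ := mem_range_of_exists_le_of_exists_ge h4 ⟨1, (h6.le.trans hδ.le)⟩ ⟨a, h5.le⟩
  exact h3 b hb

/-- the determinant character -/
theorem detChar {A : Type} [Group A] [TopologicalSpace A] {d : ℕ} (π : A →* Matrix.unitaryGroup (Fin d) ℂ)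
    (hπ : Continuous π) : ∃ χ : A →ₜ* Circle, ∀ a, (χ a : ℂ) = (π a : Matrix (Fin d) (Fin d) ℂ).det := by
  have h1 : ∀ a, ‖(π a : Matrix (Fin d) (Fin d) ℂ).det‖ = 1 := by
    intro a
    have h2 := congrArg Matrix.det (Matrix.mem_unitaryGroup_iff.1 (π a).2)
    rw [Matrix.det_mul, Matrix.star_eq_conjTranspose, Matrix.det_conjTranspose, Matrix.det_one] at h2
    have h3 := congrArg norm h2
    rw [norm_mul, norm_star, norm_one] at h3
    nlinarith [norm_nonneg (π a : Matrix (Fin d) (Fin d) ℂ).det]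
  refine ⟨{ toFun := fun a => ⟨(π a : Matrix (Fin d) (Fin d) ℂ).det, by
              exact mem_sphere_zero_iff_norm.2 (h1 a)⟩
            map_one' := ?_
            map_mul' := ?_
            continuous_toFun := ?_ }, fun a => rfl⟩
  · apply Subtype.ext
    show (π 1 : Matrix (Fin d) (Fin d) ℂ).det = 1
    rw [map_one]
    exact Matrix.det_one
  · intro a b
    apply Subtype.ext
    show (π (a * b) : Matrix (Fin d) (Fin d) ℂ).det =
      (π a : Matrix (Fin d) (Fin d) ℂ).det * (π b : Matrix (Fin d) (Fin d) ℂ).det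
    rw [map_mul, ← Matrix.det_mul]
    rfl
  · apply Continuous.subtype_mk
    exact (continuous_subtype_val.comp hπ).matrix_det

/-- **(b)**: countably many kernels -/
theorem ker_countable (A : Type) [Group A] [TopologicalSpace A] [IsTopologicalGroup A]
    [CompactSpace A] [T2Space A] [PreconnectedSpace A] (N : Subgroup A) (hN : IsClosed (N : Set A))
    (hNc : N ≤ Subgroup.center A) (h2 : SecondCountableTopology (A ⧸ N)) (hch : Countable (A →ₜ* Circle)) (d : ℕ) :
    {K : Subgroup A | ∃ π : A →* Matrix.unitaryGroup (Fin d) ℂ, Continuous π ∧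
      (∀ n ∈ N, ∃ c : ℂ, (π n : Matrix (Fin d) (Fin d) ℂ) = c • (1 : Matrix (Fin d) (Fin d) ℂ)) ∧
        π.ker = K}.Countable := by
  classical
  have hNn : N.Normal := ⟨fun n hn g => by
    have h1 := Subgroup.mem_center_iff.1 (hNc hn) g
    rw [h1, mul_assoc, mul_inv_cancel, mul_one]
    exact hn⟩
  have : IsClosed (N : Set A) := hN
  obtain ⟨δ, hδ, hδ', ε, hε, hgap⟩ := gap d
  let S : (A →ₜ* Circle) → Set (Subgroup A) := fun χ =>
    {K : Subgroup A | ∃ π : A →* Matrix.unitaryGroup (Fin d) ℂ, Continuous π ∧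
      (∀ n ∈ N, ∃ c : ℂ, (π n : Matrix (Fin d) (Fin d) ℂ) = c • (1 : Matrix (Fin d) (Fin d) ℂ)) ∧
        π.ker = K ∧ ∀ a, (χ a : ℂ) = (π a : Matrix (Fin d) (Fin d) ℂ).det}
  suffices hS : ∀ χ, (S χ).Countable by
    refine (Set.countable_iUnion hS).mono ?_
    rintro K ⟨π, h3, h4, h5⟩
    obtain ⟨χ, hχ⟩ := detChar π h3
    exact Set.mem_iUnion.2 ⟨χ, π, h3, h4, h5, hχ⟩
  intro χ
  choose π hπ hπN hπK hπd using fun K : S χ => K.2
  have hFF : ∀ (K : S χ) (a b : A), (QuotientGroup.mk a : A ⧸ N) = QuotientGroup.mk b →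
      FF (π K a : Matrix (Fin d) (Fin d) ℂ) = FF (π K b : Matrix (Fin d) (Fin d) ℂ) := by
    intro K a b hab
    rw [QuotientGroup.eq] at hab
    obtain ⟨c, hc⟩ := hπN K _ hab
    have h3 : (π K b : Matrix (Fin d) (Fin d) ℂ) = c • (π K a : Matrix (Fin d) (Fin d) ℂ) := by
      have h4 : π K b = π K a * π K (a⁻¹ * b) := by rw [← map_mul, mul_inv_cancel_left]
      rw [h4]
      show (π K a : Matrix (Fin d) (Fin d) ℂ) * (π K (a⁻¹ * b) : Matrix (Fin d) (Fin d) ℂ) = _
      rw [hc, Matrix.mul_smul, Matrix.mul_one]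
    have h5 := Matrix.mem_unitaryGroup_iff.1 (π K (a⁻¹ * b)).2
    rw [hc, Matrix.star_eq_conjTranspose, Matrix.conjTranspose_smul, Matrix.conjTranspose_one,
      Matrix.smul_mul, Matrix.one_mul, smul_smul] at h5
    funext i j k l
    have h6 := congrFun (congrFun h5 i) i
    rw [Matrix.smul_apply, Matrix.one_apply_eq, smul_eq_mul, mul_one] at h6
    have h7 : c * starRingEnd ℂ c = 1 := h6
    simp only [FF]
    rw [h3]
    simp only [Matrix.smul_apply, smul_eq_mul, map_mul]
    linear_combination (-((π K a : Matrix (Fin d) (Fin d) ℂ) i j) *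
      starRingEnd ℂ ((π K a : Matrix (Fin d) (Fin d) ℂ) k l)) * h7
  have cπ : ∀ K, Continuous fun a => (π K a : Matrix (Fin d) (Fin d) ℂ) := fun K =>
    continuous_subtype_val.comp (hπ K)
  let G : S χ → C(A ⧸ N, Fin d → Fin d → Fin d → Fin d → ℂ) := fun K =>
    ⟨fun q => Quotient.lift (fun a => FF (π K a : Matrix (Fin d) (Fin d) ℂ)) (fun a b hab => hFF K a b
      (Quotient.sound hab)) q, Continuous.quotient_lift (FF_cont.comp (cπ K)) _⟩
  have hG : ∀ K a, G K (QuotientGroup.mk a) = FF (π K a : Matrix (Fin d) (Fin d) ℂ) := fun K a => rfl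
  -- if two of them are near then the kernels agree
  have hnear : ∀ K L : S χ, dist (G K) (G L) < ε → K = L := by
    intro K L hKL
    apply Subtype.ext
    rw [← hπK K, ← hπK L]
    apply inter2 (π K) (π L) (hπ K) (hπ L) δ hδ hδ'
    intro a h4
    have h5 := hgap _ _ (π K a).2 (π L a).2 ((hπd K a).symm.trans (hπd L a)) h4
    have h6 := ContinuousMap.dist_apply_le_dist (f := G K) (g := G L) (QuotientGroup.mk a)
    rw [hG, hG, dist_eq_norm] at h6
    linarith
  have hsc : SecondCountableTopology C(A ⧸ N, Fin d → Fin d → Fin d → Fin d → ℂ) := inferInstance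
  have hnon : Nonempty C(A ⧸ N, Fin d → Fin d → Fin d → Fin d → ℂ) := ⟨0⟩
  have h3 : ∀ K : S χ, ∃ n : ℕ, dist (G K) (TopologicalSpace.denseSeq _ n) < ε / 2 := by
    intro K
    obtain ⟨y, hn, ⟨n, rfl⟩⟩ := Metric.dense_iff.1 (TopologicalSpace.denseRange_denseSeq
      C(A ⧸ N, Fin d → Fin d → Fin d → Fin d → ℂ)) (G K) (ε / 2) (half_pos hε)
    exact ⟨n, by rw [dist_comm]; exact hn⟩
  choose n hn using h3
  have hinj : Function.Injective n := by
    intro K L h4
    apply hnear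
    have h5 := hn K
    have h6 := hn L
    rw [← h4] at h6
    have h7 := dist_triangle_right (G K) (G L) (TopologicalSpace.denseSeq _ (n K))
    linarith
  exact Set.countable_coe_iff.1 hinj.countable

end Pool.Agent.H57C.ZZ

namespace Pool.Agent.H57C

open Topology Matrix

/-- **Z** -/
theorem s_z : S_Z := by
  intro A _ _ _ _ _ _ N hN hNc h2 hch
  classical
  let I : Type := Σ d : ℕ, {K : Subgroup A | ∃ π : A →* Matrix.unitaryGroup (Fin d) ℂ, Continuous π ∧
      (∀ n ∈ N, ∃ c : ℂ, (π n : Matrix (Fin d) (Fin d) ℂ) = c • (1 : Matrix (Fin d) (Fin d) ℂ)) ∧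
        π.ker = K}
  have hI : ∀ d : ℕ, Countable {K : Subgroup A | ∃ π : A →* Matrix.unitaryGroup (Fin d) ℂ, Continuous π ∧
      (∀ n ∈ N, ∃ c : ℂ, (π n : Matrix (Fin d) (Fin d) ℂ) = c • (1 : Matrix (Fin d) (Fin d) ℂ)) ∧
        π.ker = K} := fun d => (ZZ.ker_countable A N hN hNc h2 hch d).to_subtype
  have : Countable I := inferInstanceAs (Countable (Σ d : ℕ, _))
  choose π hπ hπN hπK using fun i : I => i.2.2
  let f : A → ∀ i : I, Fin i.1 → Fin i.1 → ℂ := fun a i => (π i a : Matrix (Fin i.1) (Fin i.1) ℂ)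
  have hf : Continuous f := continuous_pi fun i => continuous_subtype_val.comp (hπ i)
  have hinj : Function.Injective f := by
    intro a b hab
    by_contra hne
    obtain ⟨d, ρ, h3, h4, h5⟩ := ZZ.central (a⁻¹ * b) (fun h => hne (inv_mul_eq_one.1 h))
    let i : I := ⟨d, ρ.ker, ρ, h3, fun n hn => h5 n (hNc hn), rfl⟩
    have h6 : π i a = π i b := Subtype.ext (congrFun hab i)
    have h7 : a⁻¹ * b ∈ (π i).ker := by
      rw [MonoidHom.mem_ker, map_mul, map_inv, h6, inv_mul_cancel]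
    rw [hπK i] at h7
    exact h4 h7
  exact (hf.isClosedEmbedding hinj).isEmbedding.secondCountableTopology

end Pool.Agent.H57C
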