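import Pool.Agent.H57C.B
import Pool.Agent.H57C.CaseA
import Pool.Agent.H57C.Conn
import Pool.Agent.H57C.Z
import Pool.Agent.H57C.Inv
import Pool.Agent.H57C.Simp
import Pool.Agent.H57C.PartTwoB

/-!
# Project CG: assembly (helper57)
-/

set_option autoImplicit false

namespace Pool.Agent.H57C

open Topology Set Cardinal

section

variable {G : Type} [Group G] [TopologicalSpace G] [IsTopologicalGroup G] [CompactSpace G]
  [T2Space G]

/-- a countable intersection of closed normal subgroups with second countable quotients -/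
theorem second_inf {ι : Type} [Countable ι] (K : ι → Subgroup G) (hc : ∀ i, IsClosed (K i : Set G))
    (h2 : ∀ i, SecondCountableTopology (G ⧸ K i)) (hn : ∀ i, (K i).Normal) :
    SecondCountableTopology (G ⧸ ⨅ i, K i) := by
  have hT2 : ∀ i, T2Space (G ⧸ K i) := fun i => by
    have := hc i
    infer_instance
  refine CR.s_cr G (⨅ i, K i) ι (fun i => G ⧸ K i) (fun i x => (x : G ⧸ K i))
    (fun i => QuotientGroup.continuous_mk) ?_ ?_
  · intro i x y h
    exact QuotientGroup.eq.2 (Subgroup.mem_iInf.1 h i)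
  · intro x y h
    exact Subgroup.mem_iInf.2 fun i => QuotientGroup.eq.1 (h i)

/-- **Case C.** -/
theorem case_c (hON : (ON G).Countable)
    (hact : ∀ N : Subgroup G, N.Normal → IsClosed (N : Set G) → SecondCountableTopology (G ⧸ N) →
      Acts G N) : HasInd G := by
  classical
  obtain ⟨I, _, f, hI, hwf, hct, hf⟩ := rec_seq
    (X := {C : Subgroup G // C.Normal ∧ IsClosed (C : Set G) ∧ SecondCountableTopology (G ⧸ C)})
    (fun S C => IsOpen ((sInf (ON G) ⊔ C.1 : Subgroup G) : Set G) ∧
      ¬ ((⨅ D : S, D.1.1) ⊓ sInf (ON G) ≤ C.1) ∧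
      ∀ Y : Subgroup G, Y.Normal → IsClosed (Y : Set G) → C.1 < Y → Y ≤ sInf (ON G) ⊔ C.1 →
        Y = sInf (ON G) ⊔ C.1) (by
    intro S hS
    have : Countable S := hS.to_subtype
    have hn : (⨅ D : S, D.1.1).Normal := by
      refine ⟨fun x hx g => ?_⟩
      rw [Subgroup.mem_iInf] at hx ⊢
      intro D
      exact D.1.2.1.conj_mem x (hx D) g
    have hc : IsClosed ((⨅ D : S, D.1.1 : Subgroup G) : Set G) := by
      rw [Subgroup.coe_iInf]
      exact isClosed_iInter fun D => D.1.2.2.1
    have h2 := second_inf (fun D : S => D.1.1) (fun D => D.1.2.2.1) (fun D => D.1.2.2.2)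
      (fun D => D.1.2.1)
    obtain ⟨C, h3, h4, h5, h6, h7, h8⟩ := s_simp s_inv s_open G _ hn (hact _ hn hc h2)
    exact ⟨⟨C, h3, h4, h5⟩, h6, h7, h8⟩)
  refine hasInd_of_seq hON B.core_normal I hI hwf hct (fun i => (f i).1) (fun i => (f i).2.1)
    (fun i => (f i).2.2.1) (fun i => (f i).2.2.2) (fun i => (hf i).1) ?_ ?_
  · intro i h
    exact (hf i).2.1 (inf_le_right.trans h)
  · intro i F hF _
    obtain ⟨N, hN⟩ : ∃ N : Subgroup G, N = ⨅ D : (f '' Set.Iio i), D.1.1 := ⟨_, rfl⟩
    obtain ⟨h1, h2, h3⟩ := hf i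
    rw [← hN] at h2
    have hNn : N.Normal := by
      rw [hN]
      refine ⟨fun x hx g => ?_⟩
      rw [Subgroup.mem_iInf] at hx ⊢
      intro D
      exact D.1.2.1.conj_mem x (hx D) g
    have hNc : IsClosed (N : Set G) := by
      rw [hN, Subgroup.coe_iInf]
      exact isClosed_iInter fun D => D.1.2.2.1
    have hNF : N ≤ ⨅ j ∈ F, (f j).1 := by
      rw [hN]
      refine le_iInf₂ fun j hj => ?_
      exact iInf_le (fun D : (f '' Set.Iio i) => D.1.1) ⟨f j, j, hF j hj, rfl⟩
    have hAn : (sInf (ON G) : Subgroup G).Normal := B.core_normal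
    have hCn := (f i).2.1
    have hAc : IsClosed ((sInf (ON G) : Subgroup G) : Set G) := B.core_closed
    have hYc : IsClosed (((f i).1 ⊔ N ⊓ sInf (ON G) : Subgroup G) : Set G) := by
      rw [Subgroup.mul_normal]
      exact ((f i).2.2.1.isCompact.mul (hNc.inter hAc).isCompact).isClosed
    have h4 := h3 ((f i).1 ⊔ N ⊓ sInf (ON G)) inferInstance hYc
      (left_lt_sup.2 h2) (sup_le le_sup_right (inf_le_right.trans le_sup_left))
    rw [← h4]
    exact sup_le le_sup_left ((inf_le_left.trans hNF).trans le_sup_right)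

/-- **Part (1).** -/
theorem part_one (h : ¬ SecondCountableTopology G) : HasInd G := by
  classical
  by_cases hON : (ON G).Countable
  swap
  · exact CaseA.s_a G hON
  by_cases hact : ∀ N : Subgroup G, N.Normal → IsClosed (N : Set G) →
      SecondCountableTopology (G ⧸ N) → Acts G N
  · exact case_c hON hact
  push Not at hact
  obtain ⟨N, hN, hNc, hN2, hna⟩ := hact
  have hcent := s_cent G N hN hna
  obtain ⟨A, hAe⟩ : ∃ A : Subgroup G, A = sInf (ON G) := ⟨_, rfl⟩
  have hAn : A.Normal := hAe ▸ B.core_normal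
  have hAc : IsClosed (A : Set G) := hAe ▸ B.core_closed
  have hAcomp : CompactSpace A := isCompact_iff_compactSpace.1 hAc.isCompact
  have hpre : PreconnectedSpace A := Subtype.preconnectedSpace (hAe ▸ s_conn G)
  have hGA : SecondCountableTopology (G ⧸ A) := by
    have : Countable (ON G) := hON.to_subtype
    have h1 := second_inf (fun U : ON G => U.1) (fun U => on_closed U.2) (fun U => by
      have h1 : DiscreteTopology (G ⧸ U.1) := QuotientGroup.discreteTopology U.2.2
      have h2 : Finite (G ⧸ U.1) := finite_of_compact_of_discrete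
      infer_instance) (fun U => U.2.1)
    rw [← sInf_eq_iInf'] at h1
    rw [hAe]
    exact h1
  have hA : ¬ SecondCountableTopology A := fun hA => h (CR.s_ext G A hAn hAc hA hGA)
  have hNA : IsClosed (N.subgroupOf A : Set A) := hNc.preimage continuous_subtype_val
  have hT2 : T2Space (G ⧸ N) := inferInstance
  have h2 : SecondCountableTopology (A ⧸ N.subgroupOf A) := by
    refine CR.s_cr A (N.subgroupOf A) Unit (fun _ => G ⧸ N) (fun _ a => ((a : G) : G ⧸ N))
      (fun _ => QuotientGroup.continuous_mk.comp continuous_subtype_val) ?_ ?_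
    · intro _ x y h
      exact QuotientGroup.eq.2 (Subgroup.mem_subgroupOf.1 h)
    · intro x y h
      exact Subgroup.mem_subgroupOf.2 (QuotientGroup.eq.1 (h ()))
  have hz : N.subgroupOf A ≤ Subgroup.center A := by
    intro a ha
    rw [Subgroup.mem_center_iff]
    intro b
    apply Subtype.ext
    have h1 : (a : G) ∈ N ⊓ sInf (ON G) := ⟨Subgroup.mem_subgroupOf.1 ha, hAe ▸ a.2⟩
    exact (hcent a h1 b (hAe ▸ b.2)).symm
  have hunc : Uncountable (A →ₜ* Circle) := by
    refine ⟨fun hcount => hA ?_⟩
    exact s_z A (N.subgroupOf A) hNA hz h2 hcount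
  have h3 := B.s_b s_conn s_stab G hON
  rw [← hAe] at h3
  exact h3 hunc

/-- a compact group all of whose `G_δ`-dense subgroups are projectively `w`-compact -/
theorem metrizable_of_projWCompact (h : ∀ D : Subgroup G, GdDense D → ProjWCompact D) :
    TopologicalSpace.MetrizableSpace G := by
  have h2 : SecondCountableTopology G := by
    by_contra h2
    obtain ⟨D, hD, hD2⟩ := part_two G (part_one h2)
    exact hD2 (h D hD)
  exact TopologicalSpace.metrizableSpace_of_t3_secondCountable G

end

/-- the weight is a topological invariant -/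
theorem weight_le_of_homeo {X Y : Type} [TopologicalSpace X] [TopologicalSpace Y] (e : X ≃ₜ Y) :
    weight X ≤ weight Y := by
  have hne : {κ | ∃ B : Set (Set Y), TopologicalSpace.IsTopologicalBasis B ∧ #B = κ}.Nonempty :=
    ⟨_, _, TopologicalSpace.isTopologicalBasis_opens, rfl⟩
  obtain ⟨B, hB, hBc⟩ := csInf_mem hne
  have h1 : #(Set.preimage e '' B) ≤ weight Y := by
    refine Cardinal.mk_image_le.trans ?_
    exact hBc.le
  refine le_trans (csInf_le' ?_) h1
  exact ⟨_, hB.isInducing e.isInducing, rfl⟩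

theorem weight_homeo {X Y : Type} [TopologicalSpace X] [TopologicalSpace Y] (e : X ≃ₜ Y) :
    weight X = weight Y :=
  le_antisymm (weight_le_of_homeo e) (weight_le_of_homeo e.symm)

theorem projWCompact_of_metrizable {G : Type} [Group G] [TopologicalSpace G]
    [CompactSpace G] (hm : TopologicalSpace.MetrizableSpace G)
    (D : Subgroup G) (hD : GdDense D) : ProjWCompact D := by
  have htop : ∀ x : G, x ∈ D := by
    intro x
    obtain ⟨y, hy, hyD⟩ := hD {x} (IsGδ.singleton x) ⟨x, rfl⟩
    rw [mem_singleton_iff] at hy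
    rw [← hy]
    exact hyD
  intro H _ _ _ _ f hf hs
  have hDc : CompactSpace D := by
    have h1 : IsCompact (D : Set G) := by
      have h2 : (D : Set G) = Set.univ := eq_univ_of_forall htop
      rw [h2]
      exact isCompact_univ
    exact isCompact_iff_compactSpace.1 h1
  have hH : CompactSpace H := by
    have h1 := isCompact_range hf
    rw [hs.range_eq] at h1
    exact isCompact_univ_iff.1 h1
  exact ⟨Set.univ, isCompact_univ, weight_homeo (Homeomorph.Set.univ H)⟩

end Pool.Agent.H57C
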