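import Pool.Agent.H57C.Core

/-!
# The generators (helper57)
-/

set_option autoImplicit false
set_option linter.unusedSectionVars false

namespace Pool.Agent.H57C

open Topology Cardinal Set Filter

section

variable {G T I : Type} [Group G] (τ : T → G) (L : Subgroup G) (C : I → Subgroup G)

/-- patterns: a level and a word in the cells of this level -/
abbrev Pat (T : Type) : Type := Σ m : ℕ, FreeGroup (T ⊕ (Fin m → Bool))

/-- the indices where the pattern is not a law -/
def Js (p : Pat T) : Set I := {j | ∃ v : (Fin p.1 → Bool) → G, (∀ c, v c ∈ L) ∧ ev τ v p.2 ∉ C j}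

end

section

variable {G T I : Type} [Group G] [TopologicalSpace G] [IsTopologicalGroup G]
  [CompactSpace G] [T2Space G] [LinearOrder I] [WellFoundedLT I] [Uncountable I] [Countable T]

/-- second countable Hausdorff spaces have at most continuum many points -/
theorem card_le (X : Type) [TopologicalSpace X] [T2Space X] [SecondCountableTopology X] :
    #X ≤ 𝔠 := by
  classical
  have h1 : Function.Injective fun x : X =>
      {U : TopologicalSpace.countableBasis X | x ∈ (U : Set X)} := by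
    intro x y hxy
    by_contra hne
    obtain ⟨U, hU, hxU, hyU⟩ : ∃ U ∈ TopologicalSpace.countableBasis X, x ∈ U ∧ y ∉ U := by
      obtain ⟨V, W, hV, -, hxV, hyW, hVW⟩ := t2_separation hne
      obtain ⟨U, hU, hxU, hUV⟩ := (TopologicalSpace.isBasis_countableBasis X).exists_subset_of_mem_open hxV hV
      exact ⟨U, hU, hxU, fun h => Set.disjoint_left.1 hVW (hUV h) hyW⟩
    have h2 : (⟨U, hU⟩ : TopologicalSpace.countableBasis X) ∈
        {U : TopologicalSpace.countableBasis X | x ∈ (U : Set X)} := hxU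
    have h3 : {U : TopologicalSpace.countableBasis X | x ∈ (U : Set X)} =
        {U : TopologicalSpace.countableBasis X | y ∈ (U : Set X)} := hxy
    rw [h3] at h2
    exact hyU h2
  refine (Cardinal.mk_le_of_injective h1).trans ?_
  rw [Cardinal.mk_set, ← Cardinal.two_power_aleph0]
  refine Cardinal.power_le_power_left two_ne_zero ?_
  exact Cardinal.mk_le_aleph0_iff.2 (TopologicalSpace.countable_countableBasis X)

theorem card_index (hI : ∀ i : I, (Set.Iio i).Countable) : #I ≤ ℵ₁ := by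
  have h1 : ℵ₁ ≤ #I := by
    rw [← Cardinal.succ_aleph0, Order.succ_le_iff]
    exact Cardinal.aleph0_lt_mk
  obtain ⟨S, hS⟩ := Cardinal.le_mk_iff_exists_set.1 h1
  have h2 : (Set.univ : Set I) ⊆ ⋃ s : S, Set.Iic (s : I) := by
    intro γ _
    by_contra hc
    have h3 : S ⊆ Set.Iio γ := by
      intro s hs
      by_contra h4
      exact hc (Set.mem_iUnion.2 ⟨⟨s, hs⟩, not_lt.1 h4⟩)
    have h5 : S.Countable := (hI γ).mono h3
    rw [← Cardinal.le_aleph0_iff_set_countable, hS] at h5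
    exact absurd h5 (not_le.2 Cardinal.aleph0_lt_aleph_one)
  calc #I = #(Set.univ : Set I) := Cardinal.mk_univ.symm
    _ ≤ #(⋃ s : S, Set.Iic (s : I)) := Cardinal.mk_le_mk_of_subset h2
    _ ≤ Cardinal.sum fun s : S => #(Set.Iic (s : I)) := Cardinal.mk_iUnion_le_sum_mk
    _ ≤ Cardinal.sum fun _ : S => ℵ₀ := by
      refine Cardinal.sum_le_sum _ _ fun s => ?_
      rw [Cardinal.le_aleph0_iff_set_countable, ← Set.Iio_insert]
      exact (hI s).insert _
    _ = ℵ₁ * ℵ₀ := by rw [Cardinal.sum_const, Cardinal.lift_id, Cardinal.lift_id, hS]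
    _ = ℵ₁ := Cardinal.mul_aleph0_eq Cardinal.aleph0_lt_aleph_one.le

/-- the existence of the generators -/
theorem exists_gen (href : S_REF) (hsurj : S_SURJ) (hI : ∀ i : I, (Set.Iio i).Countable)
    (τ : T → G) (L : Subgroup G) (C : I → Subgroup G) (hInd : Ind G L I C)
    (hJ : ∀ p : Pat T, Js τ L C p = ∅ ∨ ¬ (Js τ L C p).Countable)
    (B : Set (ℕ → Bool)) (hB : #B = 𝔠) :
    ∃ x R, Gen G T I τ L C B x R := by
  classical
  have hN : ∀ j, (C j).Normal := hInd.norm
  -- the assignment of the patterns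
  have hne : Nonempty (Pat T) := ⟨⟨0, 1⟩⟩
  obtain ⟨π, hπ⟩ := href I (Pat T) hI
    (fun p => if (Js τ L C p).Countable then Set.univ else Js τ L C p) (by
      intro p
      show ¬ (if (Js τ L C p).Countable then Set.univ else Js τ L C p).Countable
      split_ifs with h
      · exact Set.not_countable_univ
      · exact h)
  have hπ' : ∀ p, (Js τ L C p).Nonempty → ∀ α : I, ∃ j, α < j ∧ j ∈ Js τ L C p ∧ π j = p := by
    intro p hp α
    have h1 : ¬ (Js τ L C p).Countable := by
      rcases hJ p with h | h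
      · rw [h] at hp
        exact absurd hp Set.not_nonempty_empty
      · exact h
    have h2 := hπ p
    simp only [if_neg h1] at h2
    by_contra hc
    push Not at hc
    apply h2
    refine ((hI α).insert α).mono ?_
    rintro j ⟨hj1, hj2⟩
    rcases lt_trichotomy α j with h | h | h
    · exact absurd hj2 (hc j h hj1)
    · exact Or.inl h.symm
    · exact Or.inr h
  -- the functions R
  let cellv : ∀ j : I, (Fin (π j).1 → Bool) → G := fun j =>
    if h : j ∈ Js τ L C (π j) then h.choose else fun _ => 1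
  have hcellL : ∀ j c, cellv j c ∈ L := by
    intro j c
    show (if h : j ∈ Js τ L C (π j) then h.choose else fun _ => 1) c ∈ L
    split_ifs with h
    · exact h.choose_spec.1 c
    · exact L.one_mem
  have hcellne : ∀ j, j ∈ Js τ L C (π j) → ev τ (cellv j) (π j).2 ∉ C j := by
    intro j h
    show ev τ (if h : j ∈ Js τ L C (π j) then h.choose else fun _ => 1) (π j).2 ∉ C j
    rw [dif_pos h]
    exact h.choose_spec.2
  let R : I → (ℕ → Bool) → G := fun j ρ => cellv j fun a => ρ a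
  -- the targets
  let Tgt : Type := Σ α : I, ∀ j : Set.Iio α, G ⧸ C j.1
  have hcard : #Tgt ≤ #B := by
    rw [hB]
    have hIc : #I ≤ 𝔠 := by
      exact (card_index hI).trans Cardinal.aleph_one_le_continuum
    have h2 : ∀ α : I, #(∀ j : Set.Iio α, G ⧸ C j.1) ≤ 𝔠 := by
      intro α
      rw [Cardinal.mk_pi]
      have h3 : ∀ j : Set.Iio α, #(G ⧸ C j.1) ≤ 𝔠 := by
        intro j
        have := hInd.closed j.1
        have := hInd.metr j.1
        exact card_le (G ⧸ C j.1)
      refine (Cardinal.prod_le_prod _ (fun _ => 𝔠) h3).trans ?_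
      rw [Cardinal.prod_const, Cardinal.lift_id, Cardinal.lift_id]
      have h4 : #(Set.Iio α) ≤ ℵ₀ := Cardinal.le_aleph0_iff_set_countable.2 (hI α)
      refine (Cardinal.power_le_power_left Cardinal.continuum_ne_zero h4).trans ?_
      rw [Cardinal.continuum_power_aleph0]
    calc #Tgt = Cardinal.sum fun α : I => #(∀ j : Set.Iio α, G ⧸ C j.1) := Cardinal.mk_sigma _
      _ ≤ Cardinal.sum fun _ : I => 𝔠 := Cardinal.sum_le_sum _ _ h2
      _ = #I * 𝔠 := by rw [Cardinal.sum_const, Cardinal.lift_id, Cardinal.lift_id]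
      _ ≤ 𝔠 * 𝔠 := mul_le_mul_left hIc 𝔠
      _ = 𝔠 := Cardinal.continuum_mul_self
  have hTne : Nonempty Tgt := by
    obtain ⟨α⟩ := (inferInstance : Nonempty I)
    exact ⟨⟨α, fun j => 1⟩⟩
  obtain ⟨e⟩ := Cardinal.le_def _ _ |>.1 hcard
  let f : B → Tgt := Function.invFun e
  have hf : Function.Surjective f := Function.invFun_surjective e.injective
  -- the prescribed values
  let val : (ℕ → Bool) → I → G := fun ρ j =>
    if hρ : ρ ∈ B then
      if hj : j < (f ⟨ρ, hρ⟩).1 then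
        if hl : ∃ l ∈ L, ((l : G) : G ⧸ C j) = (f ⟨ρ, hρ⟩).2 ⟨j, hj⟩ then hl.choose else 1
      else R j ρ
    else 1
  have hvalL : ∀ ρ j, val ρ j ∈ L := by
    intro ρ j
    show (if hρ : ρ ∈ B then
      if hj : j < (f ⟨ρ, hρ⟩).1 then
        if hl : ∃ l ∈ L, ((l : G) : G ⧸ C j) = (f ⟨ρ, hρ⟩).2 ⟨j, hj⟩ then hl.choose else 1
      else R j ρ
    else 1) ∈ L
    split_ifs with h1 h2 h3
    · exact h3.choose_spec.1
    · exact L.one_mem
    · exact hcellL _ _
    · exact L.one_mem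
  have hx : ∀ ρ, ∃ g ∈ L, ∀ i, (val ρ i)⁻¹ * g ∈ C i := fun ρ =>
    hsurj G L I C hInd (val ρ) (hvalL ρ)
  choose x hxL hxC using hx
  refine ⟨x, R, fun ρ _ => hxL ρ, ?_, ?_, ?_, ?_⟩
  · intro ρ hρ
    refine ⟨(f ⟨ρ, hρ⟩).1, fun j hj => ?_⟩
    have h1 := hxC ρ j
    have h2 : val ρ j = R j ρ := by
      show (if hρ : ρ ∈ B then
        if hj : j < (f ⟨ρ, hρ⟩).1 then
          if hl : ∃ l ∈ L, ((l : G) : G ⧸ C j) = (f ⟨ρ, hρ⟩).2 ⟨j, hj⟩ then hl.choose else 1
        else R j ρ
      else 1) = R j ρ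
      rw [dif_pos hρ, dif_neg (not_lt.2 hj.le)]
    rwa [h2] at h1
  · intro α n hn
    obtain ⟨ρ, hρ⟩ := hf ⟨α, fun j => ((n j.1 : G) : G ⧸ C j.1)⟩
    refine ⟨ρ, ρ.2, fun j hj => ?_⟩
    have h1 := hxC ρ j
    have hj' : j < (f ρ).1 := by rw [hρ]; exact hj
    have h3 : ((n j : G) : G ⧸ C j) = (f ρ).2 ⟨j, hj'⟩ := by
      have : ∀ q : Tgt, q = ⟨α, fun j => ((n j.1 : G) : G ⧸ C j.1)⟩ → ∀ hj : j < q.1,
          ((n j : G) : G ⧸ C j) = q.2 ⟨j, hj⟩ := by
        rintro q rfl hj
        rfl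
      exact this _ hρ hj'
    have hl : ∃ l ∈ L, ((l : G) : G ⧸ C j) = (f ρ).2 ⟨j, hj'⟩ := ⟨n j, hn j, h3⟩
    have h2 : val ρ j = hl.choose := by
      show (if hρ : (ρ : ℕ → Bool) ∈ B then
        if hj : j < (f ⟨ρ, hρ⟩).1 then
          if hl : ∃ l ∈ L, ((l : G) : G ⧸ C j) = (f ⟨ρ, hρ⟩).2 ⟨j, hj⟩ then hl.choose else 1
        else R j ρ
      else 1) = _
      rw [dif_pos ρ.2, dif_pos hj', dif_pos hl]
    rw [h2] at h1
    have h4 := hl.choose_spec.2.trans h3.symm
    rw [QuotientGroup.eq] at h4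
    have h5 : (n j)⁻¹ * x ρ = (hl.choose⁻¹ * n j)⁻¹ * (hl.choose⁻¹ * x ρ) := by group
    rw [h5]
    exact (C j).mul_mem ((C j).inv_mem h4) h1
  · intro j
    refine ⟨(π j).1, fun ρ ρ' h => ?_⟩
    show cellv j (fun a => ρ a) = cellv j (fun a => ρ' a)
    congr 1
    funext a
    exact h a a.2
  · rintro u ⟨j, v, hvL, hv⟩ α
    obtain ⟨k, w, ρ, hρ, rfl⟩ := exists_fin u
    -- a level separating the variables
    have hsep : ∃ m : ℕ, Function.Injective fun (s : Fin k) (a : Fin m) => ρ s a := by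
      have h3 : ∀ p : Fin k × Fin k, ∃ n : ℕ, p.1 ≠ p.2 → ρ p.1 n ≠ ρ p.2 n := by
        intro p
        by_cases hp : p.1 = p.2
        · exact ⟨0, fun h => absurd hp h⟩
        · have h4 : ρ p.1 ≠ ρ p.2 := fun h => hp (hρ h)
          obtain ⟨n, hn⟩ := Function.ne_iff.1 h4
          exact ⟨n, fun _ => hn⟩
      choose n hn using h3
      refine ⟨(Finset.univ.sup n) + 1, ?_⟩
      intro s s' hss
      by_contra hne
      have h5 : n (s, s') < (Finset.univ.sup n) + 1 :=
        Nat.lt_succ_of_le (Finset.le_sup (Finset.mem_univ _))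
      exact hn (s, s') hne (congrFun hss ⟨n (s, s'), h5⟩)
    obtain ⟨m, hm⟩ := hsep
    let r : (ℕ → Bool) → (Fin m → Bool) := fun q a => q a
    let v' : (Fin m → Bool) → G := fun c => if h : ∃ s, r (ρ s) = c then v (ρ h.choose) else 1
    have hv'L : ∀ c, v' c ∈ L := by
      intro c
      show (if h : ∃ s, r (ρ s) = c then v (ρ h.choose) else 1) ∈ L
      split_ifs with h
      · exact hvL _
      · exact L.one_mem
    have e1 : (v' ∘ r) ∘ ρ = v ∘ ρ := by
      funext s
      have h : ∃ s', r (ρ s') = r (ρ s) := ⟨s, rfl⟩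
      show (if h : ∃ s', r (ρ s') = r (ρ s) then v (ρ h.choose) else 1) = v (ρ s)
      rw [dif_pos h]
      exact congrArg (fun s => v (ρ s)) (hm h.choose_spec)
    let p : Pat T := ⟨m, rn r (rn ρ w)⟩
    have hjp : j ∈ Js τ L C p := by
      refine ⟨v', hv'L, ?_⟩
      show ev τ v' (rn r (rn ρ w)) ∉ C j
      rw [ev_rn, ev_rn, e1, ← ev_rn]
      exact hv
    obtain ⟨j', hj', hj'J, hj'π⟩ := hπ' p ⟨j, hjp⟩ α
    refine ⟨j', hj', ?_⟩
    have h6 : j' ∈ Js τ L C (π j') := by rw [hj'π]; exact hj'J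
    have h7 := hcellne j' h6
    have h8 : ∀ q : Pat T, q = p → ∀ cv : (Fin q.1 → Bool) → G, ev τ cv q.2 ∉ C j' →
        ev τ (fun ρ : ℕ → Bool => cv fun a => ρ a) (rn ρ w) ∉ C j' := by
      rintro q rfl cv hcv
      have h9 : ev τ cv (rn r (rn ρ w)) ∉ C j' := hcv
      rw [ev_rn] at h9
      exact h9
    exact h8 _ hj'π _ h7

end

end Pool.Agent.H57C
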