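import Pool.Agent.H57C.Stm

/-!
# Project CG, pieces GREEDY, REF, BER (helper69): well-founded recursion, disjoint refinement, a Bernstein set
-/

set_option autoImplicit false

namespace Pool.Agent.H57C

open Topology Cardinal Set

theorem s_greedy : S_GREEDY := by
  classical
  intro X Y _ _ κ h J hJ
  have key : ∀ (x : X) (f : (y : X) → y < x → Y), ∃ b ∈ J x, ∀ y (hy : y < x), b ≠ f y hy := by
    intro x f
    by_contra hcon
    push Not at hcon
    have h1 : J x ⊆ Set.range (fun y : Set.Iio x => f y.1 y.2) := by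
      intro b hb
      obtain ⟨y, hy, e⟩ := hcon b hb
      exact ⟨⟨y, hy⟩, e.symm⟩
    have h2 : #(J x) ≤ #(Set.Iio x) := (Cardinal.mk_le_mk_of_subset h1).trans Cardinal.mk_range_le
    exact absurd ((hJ x).trans h2) (not_le.2 (h x))
  let F : (x : X) → ((y : X) → y < x → Y) → Y := fun x f => (key x f).choose
  let a : X → Y := WellFounded.fix (wellFounded_lt (α := X)) F
  have ha : ∀ x, a x = F x fun y _ => a y := fun x => WellFounded.fix_eq _ F x
  have ha1 : ∀ x, a x ∈ J x := by
    intro x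
    rw [ha]
    exact (key x fun y _ => a y).choose_spec.1
  have ha2 : ∀ x y, y < x → a x ≠ a y := by
    intro x y hy
    have := (key x fun y _ => a y).choose_spec.2 y hy
    rw [ha x]
    exact this
  refine ⟨a, ?_, ha1⟩
  intro x y e
  rcases lt_trichotomy x y with h1 | h1 | h1
  · exact absurd e.symm (ha2 y x h1)
  · exact h1
  · exact absurd e (ha2 x y h1)

theorem s_ref : S_REF := by
  classical
  intro I P _ _ _ _ _ hI J hJ
  obtain ⟨e, he⟩ := exists_surjective_nat P
  -- lexicographic order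
  have hwf : WellFoundedLT (I ×ₗ ℕ) := inferInstance
  have h1 : ∀ x : I ×ₗ ℕ, #(Set.Iio x) < ℵ₁ := by
    intro x
    have hc : (Set.Iio x).Countable := by
      have h2 : Set.Iio x ⊆ (fun q : I × ℕ => toLex q) '' (Set.Iic (ofLex x).1 ×ˢ Set.univ) := by
        intro y hy
        refine ⟨ofLex y, ⟨?_, trivial⟩, rfl⟩
        rcases (Prod.Lex.lt_iff).1 hy with h | h
        · exact h.le
        · exact h.1.le
      refine Set.Countable.mono h2 (Set.Countable.image ?_ _)
      refine Set.Countable.prod ?_ Set.countable_univ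
      have h3 : Set.Iic (ofLex x).1 = insert (ofLex x).1 (Set.Iio (ofLex x).1) := by
        ext y; simp [le_iff_eq_or_lt]
      rw [h3]
      exact (hI _).insert _
    have := Cardinal.le_aleph0_iff_set_countable.2 hc
    exact lt_of_le_of_lt this Cardinal.aleph0_lt_aleph_one
  obtain ⟨a, ha, haJ⟩ := s_greedy (I ×ₗ ℕ) I ℵ₁ h1 (fun x => J (e (ofLex x).2)) (fun x => by
    have h2 := hJ (e (ofLex x).2)
    rw [← Cardinal.le_aleph0_iff_set_countable, not_le] at h2
    rw [← Cardinal.succ_aleph0]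
    exact Order.succ_le_of_lt h2)
  obtain ⟨p₀⟩ := ‹Nonempty P›
  let π : I → P := fun i => if h : ∃ x : I ×ₗ ℕ, a x = i then e (ofLex h.choose).2 else p₀
  have hπ : ∀ x, π (a x) = e (ofLex x).2 := by
    intro x
    have h : ∃ y : I ×ₗ ℕ, a y = a x := ⟨x, rfl⟩
    have h2 : π (a x) = e (ofLex h.choose).2 := dif_pos h
    rw [h2, ha h.choose_spec]
  refine ⟨π, fun p hp => ?_⟩
  obtain ⟨n, hn⟩ := he p
  have h3 : Function.Injective (fun i : I => a (toLex (i, n))) := by
    intro i j hij
    have := ha hij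
    have h4 : ((i, n) : I × ℕ) = (j, n) := this
    exact (Prod.mk.inj h4).1
  have h4 : (Set.range fun i : I => a (toLex (i, n))) ⊆ {i | i ∈ J p ∧ π i = p} := by
    rintro _ ⟨i, rfl⟩
    refine ⟨?_, ?_⟩
    · have := haJ (toLex (i, n))
      rw [← hn]
      exact this
    · rw [hπ]
      exact hn
  have h5 := hp.mono h4
  have h6 : Countable I := by
    have := h5.to_subtype
    exact (Equiv.ofInjective _ h3).countable_iff.2 this
  exact not_countable_iff.2 ‹Uncountable I› h6

theorem card_closed : #{K : Set (ℕ → Bool) // IsClosed K ∧ ¬ K.Countable} ≤ 𝔠 := by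
  classical
  let b := TopologicalSpace.countableBasis (ℕ → Bool)
  have hb : TopologicalSpace.IsTopologicalBasis b := TopologicalSpace.isBasis_countableBasis _
  let f : {K : Set (ℕ → Bool) // IsClosed K ∧ ¬ K.Countable} → Set b := fun K => {U | (U : Set (ℕ → Bool)) ⊆ K.1ᶜ}
  have hf : Function.Injective f := by
    intro K K' h
    apply Subtype.ext
    rw [← compl_inj_iff]
    have h1 : ∀ K : {K : Set (ℕ → Bool) // IsClosed K ∧ ¬ K.Countable}, K.1ᶜ = ⋃ U ∈ f K, (U : Set (ℕ → Bool)) := by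
      intro K
      ext x
      constructor
      · intro hx
        obtain ⟨U, hU, hxU, hUK⟩ := hb.exists_subset_of_mem_open hx K.2.1.isOpen_compl
        exact Set.mem_iUnion₂.2 ⟨⟨U, hU⟩, hUK, hxU⟩
      · intro hx
        obtain ⟨U, hU, hxU⟩ := Set.mem_iUnion₂.1 hx
        exact hU hxU
    rw [h1 K, h1 K', h]
  have h2 := Cardinal.mk_le_of_injective hf
  refine h2.trans ?_
  rw [Cardinal.mk_set]
  have h3 : #b ≤ ℵ₀ := Cardinal.le_aleph0_iff_set_countable.2 (TopologicalSpace.countable_countableBasis _)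
  calc (2 : Cardinal) ^ #b ≤ 2 ^ ℵ₀ := Cardinal.power_le_power_left two_ne_zero h3
    _ = 𝔠 := Cardinal.two_power_aleph0

theorem polish_cantor : PolishSpace (ℕ → Bool) := by
  let _ := TopologicalSpace.metrizableSpaceMetric (ℕ → Bool)
  infer_instance

theorem s_ber : S_BER := by
  classical
  have := polish_cantor
  let X : Type := (𝔠 : Cardinal.{0}).ord.ToType
  have hX : #X = 𝔠 := Cardinal.mk_ord_toType _
  have hc : #(ℕ → Bool) = 𝔠 := by simp
  let 𝒦 : Type := {K : Set (ℕ → Bool) // IsClosed K ∧ ¬ K.Countable}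
  have hK0 : ¬ (Set.univ : Set (ℕ → Bool)).Countable := by
    rw [← Cardinal.le_aleph0_iff_set_countable, not_le, Cardinal.mk_univ, hc]
    exact Cardinal.aleph0_lt_continuum
  let K₀ : 𝒦 := ⟨Set.univ, isClosed_univ, hK0⟩
  have h1 : #(𝒦 × Bool × X) ≤ #X := by
    rw [Cardinal.mk_prod, Cardinal.mk_prod, hX]
    simp only [Cardinal.lift_id, Cardinal.mk_bool]
    have h2 : (2 : Cardinal) * 𝔠 ≤ 𝔠 := (Cardinal.nat_mul_continuum (n := 2) (by norm_num)).le
    calc #𝒦 * (2 * 𝔠) ≤ 𝔠 * 𝔠 := mul_le_mul' card_closed h2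
      _ = 𝔠 := Cardinal.continuum_mul_self
  have hne : Nonempty X := by
    rw [← Cardinal.mk_ne_zero_iff, hX]
    exact Cardinal.continuum_ne_zero
  obtain ⟨z₀⟩ := hne
  obtain ⟨g⟩ := h1
  have : Nonempty (𝒦 × Bool × X) := ⟨(K₀, true, z₀)⟩
  let s : X → 𝒦 × Bool × X := Function.invFun g
  have hs : Function.Surjective s := Function.invFun_surjective g.injective
  obtain ⟨a, ha, haJ⟩ := s_greedy X (ℕ → Bool) 𝔠 (fun x => Cardinal.mk_Iio_toType_ord_lt x)
    (fun x => (s x).1.1) (fun x => by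
      obtain ⟨f, hf, -, hfi⟩ := (s x).1.2.1.exists_nat_bool_injection_of_not_countable (s x).1.2.2
      rw [← hc]
      exact Cardinal.mk_le_of_injective (f := fun y => (⟨f y, hf ⟨y, rfl⟩⟩ : (s x).1.1)) fun y y' h =>
        hfi (congrArg Subtype.val h))
  refine ⟨{b | ∃ x, (s x).2.1 = true ∧ a x = b}, le_antisymm ?_ ?_, fun K hK hK' => ?_⟩
  · rw [← hc]
    exact Cardinal.mk_set_le _
  · have h2 : ∀ z : X, ∃ x, s x = (K₀, true, z) := fun z => hs _
    choose t ht using h2
    rw [← hX]
    refine Cardinal.mk_le_of_injective (f := fun z => (⟨a (t z), t z, by rw [ht], rfl⟩ :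
      {b | ∃ x, (s x).2.1 = true ∧ a x = b})) fun z z' h => ?_
    have h3 : a (t z) = a (t z') := congrArg Subtype.val h
    have h4 := ha h3
    have h5 : s (t z) = s (t z') := by rw [h4]
    rw [ht, ht] at h5
    exact (Prod.mk.inj (Prod.mk.inj h5).2).2
  · obtain ⟨x, hx⟩ := hs (⟨K, hK, hK'⟩, false, z₀)
    refine ⟨a x, ?_, ?_⟩
    · have := haJ x
      simp only [hx] at this
      exact this
    · rintro ⟨y, hy, e⟩
      have := ha e
      rw [this, hx] at hy
      exact Bool.false_ne_true hy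

end Pool.Agent.H57C
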