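import Pool.Agent.H57C.Stm

/-!
# OPEN and CENT of project CG (helper15)
-/

set_option autoImplicit false
set_option linter.unusedSectionVars false

namespace Pool.Agent.H57C

open Topology Filter Set
open Pool.Agent.E8helper46.FL (ex lieAlg near_one)

section gen

variable {G : Type} [Group G] [TopologicalSpace G] [IsTopologicalGroup G] [CompactSpace G]

theorem on_top : (⊤ : Subgroup G) ∈ ON G := ⟨inferInstance, isOpen_univ⟩

theorem on_inf {U V : Subgroup G} (hU : U ∈ ON G) (hV : V ∈ ON G) : U ⊓ V ∈ ON G := by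
  obtain ⟨h1, h2⟩ := hU
  obtain ⟨h3, h4⟩ := hV
  exact ⟨inferInstance, h2.inter h4⟩

theorem on_closed {U : Subgroup G} (hU : U ∈ ON G) : IsClosed (U : Set G) :=
  Subgroup.isClosed_of_isOpen U hU.2

theorem on_index {U : Subgroup G} (hU : U ∈ ON G) : U.index ≠ 0 := by
  have : Finite (G ⧸ U) := by
    have h1 : DiscreteTopology (G ⧸ U) := QuotientGroup.discreteTopology hU.2
    exact finite_of_compact_of_discrete
  have h2 : U.FiniteIndex := Subgroup.finiteIndex_of_finite_quotient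
  exact h2.index_ne_zero

theorem on_pow {U : Subgroup G} (hU : U ∈ ON G) (g : G) : g ^ U.index ∈ U := by
  have := hU.1
  exact Subgroup.pow_index_mem U g

theorem core_mem {x : G} : x ∈ (sInf (ON G) : Subgroup G) ↔ ∀ U ∈ ON G, x ∈ U :=
  Subgroup.mem_sInf

theorem core_conj {x : G} (hx : x ∈ (sInf (ON G) : Subgroup G)) (g : G) :
    g * x * g⁻¹ ∈ (sInf (ON G) : Subgroup G) := by
  rw [core_mem] at hx ⊢
  intro U hU
  exact hU.1.conj_mem x (hx U hU) g

end gen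

section open_

variable {G : Type} [Group G] [TopologicalSpace G] [IsTopologicalGroup G] [CompactSpace G]
  [T2Space G] {E : Type} [NormedRing E] [NormedAlgebra ℝ E]
  [FiniteDimensional ℝ E] [CompleteSpace E]

theorem range_closed (ρ : G →* Eˣ) (hρ : Continuous ρ) : IsClosed (ρ.range : Set Eˣ) := by
  rw [MonoidHom.coe_range]
  exact (isCompact_range hρ).isClosed

/-- exponentials of the Lie algebra are in the image of the core -/
theorem ex_core (ρ : G →* Eˣ) (hρ : Continuous ρ) (X : E)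
    (hX : ∀ t : ℝ, ex (t • X) ∈ ρ.range) : ∃ a ∈ (sInf (ON G) : Subgroup G), ρ a = ex X := by
  have key : (⋂ U : ON G, ((U : Subgroup G) : Set G) ∩ ρ ⁻¹' {ex X}).Nonempty := by
    have hne : Nonempty (ON G) := ⟨⟨⊤, on_top⟩⟩
    have hcl : ∀ U : ON G, IsClosed (((U : Subgroup G) : Set G) ∩ ρ ⁻¹' {ex X}) := fun U =>
      (on_closed U.2).inter (isClosed_singleton.preimage hρ)
    refine IsCompact.nonempty_iInter_of_directed_nonempty_isCompact_isClosed _ ?_ ?_ ?_ hcl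
    · rintro ⟨U, hU⟩ ⟨V, hV⟩
      refine ⟨⟨U ⊓ V, on_inf hU hV⟩, ?_, ?_⟩
      · rintro x ⟨hx, hx'⟩
        exact ⟨hx.1, hx'⟩
      · rintro x ⟨hx, hx'⟩
        exact ⟨hx.2, hx'⟩
    · rintro ⟨U, hU⟩
      obtain ⟨h, hh⟩ := hX (1 / (U.index : ℝ))
      refine ⟨h ^ U.index, on_pow hU h, ?_⟩
      show ρ (h ^ U.index) = ex X
      rw [map_pow, hh, ← Pool.Agent.E8helper46.FL.ex_nsmul]
      congr 1
      rw [← Nat.cast_smul_eq_nsmul ℝ, smul_smul, mul_one_div_cancel, one_smul]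
      exact_mod_cast on_index hU
    · intro U
      exact (hcl U).isCompact
  obtain ⟨a, ha⟩ := key
  rw [mem_iInter] at ha
  refine ⟨a, ?_, ?_⟩
  · rw [core_mem]
    intro U hU
    exact (ha ⟨U, hU⟩).1
  · exact (ha ⟨⊤, on_top⟩).2

/-- near `1` the representation takes values in the exponentials of its Lie algebra -/
theorem near_ex (ρ : G →* Eˣ) (hρ : Continuous ρ) :
    ∀ᶠ g : G in 𝓝 1, ∃ X : E, (∀ t : ℝ, ex (t • X) ∈ ρ.range) ∧ ρ g = ex X := by
  have h1 := near_one ρ.range (range_closed ρ hρ)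
  have h2 : Tendsto ρ (𝓝 1) (𝓝 1) := by
    have := hρ.tendsto 1
    rwa [map_one] at this
  filter_upwards [h2.eventually h1] with g hg
  obtain ⟨X, hX, h3⟩ := hg ⟨g, rfl⟩
  exact ⟨X, hX, h3⟩

end open_

theorem s_open : S_OPEN := by
  intro G _ _ _ _ _ E _ _ _ _ ρ hρ
  refine Subgroup.isOpen_of_mem_nhds _ (g := 1) ?_
  filter_upwards [near_ex ρ hρ] with g hg
  obtain ⟨X, hX, hg⟩ := hg
  obtain ⟨a, ha, hax⟩ := ex_core ρ hρ X hX
  have h1 : g = a * (a⁻¹ * g) := by group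
  rw [h1]
  refine Subgroup.mul_mem_sup ha ?_
  rw [MonoidHom.mem_ker, map_mul, map_inv, hax, hg, inv_mul_cancel]

attribute [local instance] Matrix.linftyOpNormedRing Matrix.linftyOpNormedAlgebra

/-- unitary matrices as units -/
def uu {r : ℕ} : Matrix.unitaryGroup (Fin r) ℂ →* (Matrix (Fin r) (Fin r) ℂ)ˣ :=
  Unitary.toUnits

theorem uu_val {r : ℕ} (u : Matrix.unitaryGroup (Fin r) ℂ) :
    (uu u : Matrix (Fin r) (Fin r) ℂ) = u := rfl

theorem uu_cont {r : ℕ} : Continuous (uu (r := r)) := by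
  rw [Units.continuous_iff]
  refine ⟨continuous_subtype_val, ?_⟩
  have h1 : Continuous fun u : Matrix.unitaryGroup (Fin r) ℂ =>
      star (u : Matrix (Fin r) (Fin r) ℂ) := continuous_subtype_val.star
  exact h1

theorem s_cent : S_CENT := by
  intro G _ _ _ _ _ N hN hact a ha b hb
  by_contra hab
  obtain ⟨r, ρ₀, hρ₀, hne⟩ := Pool.Agent.Y842.CX.separated_of_compact G (a * b) (b * a) hab
  obtain ⟨ρ, hρd⟩ : ∃ ρ : G →* (Matrix (Fin r) (Fin r) ℂ)ˣ, ρ = uu.comp ρ₀ := ⟨_, rfl⟩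
  have hρ : Continuous ρ := by
    rw [hρd]
    exact uu_cont.comp hρ₀
  have hinj : ∀ x y : G, ρ x = ρ y → ρ₀ x = ρ₀ y := by
    intro x y h
    rw [hρd] at h
    apply Subtype.ext
    exact congrArg Units.val h
  obtain ⟨Z, hZ⟩ : ∃ Z : Subgroup G, ∀ g, g ∈ Z ↔ ∀ c ∈ N ⊓ sInf (ON G), ρ g * ρ c = ρ c * ρ g := by
    refine ⟨⟨⟨⟨{g | ∀ c ∈ N ⊓ sInf (ON G), ρ g * ρ c = ρ c * ρ g}, ?_⟩, ?_⟩, ?_⟩, fun g => Iff.rfl⟩
    · intro x y hx hy c hc
      rw [map_mul, mul_assoc, hy c hc, ← mul_assoc, hx c hc, mul_assoc]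
    · intro c hc
      rw [map_one, one_mul, mul_one]
    · intro x hx c hc
      have := hx c hc
      rw [map_inv, inv_mul_eq_iff_eq_mul, ← mul_assoc, this, mul_assoc, mul_inv_cancel, mul_one]
  have hZn : Z.Normal := by
    refine ⟨fun g hg h => ?_⟩
    rw [hZ] at hg ⊢
    intro c hc
    have h1 : h⁻¹ * c * h ∈ N ⊓ sInf (ON G) := by
      refine ⟨?_, ?_⟩
      · have := hN.conj_mem c hc.1 h⁻¹
        rwa [inv_inv] at this
      · have := core_conj hc.2 h⁻¹
        rwa [inv_inv] at this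
    have h2 := hg _ h1
    simp only [map_mul, map_inv] at h2 ⊢
    calc ρ h * ρ g * (ρ h)⁻¹ * ρ c = ρ h * (ρ g * ((ρ h)⁻¹ * ρ c * ρ h)) * (ρ h)⁻¹ := by group
      _ = ρ h * (((ρ h)⁻¹ * ρ c * ρ h) * ρ g) * (ρ h)⁻¹ := by rw [h2]
      _ = ρ c * (ρ h * ρ g * (ρ h)⁻¹) := by group
  have hZo : IsOpen (Z : Set G) := by
    refine Subgroup.isOpen_of_mem_nhds _ (g := 1) ?_
    filter_upwards [near_ex ρ hρ] with g hg
    obtain ⟨X, hX, hg⟩ := hg
    show g ∈ Z
    rw [hZ]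
    intro c hc
    have h1 : (ρ c : Matrix (Fin r) (Fin r) ℂ) * X = X * (ρ c : Matrix (Fin r) (Fin r) ℂ) := by
      by_contra h2
      refine hact ⟨Matrix (Fin r) (Fin r) ℂ, inferInstance, inferInstance, inferInstance,
        inferInstance, ρ, hρ, c, hc, X, hX, h2⟩
    have h3 : Commute (ρ c : Matrix (Fin r) (Fin r) ℂ) (NormedSpace.exp X) :=
      Commute.exp_right h1
    rw [hg]
    ext1
    rw [Units.val_mul, Units.val_mul, Pool.Agent.E8helper46.FL.ex_val]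
    exact h3.eq.symm
  have hbZ : b ∈ Z := (core_mem.1 hb) Z ⟨hZn, hZo⟩
  rw [hZ] at hbZ
  have h1 := hbZ a ha
  apply hne
  apply hinj
  rw [map_mul, map_mul, h1]

end Pool.Agent.H57C
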