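import Pool.Agent.H57C.Stm

/-!
# Piece SURJ (helper57)
-/

set_option autoImplicit false

namespace Pool.Agent.H57C

open Topology Cardinal Set

section

variable {G : Type} [Group G] [TopologicalSpace G] [IsTopologicalGroup G]
  [CompactSpace G] [T2Space G] {L : Subgroup G} {I : Type} [LinearOrder I] {C : I → Subgroup G}

theorem surj_finite (h : Ind G L I C) (n : I → G) (hn : ∀ i, n i ∈ L) (F : Finset I) :
    ∃ g ∈ L, ∀ i ∈ F, (n i)⁻¹ * g ∈ C i := by
  classical
  induction F using Finset.induction_on_max with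
  | empty => exact ⟨1, L.one_mem, by simp⟩
  | insert i F hi ih =>
    obtain ⟨g, hg, hgF⟩ := ih
    have hnorm : ∀ j, (C j).Normal := h.norm
    have h1 : g⁻¹ * n i ∈ C i ⊔ ⨅ j ∈ F, C j :=
      h.indep i F hi (L.mul_mem (L.inv_mem hg) (hn i))
    rw [sup_comm] at h1
    have hCi := hnorm i
    rw [Subgroup.mem_sup_of_normal_right] at h1
    obtain ⟨d, hd, c, hc, hdc⟩ := h1
    have hdj : ∀ j ∈ F, d ∈ C j := by
      intro j hj
      have := (Subgroup.mem_iInf.1 hd) j
      exact (Subgroup.mem_iInf.1 this) hj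
    have hcL : c ∈ L := (h.lt i).le hc
    have hdL : d ∈ L := by
      have h2 : d = (g⁻¹ * n i) * c⁻¹ := by rw [← hdc]; group
      rw [h2]
      exact L.mul_mem (L.mul_mem (L.inv_mem hg) (hn i)) (L.inv_mem hcL)
    refine ⟨g * d, L.mul_mem hg hdL, ?_⟩
    intro j hj
    rcases Finset.mem_insert.1 hj with rfl | hj
    · have h3 : (n j)⁻¹ * (g * d) = c⁻¹ := by
        have h4 : n j = g * (d * c) := by rw [hdc]; group
        rw [h4]
        group
      rw [h3]
      exact (C j).inv_mem hc
    · rw [← mul_assoc]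
      exact (C j).mul_mem (hgF j hj) (hdj j hj)

theorem s_surj : S_SURJ := by
  classical
  intro G _ _ _ _ _ L I _ C h n hn
  have hLc : IsCompact (L : Set G) := (Subgroup.isClosed_of_isOpen L h.openL).isCompact
  let K : I → Set G := fun i => {g | (n i)⁻¹ * g ∈ C i}
  have hK : ∀ i, IsClosed (K i) := fun i => (h.closed i).preimage (continuous_const.mul continuous_id)
  obtain ⟨g, hg⟩ := hLc.inter_iInter_nonempty K hK (by
    intro F
    obtain ⟨g, hg, hgF⟩ := surj_finite h n hn F
    exact ⟨g, hg, Set.mem_iInter₂.2 hgF⟩)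
  exact ⟨g, hg.1, fun i => Set.mem_iInter.1 hg.2 i⟩

end

end Pool.Agent.H57C
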