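import Pool.Agent.H57C.Gens
import Pool.Agent.H57C.Surj
import Pool.Agent.H57C.Greedy

/-!
# Part (2): the dense subgroup (helper57)
-/

set_option autoImplicit false
set_option linter.unusedSectionVars false

namespace Pool.Agent.H57C

open Topology Cardinal Set Filter Pointwise

section

variable {G T I : Type} [Group G] [TopologicalSpace G] [IsTopologicalGroup G]
  [CompactSpace G] [T2Space G] [LinearOrder I] [WellFoundedLT I] [Uncountable I] [Countable T]
  {τ : T → G} {L : Subgroup G} {C : I → Subgroup G} [hN : ∀ j, (C j).Normal]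
  {B : Set (ℕ → Bool)} {x : (ℕ → Bool) → G} {R : I → (ℕ → Bool) → G}

/-- the countable compact subsets are second countable -/
theorem second_of_countable (hcl : ∀ j, IsClosed (C j : Set G))
    (hm : ∀ j, SecondCountableTopology (G ⧸ C j)) {K : Set (∀ j, G ⧸ C j)} (hK : IsCompact K)
    (hKc : K.Countable) : SecondCountableTopology K := by
  classical
  have hT2 : ∀ j, T2Space (G ⧸ C j) := fun j => by
    have := hcl j
    infer_instance
  have : Countable K := hKc.to_subtype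
  have : CompactSpace K := isCompact_iff_compactSpace.1 hK
  have h1 : ∀ p : K × K, ∃ j : I, p.1 ≠ p.2 → (p.1 : ∀ j, G ⧸ C j) j ≠ (p.2 : ∀ j, G ⧸ C j) j := by
    intro p
    by_cases hp : p.1 = p.2
    · obtain ⟨α⟩ := (inferInstance : Nonempty I)
      exact ⟨α, fun h => absurd hp h⟩
    · have h2 : (p.1 : ∀ j, G ⧸ C j) ≠ p.2 := fun h => hp (Subtype.ext h)
      obtain ⟨j, hj⟩ := Function.ne_iff.1 h2
      exact ⟨j, fun _ => hj⟩
  choose j hj using h1
  let F : K → (∀ p : K × K, G ⧸ C (j p)) := fun k p => (k : ∀ j, G ⧸ C j) (j p)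
  have hFc : Continuous F := continuous_pi fun p => (continuous_apply (j p)).comp continuous_subtype_val
  have hFi : Function.Injective F := by
    intro k k' hkk
    by_contra hne
    exact hj (k, k') hne (congrFun hkk (k, k'))
  exact (hFc.isClosedEmbedding hFi).isEmbedding.secondCountableTopology

/-- the image is not second countable -/
theorem not_second (hI : ∀ i : I, (Set.Iio i).Countable) (hInd : Ind G L I C)
    (hG : Gen G T I τ L C B x R) : ¬ SecondCountableTopology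
      (Subgroup.map (ff C) (Subgroup.closure (Set.range τ ∪ x '' B))) := by
  classical
  intro hsec
  obtain ⟨D0, hD0⟩ : ∃ D0, D0 = Subgroup.closure (Set.range τ ∪ x '' B) := ⟨_, rfl⟩
  rw [← hD0] at hsec
  have hT2 : ∀ j, T2Space (G ⧸ C j) := fun j => by
    have := hInd.closed j
    infer_instance
  have hm : ∀ i, ∃ m ∈ L, m ∉ C i := by
    intro i
    obtain ⟨m, h1, h2⟩ := SetLike.exists_of_lt (hInd.lt i)
    exact ⟨m, h1, h2⟩
  choose m hmL hmC using hm
  -- the basis
  let 𝔅 := TopologicalSpace.countableBasis (Subgroup.map (ff C) D0)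
  have hbasis := TopologicalSpace.isBasis_countableBasis (Subgroup.map (ff C) D0)
  have hF : ∀ b : Set (Subgroup.map (ff C) D0), ∃ F : Finset I, (b ∈ 𝔅 ∧ (1 : Subgroup.map (ff C) D0) ∈ b →
      ∀ h : Subgroup.map (ff C) D0, (∀ j ∈ F, (h : ∀ j, G ⧸ C j) j = 1) → h ∈ b) := by
    intro b
    by_cases hb : b ∈ 𝔅 ∧ (1 : Subgroup.map (ff C) D0) ∈ b
    · have h1 : b ∈ 𝓝 (1 : Subgroup.map (ff C) D0) := (hbasis.isOpen hb.1).mem_nhds hb.2
      rw [mem_nhds_subtype] at h1
      obtain ⟨u, hu, hub⟩ := h1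
      have hu' : u ∈ Filter.pi fun j =>
          𝓝 (((1 : Subgroup.map (ff C) D0) : ∀ j, G ⧸ C j) j) := by
        rw [← nhds_pi]
        exact hu
      obtain ⟨F, t, ht, htu⟩ := Filter.mem_pi'.1 hu'
      refine ⟨F, fun _ h hh => hub ?_⟩
      refine htu fun j hj => ?_
      rw [hh j hj]
      exact mem_of_mem_nhds (ht j)
    · exact ⟨∅, fun h => absurd h hb⟩
  choose F hF using hF
  have hcount : (⋃ b ∈ 𝔅, (F b : Set I)).Countable :=
    (TopologicalSpace.countable_countableBasis _).biUnion fun b _ => (F b).countable_toSet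
  obtain ⟨α0, hα0⟩ := exists_bound hI hcount
  obtain ⟨α, hα⟩ := exists_bound hI (Set.countable_singleton α0)
  have hα' : α0 < α := hα α0 rfl
  -- the open set
  have hsep : IsOpen {h : Subgroup.map (ff C) D0 | (h : ∀ j, G ⧸ C j) α0 ≠ (m α0 : G ⧸ C α0)} := by
    have h1 : Continuous fun h : Subgroup.map (ff C) D0 => (h : ∀ j, G ⧸ C j) α0 :=
      (continuous_apply α0).comp continuous_subtype_val
    exact isOpen_compl_singleton.preimage h1
  have h1mem : (1 : Subgroup.map (ff C) D0) ∈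
      {h : Subgroup.map (ff C) D0 | (h : ∀ j, G ⧸ C j) α0 ≠ (m α0 : G ⧸ C α0)} := by
    intro h
    have h2 : (1 : G ⧸ C α0) = (m α0 : G ⧸ C α0) := h
    exact hmC α0 ((QuotientGroup.eq_one_iff _).1 h2.symm)
  obtain ⟨b, hb𝔅, hb1, hbsub⟩ := hbasis.exists_subset_of_mem_open h1mem hsep
  obtain ⟨ρ, hρB, hρ⟩ := hG.x3 α (fun j => if j = α0 then m α0 else 1) (by
    intro j
    show (if j = α0 then m α0 else 1) ∈ L
    split_ifs
    · exact hmL α0
    · exact L.one_mem)
  have hmem : ff C (x ρ) ∈ Subgroup.map (ff C) D0 := by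
    refine ⟨x ρ, ?_, rfl⟩
    rw [hD0]
    exact Subgroup.subset_closure (Or.inr ⟨ρ, hρB, rfl⟩)
  have hhb : (⟨ff C (x ρ), hmem⟩ : Subgroup.map (ff C) D0) ∈ b := by
    refine hF b ⟨hb𝔅, hb1⟩ _ fun j hj => ?_
    have hj0 : j < α0 := hα0 j (Set.mem_iUnion₂.2 ⟨b, hb𝔅, hj⟩)
    have h3 := hρ j (hj0.trans hα')
    simp only [if_neg hj0.ne, inv_one, one_mul] at h3
    exact (QuotientGroup.eq_one_iff _).2 h3
  have h4 := hbsub hhb
  apply h4
  have h5 := hρ α0 hα'
  simp only [if_true] at h5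
  show ((x ρ : G) : G ⧸ C α0) = (m α0 : G ⧸ C α0)
  exact (QuotientGroup.eq.2 h5).symm

/-- density -/
theorem gd_dense (hI : ∀ i : I, (Set.Iio i).Countable) (hInd : Ind G L I C)
    (hG : Gen G T I τ L C B x R) (hτ : ∀ g : G, ∃ t, (τ t)⁻¹ * g ∈ L) :
    GdDense (Subgroup.comap (ff C)
      (Subgroup.map (ff C) (Subgroup.closure (Set.range τ ∪ x '' B)))) := by
  classical
  intro W hW hWne
  obtain ⟨g, hg⟩ := hWne
  obtain ⟨D0, hD0⟩ : ∃ D0, D0 = Subgroup.closure (Set.range τ ∪ x '' B) := ⟨_, rfl⟩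
  rw [← hD0]
  have hT2 : ∀ j, T2Space (G ⧸ C j) := fun j => by
    have := hInd.closed j
    infer_instance
  obtain ⟨U, hUo, rfl⟩ := isGδ_iff_eq_iInter_nat.1 hW
  have hnb : ∀ n, ∃ V, IsClosed V ∧ V ∈ 𝓝 g ∧ V ⊆ U n := by
    intro n
    obtain ⟨V, hV, hVc, hVU⟩ := exists_mem_nhds_isClosed_subset
      ((hUo n).mem_nhds (Set.mem_iInter.1 hg n))
    exact ⟨V, hVc, hV, hVU⟩
  choose V hVc hVn hVU using hnb
  let W : ℕ → Set G := fun n => ⋂ i ∈ Finset.range (n + 1), V i
  have hWc : ∀ n, IsClosed (W n) := fun n => isClosed_biInter fun i _ => hVc i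
  have hWn : ∀ n, W n ∈ 𝓝 g := by
    intro n
    exact (Filter.biInter_finset_mem _).2 fun i _ => hVn i
  have hWanti : ∀ n, W (n + 1) ⊆ W n := by
    intro n y hy
    refine Set.mem_iInter₂.2 fun i hi => Set.mem_iInter₂.1 hy i ?_
    exact Finset.mem_range.2 ((Finset.mem_range.1 hi).trans (Nat.lt_succ_self _))
  have hWV : ∀ n, W n ⊆ V n := fun n y hy =>
    Set.mem_iInter₂.1 hy n (Finset.mem_range.2 (Nat.lt_succ_self _))
  have hKer : IsClosed ((ff C).ker : Set G) := by
    have h1 : ((ff C).ker : Set G) = (ff C) ⁻¹' {1} := by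
      ext y
      exact MonoidHom.mem_ker
    rw [h1]
    exact isClosed_singleton.preimage (ff_cont C)
  -- finitely many coordinates
  have hfin : ∀ n, ∃ F : Finset I, ∀ y : G, (∀ j ∈ F, g⁻¹ * y ∈ C j) →
      ∃ k ∈ (ff C).ker, y * k ∈ W n := by
    intro n
    obtain ⟨O, hOW, hOo, hgO⟩ := mem_nhds_iff.1 (hWn n)
    let A : Set G := (O * ((ff C).ker : Set G))ᶜ
    have hA : IsCompact A := (hOo.mul_right).isClosed_compl.isCompact
    let Z : I → Set G := fun j => {y | g⁻¹ * y ∈ C j}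
    have hZ : ∀ j, IsClosed (Z j) := fun j =>
      (hInd.closed j).preimage (continuous_const.mul continuous_id)
    have hemp : A ∩ ⋂ j, Z j = ∅ := by
      rw [Set.eq_empty_iff_forall_notMem]
      rintro y ⟨hy1, hy2⟩
      apply hy1
      refine ⟨g, hgO, g⁻¹ * y, ?_, by simp⟩
      rw [SetLike.mem_coe, MonoidHom.mem_ker]
      funext j
      have h1 : g⁻¹ * y ∈ C j := Set.mem_iInter.1 hy2 j
      exact (QuotientGroup.eq_one_iff _).2 h1
    obtain ⟨F, hF⟩ := hA.elim_finite_subfamily_closed Z hZ hemp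
    refine ⟨F, fun y hy => ?_⟩
    have h2 : y ∉ A := by
      intro hyA
      have h3 : y ∈ A ∩ ⋂ j ∈ F, Z j := ⟨hyA, Set.mem_iInter₂.2 fun j hj => hy j hj⟩
      rw [hF] at h3
      exact h3
    have h4 : y ∈ O * ((ff C).ker : Set G) := not_not.1 h2
    obtain ⟨o, ho, k, hk, rfl⟩ := h4
    exact ⟨k⁻¹, (ff C).ker.inv_mem hk, hOW (by simpa using ho)⟩
  choose F hF using hfin
  obtain ⟨α, hα⟩ := exists_bound hI (S := ⋃ n, (F n : Set I))
    (Set.countable_iUnion fun n => (F n).countable_toSet)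
  obtain ⟨t, ht⟩ := hτ g
  obtain ⟨ρ, hρB, hρ⟩ := hG.x3 α (fun _ => (τ t)⁻¹ * g) (fun _ => ht)
  let d : G := τ t * x ρ
  have hd : d ∈ D0 := by
    rw [hD0]
    exact Subgroup.mul_mem _ (Subgroup.subset_closure (Or.inl ⟨t, rfl⟩))
      (Subgroup.subset_closure (Or.inr ⟨ρ, hρB, rfl⟩))
  have hdn : ∀ n, ∃ k ∈ (ff C).ker, d * k ∈ W n := by
    intro n
    refine hF n d fun j hj => ?_
    have h1 := hρ j (hα j (Set.mem_iUnion.2 ⟨n, hj⟩))
    have h2 : ((τ t)⁻¹ * g)⁻¹ * x ρ = g⁻¹ * d := by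
      show ((τ t)⁻¹ * g)⁻¹ * x ρ = g⁻¹ * (τ t * x ρ)
      group
    rwa [h2] at h1
  have hne : (⋂ n, ((ff C).ker : Set G) ∩ {k | d * k ∈ W n}).Nonempty := by
    refine IsCompact.nonempty_iInter_of_sequence_nonempty_isCompact_isClosed _ ?_ ?_ ?_ ?_
    · intro n
      exact Set.inter_subset_inter_right _ fun k hk => hWanti n hk
    · intro n
      obtain ⟨k, hk, hkW⟩ := hdn n
      exact ⟨k, hk, hkW⟩
    · exact (hKer.inter ((hWc 0).preimage (continuous_const.mul continuous_id))).isCompact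
    · intro n
      exact hKer.inter ((hWc n).preimage (continuous_const.mul continuous_id))
  obtain ⟨k, hk⟩ := hne
  have hk' : ∀ n, k ∈ (ff C).ker ∧ d * k ∈ W n := fun n => Set.mem_iInter.1 hk n
  refine ⟨d * k, Set.mem_iInter.2 fun n => hVU n (hWV n (hk' n).2), ?_⟩
  show ff C (d * k) ∈ Subgroup.map (ff C) D0
  rw [map_mul, MonoidHom.mem_ker.1 (hk' 0).1, mul_one]
  exact ⟨d, hd, rfl⟩

end

theorem second_of_weight {X : Type} [TopologicalSpace X] (h : weight X ≤ ℵ₀) :
    SecondCountableTopology X := by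
  have hne : {κ | ∃ B : Set (Set X), TopologicalSpace.IsTopologicalBasis B ∧ #B = κ}.Nonempty :=
    ⟨_, _, TopologicalSpace.isTopologicalBasis_opens, rfl⟩
  obtain ⟨B, hB, hBc⟩ := csInf_mem hne
  refine hB.secondCountableTopology ?_
  rw [← Cardinal.le_aleph0_iff_set_countable, hBc]
  exact h

theorem weight_le_of_second {X : Type} [TopologicalSpace X] [SecondCountableTopology X] :
    weight X ≤ ℵ₀ := by
  refine (csInf_le' (s := {κ | ∃ B : Set (Set X), TopologicalSpace.IsTopologicalBasis B ∧ #B = κ})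
    ⟨_, TopologicalSpace.isBasis_countableBasis X, rfl⟩).trans ?_
  exact Cardinal.le_aleph0_iff_set_countable.2 (TopologicalSpace.countable_countableBasis X)

end Pool.Agent.H57C
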