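import Pool.Agent.E8helper46.FL.ExpLie
import Pool.Agent.Y842.CX.Sep

/-!
# Project CG (helper57): MP_820cde_gt Q1

A compact group all of whose `G_δ`-dense subgroups are projectively `w`-compact is metrizable.

Plan. Let `G` be compact and not metrizable. (1) `G` has an open normal subgroup `L` and uncountably
many closed normal subgroups `C i < L` with `C i * ⋂ j ∈ F, C j = L` for finite `F` below `i`
(`HasInd`). (2) Such a group has a `G_δ`-dense subgroup with a continuous image all of whose compact
subsets are countable. Here (2) is done by helper57 (files `Core*.lean`) from `S_GREEDY`, `S_SURJ`.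

(1): let `A` be the intersection of the open normal subgroups (the identity component). If there are
uncountably many open normal subgroups: `S_A`. Otherwise, either for all closed normal `N` with
metrizable `G / N` the group `N ∩ A` acts nontrivially on the Lie algebra of some linear quotient
of `G` (`Acts`), then `S_SIMP` gives the `C i` one after the other, or some `N ∩ A` is central in
`A` (`S_CENT`), and then `A` has uncountably many characters (`S_Z`), and one uses `S_B`.
-/

set_option autoImplicit false

namespace Pool.Agent.H57C

open Topology Cardinal Set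
open Pool.Agent.E8helper46.FL (ex lieAlg)

/-! ### Definitions of the problem -/

/-- the weight of a space: the least cardinality of a base -/
noncomputable def weight (X : Type) [TopologicalSpace X] : Cardinal :=
  sInf {κ | ∃ B : Set (Set X), TopologicalSpace.IsTopologicalBasis B ∧ Cardinal.mk B = κ}

/-- some compact subset has the weight of the space -/
def WCompact (X : Type) [TopologicalSpace X] : Prop :=
  ∃ C : Set X, IsCompact C ∧ weight C = weight X

/-- every Hausdorff continuous homomorphic image is `w`-compact -/
def ProjWCompact (D : Type) [Group D] [TopologicalSpace D] : Prop :=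
  ∀ (H : Type) [Group H] [TopologicalSpace H] [IsTopologicalGroup H] [T2Space H] (f : D →* H),
    Continuous f → Function.Surjective f → WCompact H

/-- every nonempty `G_δ` set meets `D` -/
def GdDense {G : Type} [Group G] [TopologicalSpace G] (D : Subgroup G) : Prop :=
  ∀ B : Set G, IsGδ B → B.Nonempty → (B ∩ D).Nonempty

/-! ### The independent family -/

/-- open normal subgroups -/
def ON (G : Type) [Group G] [TopologicalSpace G] : Set (Subgroup G) :=
  {U | U.Normal ∧ IsOpen (U : Set G)}

/-- an independent family of closed normal subgroups below an open normal subgroup -/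
structure Ind (G : Type) [Group G] [TopologicalSpace G] (L : Subgroup G) (I : Type)
    [LinearOrder I] (C : I → Subgroup G) : Prop where
  normL : L.Normal
  openL : IsOpen (L : Set G)
  norm : ∀ i, (C i).Normal
  closed : ∀ i, IsClosed (C i : Set G)
  lt : ∀ i, C i < L
  metr : ∀ i, SecondCountableTopology (G ⧸ C i)
  indep : ∀ i, ∀ F : Finset I, (∀ j ∈ F, j < i) → L ≤ C i ⊔ ⨅ j ∈ F, C j

/-- there is an independent family of length `ω₁` -/
def HasInd (G : Type) [Group G] [TopologicalSpace G] : Prop :=
  ∃ (L : Subgroup G) (I : Type) (_ : LinearOrder I) (C : I → Subgroup G), Uncountable I ∧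
    WellFoundedLT I ∧ (∀ i : I, (Set.Iio i).Countable) ∧ Ind G L I C

/-! ### Pieces for part (2) -/

/-- **GREEDY.** Well-founded recursion: choose `a x ∈ J x` different from the `a y`, `y < x`. -/
def S_GREEDY : Prop := ∀ (X Y : Type) [LinearOrder X] [WellFoundedLT X] (κ : Cardinal.{0}),
  (∀ x : X, #(Set.Iio x) < κ) → ∀ J : X → Set Y, (∀ x, κ ≤ #(J x)) →
    ∃ a : X → Y, Function.Injective a ∧ ∀ x, a x ∈ J x

/-- **REF.** Disjoint refinement. From GREEDY with `κ = ℵ₁`: let `X = I ×ₗ ℕ` (lexicographic order),
`J' (i, n) = J (e n)` with `e : ℕ → P` surjective such that every value... (`a (i, n)`, then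
`π (a (i, n)) = e n` for the injective function `a`; every `p = e n` is taken uncountably often). -/
def S_REF : Prop := ∀ (I P : Type) [LinearOrder I] [WellFoundedLT I] [Uncountable I] [Countable P]
  [Nonempty P], (∀ i : I, (Set.Iio i).Countable) → ∀ J : P → Set I, (∀ p, ¬ (J p).Countable) →
    ∃ π : I → P, ∀ p, ¬ {i | i ∈ J p ∧ π i = p}.Countable

/-- **BER.** A Bernstein set (from GREEDY with `κ = 𝔠`, `X` a well-order of order type `𝔠.ord`
times `Bool`; there are `𝔠` closed sets in the Cantor space (second countable), an uncountable closed set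
has `𝔠` elements, `IsClosed.exists_nat_bool_injection_of_not_countable`). -/
def S_BER : Prop := ∃ B : Set (ℕ → Bool), #B = 𝔠 ∧
  ∀ K : Set (ℕ → Bool), IsClosed K → ¬ K.Countable → ∃ x ∈ K, x ∉ B

/-- **SURJ.** `L → ∏ L / C i` is surjective. For finitely many `i` by induction on the largest `i`:
if `g` is good for `F`, write `g⁻¹ * n i = d * c` with `d ∈ ⨅ j ∈ F, C j`, `c ∈ C i` (both normal)
and take `g * d`. Then compactness of `L` (closed, since open). -/
def S_SURJ : Prop := ∀ (G : Type) [Group G] [TopologicalSpace G] [IsTopologicalGroup G]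
  [CompactSpace G] [T2Space G] (L : Subgroup G) (I : Type) [LinearOrder I] (C : I → Subgroup G),
  Ind G L I C → ∀ n : I → G, (∀ i, n i ∈ L) → ∃ g ∈ L, ∀ i, (n i)⁻¹ * g ∈ C i

/-! ### Pieces for part (1) -/

/-- **CR.** Criterion for a second countable quotient: `G / K → ∏ Y n` is injective and continuous,
hence a closed embedding (`G / K` compact). -/
def S_CR : Prop := ∀ (G : Type) [Group G] [TopologicalSpace G] [IsTopologicalGroup G]
  [CompactSpace G] [T2Space G] (K : Subgroup G) (ι : Type) [Countable ι] (Y : ι → Type)
  [∀ i, TopologicalSpace (Y i)] [∀ i, T2Space (Y i)] [∀ i, SecondCountableTopology (Y i)]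
  (f : ∀ i, G → Y i), (∀ i, Continuous (f i)) → (∀ i x y, x⁻¹ * y ∈ K → f i x = f i y) →
    (∀ x y, (∀ i, f i x = f i y) → x⁻¹ * y ∈ K) → SecondCountableTopology (G ⧸ K)

/-- **EXT.** An extension of second countable compact groups is second countable. (`{1}` is a `G_δ`:
by second countability of `G / A` and of `A`. Or with Peter-Weyl and CR.) -/
def S_EXT : Prop := ∀ (G : Type) [Group G] [TopologicalSpace G] [IsTopologicalGroup G]
  [CompactSpace G] [T2Space G] (A : Subgroup G), A.Normal → IsClosed (A : Set G) →
    SecondCountableTopology A → SecondCountableTopology (G ⧸ A) → SecondCountableTopology G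

/-- **A.** Uncountably many open normal subgroups. Their indices are finite; let `n` be minimal such
that there are uncountably many of index `n`. Every such `U` (`n ≥ 2`) has a normal overgroup
`V U > U` such that no normal subgroup is strictly between (finite index); the index of `V U` is less
than `n`, so there are only countably many such `V U`; hence there are `L` and an uncountable set `T` of `U`
with `V U = L`. Choose `C i ∈ T` by recursion over `ω₁` (`rec_seq` in `Rec.lean`) such that
`⨅ j ∈ F, C j` is not contained in `C i` for all finite `F` below `i`: for every `F` only finitely many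
subgroups contain `⨅ j ∈ F, C j` (finite index). Then `C i ⊔ ⨅ j ∈ F, C j` is normal, its meet with
`L` is normal and strictly above `C i`, so it is `L` (for `F = ∅` the claim is trivial). -/
def S_A : Prop := ∀ (G : Type) [Group G] [TopologicalSpace G] [IsTopologicalGroup G]
  [CompactSpace G] [T2Space G], ¬ (ON G).Countable → HasInd G

/-- **CONN.** The intersection of the open normal subgroups of a compact group is connected: it is contained in
every clopen neighbourhood of `1` (Mathlib: a clopen neighbourhood of `1` contains an open normal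
subgroup), so in the connected component (`connectedComponent_eq_iInter_isClopen`). -/
def S_CONN : Prop := ∀ (G : Type) [Group G] [TopologicalSpace G] [IsTopologicalGroup G]
  [CompactSpace G] [T2Space G], IsPreconnected ((sInf (ON G) : Subgroup G) : Set G)

/-- **OPEN.** `A * ker ρ` is open. By `near_one` (`E8helper46/FL/ExpLie.lean`) applied to
`ρ.range` (closed, as compact) it suffices (neighbourhood of `1` in `G`) that `ex X ∈ ρ A` for `X` in the Lie
algebra of `ρ.range`. For `U ∈ ON G` of index `m` we have `x ^ m ∈ ρ U` for all `x ∈ ρ.range`, so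
`ex X = ex (X / m) ^ m ∈ ρ U`. The sets `U ∩ ρ⁻¹ (ex X)`, `U ∈ ON G`, are closed nonempty and
directed, so their intersection is nonempty. -/
def S_OPEN : Prop := ∀ (G : Type) [Group G] [TopologicalSpace G] [IsTopologicalGroup G]
  [CompactSpace G] [T2Space G] (E : Type) [NormedRing E] [NormedAlgebra ℝ E]
  [FiniteDimensional ℝ E] [CompleteSpace E] (ρ : G →* Eˣ), Continuous ρ →
    IsOpen ((sInf (ON G) ⊔ ρ.ker : Subgroup G) : Set G)

/-- `N ∩ A` acts nontrivially on the Lie algebra of a linear quotient (`A` is the intersection of the open
normal subgroups) -/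
def Acts (G : Type) [Group G] [TopologicalSpace G] (N : Subgroup G) : Prop :=
  ∃ (E : Type) (_ : NormedRing E) (_ : NormedAlgebra ℝ E) (_ : FiniteDimensional ℝ E)
    (_ : CompleteSpace E) (ρ : G →* Eˣ), Continuous ρ ∧ ∃ a ∈ N ⊓ sInf (ON G), ∃ X : E,
      (∀ t : ℝ, ex (t • X) ∈ ρ.range) ∧ (ρ a : E) * X ≠ X * (ρ a : E)

/-- **CENT.** For a continuous `ρ : G →* Eˣ` (unitary matrices, which separate the points:
`Y842.CX.separated_of_compact`) the elements `g` such that `ρ g` commutes with all `ρ a`, `a ∈ N ⊓ A`,
form a normal subgroup `Z`, which is open by `near_one`: if `ρ g` is near `1` then `ρ g = ex X`, `X` in the Lie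
algebra, and `X` commutes with `ρ a` as `¬ Acts G N`. So `A ≤ Z`. -/
def S_CENT : Prop := ∀ (G : Type) [Group G] [TopologicalSpace G] [IsTopologicalGroup G]
  [CompactSpace G] [T2Space G] (N : Subgroup G), N.Normal → ¬ Acts G N →
    ∀ a ∈ N ⊓ sInf (ON G), ∀ b ∈ sInf (ON G), a * b = b * a

/-- **INV.** Invariant complements (real representations of compact groups; average a projection
over the Haar measure, or use an invariant inner product). -/
def S_INV : Prop := ∀ (G : Type) [Group G] [TopologicalSpace G] [IsTopologicalGroup G]
  [CompactSpace G] [T2Space G] (V : Type) [NormedAddCommGroup V] [NormedSpace ℝ V]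
  [FiniteDimensional ℝ V] (ρ : G →* (V →L[ℝ] V)), Continuous ρ → ∀ W : Submodule ℝ V,
    (∀ g, ∀ w ∈ W, ρ g w ∈ W) →
      ∃ W' : Submodule ℝ V, IsCompl W W' ∧ ∀ g, ∀ w ∈ W', ρ g w ∈ W'

/-- **SIMP.** Let `g = lieAlg ρ.range`; `G` acts on it by conjugation; invariant subspaces are ideals
(`bracket_mem`). Let `m` be an invariant subspace of `g` of least dimension on which `N ⊓ A` acts
nontrivially; by INV it is irreducible, and it has an invariant complement `c` in `g` (with
`[m, c] ⊆ m ∩ c = 0`). `[m, m]` spans an invariant subspace, `0` or `m`. If it is `0` then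
`[g, m] = 0`, so `ker (G → GL m)` is open by `near_one` for `ρ.range`, so `A` acts trivially on `m`,
contradiction. So the center of `m` is `0` (it is invariant). Let `σ : G → (m →L m)ˣ` be the action, `C = ker σ`,
`L = A ⊔ C` (open by OPEN), `a ∉ C`.
Let `Y` be closed and normal, `C < Y ≤ L`. `Y' = σ Y` is compact. For `y ∈ Y'`, `X ∈ m` and all `t`:
`exp (t ad X) * exp (- t ad (y X)) = [exp (t ad X), y] ∈ Y'`, hence (`limit_power`, `trotter_log`)
`exp (t ad (X - y X)) ∈ Y'` for all `t`. If `y ≠ 1` choose `X` with `y X ≠ X`. So the invariant subspace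
`{Z ∈ m | ∀ t, exp (t ad Z) ∈ Y'}` (it is a subspace since `lieAlg Y'` is one) is not `0`, so it is `m`.
Then `Y` is open: for `g` near `1`, `ρ g = ex X`, `X = X1 + X2 ∈ m + c`,
`σ g = exp (ad X1) ∈ Y'`, so `g ∈ Y * C = Y`. So `A ≤ Y` and `Y = L`. -/
def S_SIMP : Prop := S_INV → S_OPEN → ∀ (G : Type) [Group G] [TopologicalSpace G]
  [IsTopologicalGroup G] [CompactSpace G] [T2Space G] (N : Subgroup G), N.Normal → Acts G N →
    ∃ C : Subgroup G, C.Normal ∧ IsClosed (C : Set G) ∧ SecondCountableTopology (G ⧸ C) ∧
      IsOpen ((sInf (ON G) ⊔ C : Subgroup G) : Set G) ∧ ¬ (N ⊓ sInf (ON G) ≤ C) ∧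
      ∀ Y : Subgroup G, Y.Normal → IsClosed (Y : Set G) → C < Y → Y ≤ sInf (ON G) ⊔ C →
        Y = sInf (ON G) ⊔ C

/-- **Z.** A connected compact group `A` with countably many characters and a closed central subgroup
`N` with second countable `A / N` is second countable.
(a) For `a ≠ 1` take a continuous `π : A → U(d)` with `π a ≠ 1` (`Y842.CX.separated_of_compact`) and `d`
least possible. Then `π n` is scalar for all `n ∈ N`: otherwise an eigenspace of `π n` and its
orthogonal complement are invariant, and the restriction of `π` to one of them moves `a`.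
(b) So it suffices (CR with `K = ⊥`) that for every `d` there are only countably many kernels of such `π`
(with `π N` scalar). Suppose not. There are only countably many determinants; so there are uncountably
many `π` with different kernels and the same determinant. The functions
`a ↦ (y ↦ π a * y * (π a)⁻¹)` on `A / N` are in a separable metric space, so for every `ε` there are two
of them, `π ≠ π'`, with distance less than `ε`.
(c) `u a = (π' a)⁻¹ * π a` has determinant `1`, and `|tr u|² = tr (y ↦ u y u⁻¹) ≥ d² (1 - ε)`. By
compactness of `SU(d)` (there `|tr u| = d` only for the scalars `ζ`, `ζ^d = 1`), for small `ε`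
`u a` is near one of the finitely many `ζ`; by connectedness `‖u a - 1‖ ≤ 1/2` for all `a`.
(d) `T = ∫ u a da` is invertible and `T * π b = π' b * T`, so `ker π = ker π'`, contradiction. -/
def S_Z : Prop := ∀ (A : Type) [Group A] [TopologicalSpace A] [IsTopologicalGroup A]
  [CompactSpace A] [T2Space A] [PreconnectedSpace A] (N : Subgroup A), IsClosed (N : Set A) →
    N ≤ Subgroup.center A → SecondCountableTopology (A ⧸ N) → Countable (A →ₜ* Circle) →
      SecondCountableTopology A

/-- **DUAL.** A character which is trivial on the common kernel `K` of the characters in `S` is in the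
group generated by `S`. If not, it is orthogonal (Haar integral) to all characters in the group
generated by `S`, but their linear combinations are dense in the continuous functions on `A / K`
(Stone-Weierstrass). -/
def S_DUAL : Prop := ∀ (A : Type) [Group A] [TopologicalSpace A] [IsTopologicalGroup A]
  [CompactSpace A] [T2Space A] (S : Set (A →ₜ* Circle)) (ψ : A →ₜ* Circle),
    (∀ a : A, (∀ χ ∈ S, χ a = 1) → ψ a = 1) → ψ ∈ Subgroup.closure S

/-- **REP.** Let `A` be a closed normal subgroup of `G`, `S` a finite set of characters of `A`, such that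
the common kernel of `S` is normal in `G`. Then there is a continuous unitary representation of `G`
whose kernel meets `A` in this common kernel `K`. (`G / K` is a compact group, its representations
separate points. The set `O` of the `a ∈ A` with `‖χ a - 1‖ < 1` for all `χ ∈ S` contains no
subgroup which is not contained in `K`. By compactness of `A \ O` finitely many
representations of `G / K` have no common kernel element in `A \ O`; take the direct sum.) -/
def S_REP : Prop := ∀ (G : Type) [Group G] [TopologicalSpace G] [IsTopologicalGroup G]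
  [CompactSpace G] [T2Space G] (A : Subgroup G), A.Normal → IsClosed (A : Set G) →
  ∀ S : Set (A →ₜ* Circle), S.Finite → ∀ K : Subgroup G, K.Normal → K ≤ A →
    (∀ a : A, (a : G) ∈ K ↔ ∀ χ ∈ S, χ a = 1) →
      ∃ (n : ℕ) (ρ : G →* Matrix.unitaryGroup (Fin n) ℂ), Continuous ρ ∧ ρ.ker ⊓ A = K

/-- **ALG.** (Maschke) `V = ℚ ⊗ B` (or `DivisibleHull`); there is a `ℚ`-linear projection to the span of `S`,
average it over `Γ`; take `b` outside of the (countable) set of the elements with a nonzero multiple in
`S`, and a nonzero integral multiple of `b - p b`. -/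
def S_ALG : Prop := ∀ (B Γ : Type) [AddCommGroup B] [Group Γ] [Finite Γ] [DistribMulAction Γ B],
  (∀ (n : ℕ) (b : B), n ≠ 0 → n • b = 0 → b = 0) → Uncountable B → ∀ S : AddSubgroup B,
    (S : Set B).Countable → (∀ (γ : Γ), ∀ s ∈ S, γ • s ∈ S) →
      ∃ b : B, b ≠ 0 ∧ ∀ c ∈ AddSubgroup.closure (Set.range fun γ : Γ => γ • b), c ∈ S → c = 0

/-- **STAB.** The stabilizer of a character of a closed normal subgroup contains an open normal
subgroup: if `g` is near `1` then `‖χ (g a g⁻¹) - χ a‖ < 1` for all `a` (compactness), so that
`a ↦ χ (g a g⁻¹) / χ a` is trivial; take the normal core. -/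
def S_STAB : Prop := ∀ (G : Type) [Group G] [TopologicalSpace G] [IsTopologicalGroup G]
  [CompactSpace G] [T2Space G] (A : Subgroup G) (hA : A.Normal), IsClosed (A : Set G) →
  ∀ χ : A →ₜ* Circle, ∃ U ∈ ON G, ∀ g ∈ U, ∀ a : A,
    χ ⟨g * a * g⁻¹, hA.conj_mem a a.2 g⟩ = χ a

/-- **B.** (helper57) -/
def S_B : Prop := ∀ (G : Type) [Group G] [TopologicalSpace G] [IsTopologicalGroup G]
  [CompactSpace G] [T2Space G], (ON G).Countable →
    Uncountable (((sInf (ON G) : Subgroup G)) →ₜ* Circle) → HasInd G

end Pool.Agent.H57C
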