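import Pool.Agent.H57C.Stm

/-!
# Words with constants (helper57)
-/

set_option autoImplicit false

namespace Pool.Agent.H57C

open Topology Cardinal Set

section words

variable {G T : Type} [Group G] (τ : T → G)

/-- evaluation of words with constants from `T` -/
def ev {V : Type} (v : V → G) : FreeGroup (T ⊕ V) →* G := FreeGroup.lift (Sum.elim τ v)

/-- renaming of the variables -/
def rn {V U : Type} (a : V → U) : FreeGroup (T ⊕ V) →* FreeGroup (T ⊕ U) :=
  FreeGroup.map (Sum.map id a)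

theorem ev_of_inl {V : Type} (v : V → G) (t : T) : ev τ v (FreeGroup.of (Sum.inl t)) = τ t := by
  unfold ev
  rw [FreeGroup.lift_apply_of]
  rfl

theorem ev_of_inr {V : Type} (v : V → G) (x : V) : ev τ v (FreeGroup.of (Sum.inr x)) = v x := by
  unfold ev
  rw [FreeGroup.lift_apply_of]
  rfl

theorem rn_of_inl {V U : Type} (a : V → U) (t : T) :
    rn a (FreeGroup.of (Sum.inl t)) = FreeGroup.of (Sum.inl t) := by
  unfold rn
  rw [FreeGroup.map.of]
  rfl

theorem rn_of_inr {V U : Type} (a : V → U) (x : V) :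
    rn (T := T) a (FreeGroup.of (Sum.inr x)) = FreeGroup.of (Sum.inr (a x)) := by
  unfold rn
  rw [FreeGroup.map.of]
  rfl

theorem hom_ext' {V K : Type} [Group K] {f g : FreeGroup (T ⊕ V) →* K}
    (h1 : ∀ t, f (FreeGroup.of (Sum.inl t)) = g (FreeGroup.of (Sum.inl t)))
    (h2 : ∀ x, f (FreeGroup.of (Sum.inr x)) = g (FreeGroup.of (Sum.inr x))) : f = g := by
  apply FreeGroup.ext_hom
  rintro (t | x)
  · exact h1 t
  · exact h2 x

theorem ev_rn {V U : Type} (a : V → U) (v : U → G) (w : FreeGroup (T ⊕ V)) :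
    ev τ v (rn a w) = ev τ (v ∘ a) w := by
  have h : (ev τ v).comp (rn a) = ev τ (v ∘ a) := by
    apply hom_ext'
    · intro t
      rw [MonoidHom.comp_apply, rn_of_inl, ev_of_inl, ev_of_inl]
    · intro x
      rw [MonoidHom.comp_apply, rn_of_inr, ev_of_inr, ev_of_inr]
      rfl
  exact DFunLike.congr_fun h w

theorem rn_rn {V U Z : Type} (a : V → U) (b : U → Z) (w : FreeGroup (T ⊕ V)) :
    rn b (rn a w) = rn (b ∘ a) w := by
  have h : (rn (T := T) b).comp (rn a) = rn (b ∘ a) := by
    apply hom_ext'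
    · intro t
      rw [MonoidHom.comp_apply, rn_of_inl, rn_of_inl, rn_of_inl]
    · intro x
      rw [MonoidHom.comp_apply, rn_of_inr, rn_of_inr, rn_of_inr]
      rfl
  exact DFunLike.congr_fun h w

theorem hom_ev {K : Type} [Group K] (φ : G →* K) {V : Type} (v : V → G)
    (w : FreeGroup (T ⊕ V)) : φ (ev τ v w) = ev (φ ∘ τ) (φ ∘ v) w := by
  have h : φ.comp (ev τ v) = ev (φ ∘ τ) (φ ∘ v) := by
    apply hom_ext'
    · intro t
      rw [MonoidHom.comp_apply, ev_of_inl, ev_of_inl]
      rfl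
    · intro x
      rw [MonoidHom.comp_apply, ev_of_inr, ev_of_inr]
      rfl
  exact DFunLike.congr_fun h w

/-- values modulo a normal subgroup -/
theorem ev_mod {N : Subgroup G} (hN : N.Normal) {V : Type} {v v' : V → G}
    (h : ∀ x, (v x)⁻¹ * v' x ∈ N) (w : FreeGroup (T ⊕ V)) :
    (ev τ v w)⁻¹ * ev τ v' w ∈ N := by
  rw [← QuotientGroup.eq]
  have h1 := hom_ev τ (QuotientGroup.mk' N) v w
  have h2 := hom_ev τ (QuotientGroup.mk' N) v' w
  have h3 : (QuotientGroup.mk' N) ∘ v = (QuotientGroup.mk' N) ∘ v' := by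
    funext x
    exact QuotientGroup.eq.2 (h x)
  rw [h3] at h1
  exact h1.trans h2.symm

/-- every word contains finitely many variables -/
theorem exists_fin {V : Type} (u : FreeGroup (T ⊕ V)) :
    ∃ (k : ℕ) (w : FreeGroup (T ⊕ Fin k)) (ρ : Fin k → V), Function.Injective ρ ∧
      u = rn ρ w := by
  classical
  have h : ∃ S : Finset V, ∃ w : FreeGroup (T ⊕ S), u = rn (Subtype.val : S → V) w := by
    induction u using FreeGroup.induction_on with
    | C1 => exact ⟨∅, 1, (map_one _).symm⟩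
    | of x =>
      rcases x with t | x
      · exact ⟨∅, FreeGroup.of (Sum.inl t), (rn_of_inl _ t).symm⟩
      · refine ⟨{x}, FreeGroup.of (Sum.inr ⟨x, Finset.mem_singleton_self x⟩), ?_⟩
        have h := rn_of_inr (T := T) (Subtype.val : ({x} : Finset V) → V)
          ⟨x, Finset.mem_singleton_self x⟩
        exact h.symm
    | inv_of x ih =>
      obtain ⟨S, w, hw⟩ := ih
      exact ⟨S, w⁻¹, by rw [map_inv, ← hw]⟩
    | mul x y ihx ihy =>
      obtain ⟨S, w, hw⟩ := ihx
      obtain ⟨S', w', hw'⟩ := ihy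
      refine ⟨S ∪ S', rn (fun s : S => (⟨s.1, Finset.mem_union_left _ s.2⟩ : (S ∪ S' : Finset V))) w *
        rn (fun s : S' => (⟨s.1, Finset.mem_union_right _ s.2⟩ : (S ∪ S' : Finset V))) w', ?_⟩
      rw [map_mul, rn_rn, rn_rn, hw, hw']
      rfl
  obtain ⟨S, w, hw⟩ := h
  let e := S.equivFin
  refine ⟨S.card, rn e w, fun i => (e.symm i : V), ?_, ?_⟩
  · exact Subtype.val_injective.comp e.symm.injective
  · rw [rn_rn, hw]
    congr 1
    congr 1
    funext s
    simp

/-- elements of the group generated by `τ` and `x '' B` -/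
theorem exists_rep {V : Type} (x : V → G) (B : Set V) {d : G}
    (hd : d ∈ Subgroup.closure (Set.range τ ∪ x '' B)) :
    ∃ (k : ℕ) (w : FreeGroup (T ⊕ Fin k)) (ρ : Fin k → V), Function.Injective ρ ∧
      (∀ i, ρ i ∈ B) ∧ d = ev τ (x ∘ ρ) w := by
  have h1 : Set.range τ ∪ x '' B = Set.range (Sum.elim τ (x ∘ (Subtype.val : B → V))) := by
    rw [Set.Sum.elim_range, Set.range_comp, Subtype.range_coe]
  rw [h1, ← FreeGroup.range_lift_eq_closure] at hd
  obtain ⟨u, rfl⟩ := hd
  obtain ⟨k, w, ρ, hρ, rfl⟩ := exists_fin u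
  refine ⟨k, w, fun i => (ρ i : V), Subtype.val_injective.comp hρ, fun i => (ρ i).2, ?_⟩
  exact ev_rn τ ρ (x ∘ (Subtype.val : B → V)) w

theorem ev_mem {V : Type} (x : V → G) (B : Set V) {k : ℕ} (w : FreeGroup (T ⊕ Fin k))
    (ρ : Fin k → V) (hρ : ∀ i, ρ i ∈ B) :
    ev τ (x ∘ ρ) w ∈ Subgroup.closure (Set.range τ ∪ x '' B) := by
  have h1 : (ev τ (x ∘ ρ)).range ≤ Subgroup.closure (Set.range τ ∪ x '' B) := by
    unfold ev
    rw [FreeGroup.range_lift_eq_closure, Subgroup.closure_le]
    rintro _ ⟨t | i, rfl⟩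
    · exact Subgroup.subset_closure (Or.inl ⟨t, rfl⟩)
    · exact Subgroup.subset_closure (Or.inr ⟨_, hρ i, rfl⟩)
  exact h1 ⟨w, rfl⟩

/-- putting a variable equal to `1` -/
theorem exists_subst {k : ℕ} (i : Fin (k + 1)) (w : FreeGroup (T ⊕ Fin (k + 1))) :
    ∃ w' : FreeGroup (T ⊕ Fin k), ∀ v : Fin (k + 1) → G,
      ev τ (fun a => v (i.succAbove a)) w' = ev τ (Function.update v i 1) w := by
  classical
  let s : FreeGroup (T ⊕ Fin (k + 1)) →* FreeGroup (T ⊕ Fin k) :=
    FreeGroup.lift (Sum.elim (fun t => FreeGroup.of (Sum.inl t))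
      (fun a => if h : ∃ b, i.succAbove b = a then FreeGroup.of (Sum.inr h.choose) else 1))
  refine ⟨s w, fun v => ?_⟩
  have h : (ev τ (fun a => v (i.succAbove a))).comp s = ev τ (Function.update v i 1) := by
    apply hom_ext'
    · intro t
      rw [MonoidHom.comp_apply, ev_of_inl]
      show ev τ _ (FreeGroup.lift _ (FreeGroup.of (Sum.inl t))) = _
      rw [FreeGroup.lift_apply_of]
      exact ev_of_inl τ _ t
    · intro a
      rw [MonoidHom.comp_apply, ev_of_inr]
      show ev τ _ (FreeGroup.lift _ (FreeGroup.of (Sum.inr a))) = _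
      rw [FreeGroup.lift_apply_of]
      simp only [Sum.elim_inr]
      split_ifs with hb
      · rw [ev_of_inr, hb.choose_spec]
        have hne : a ≠ i := by
          rintro rfl
          obtain ⟨b, hb⟩ := hb
          exact Fin.succAbove_ne _ _ hb
        rw [Function.update_of_ne hne]
      · have hai : a = i := by
          by_contra hne
          obtain ⟨b, hb'⟩ := Fin.exists_succAbove_eq hne
          exact hb ⟨b, hb'⟩
        rw [hai, Function.update_self, map_one]
  exact DFunLike.congr_fun h w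

end words

end Pool.Agent.H57C
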